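import Pool.Agent.BoltzD.C3.Cancel
import Pool.Agent.BoltzD.Coll.Bound
import Pool.Agent.BoltzD.Stmt3

-- ======== part 0: formerly Pool.Agent.BoltzD.Uq.Spec
section MrgPart0

/-! Uniqueness by a weighted `L^1` estimate: definitions and interfaces. -/

set_option autoImplicit false

open MeasureTheory Set Filter Topology
open scoped ENNReal

noncomputable section

namespace Pool.Agent.BoltzD.Uq

open Coll C3

/-- the sign -/
def sg (x : ℝ) : ℝ := if 0 < x then 1 else if x < 0 then -1 else 0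

variable [Dim]

/-- the weight -/
def wt (v : E) : ℝ := (1 + ‖v‖ ^ 2) ^ 15

/-- the cut-off -/
def chi (R : ℝ) (v : E) : ℝ := max 0 (min 1 (2 - ‖v‖ / R))

/-- the kernel times the truncated jump length -/
def kx (p : E × E × S2) : ℝ := ker3 p * min 1 |rho p|

/-- long jumps -/
def kf (p : E × E × S2) : ℝ := if 1 < |rho p| then ker3 p else 0

/-- short jumps -/
def kn (p : E × E × S2) : ℝ := if |rho p| ≤ 1 then ker3 p else 0

/-- jumps of length at least `ε` -/
def ke (ε : ℝ) (p : E × E × S2) : ℝ := if ε ≤ |rho p| then ker3 p else 0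

/-- `a(v_*') b(v') - a(v_*) b(v)` -/
def inc (a b : E → ℝ) (p : E × E × S2) : ℝ :=
  a (pw p.1 p.2.1 p.2.2) * b (pv p.1 p.2.1 p.2.2) - a p.2.1 * b p.1

/-- the collision integrand in the omega form -/
def cO (f : E → ℝ) (v : E) (q : E × S2) : ℝ := ker3 (v, q) * inc f f (v, q)

/-- the collision operator in the omega form -/
def QO (f : E → ℝ) (v : E) : ℝ := ∫ q, cO f v q ∂mu2

/-- weighted bound -/
def Dec (p : ℕ) (K : ℝ) (f : E → ℝ) : Prop := ∀ v, (1 + ‖v‖) ^ p * |f v| ≤ K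

/-- local Lipschitz bound -/
def LocLip (f : E → ℝ) : Prop :=
  ∀ R : ℝ, ∃ L : ℝ, ∀ v v' : E, ‖v‖ ≤ R → ‖v' - v‖ ≤ 1 → |f v' - f v| ≤ L * ‖v' - v‖

/-- U1: the Povzner inequality -/
def PovStmt : Prop :=
  ∃ (C : ℝ) (N : ℕ), 0 ≤ C ∧ ∀ v w : E,
    ∫⁻ o, ENNReal.ofReal (kn (v, w, o) * (2 * |wt (pv v w o) - wt v|)
        + kf (v, w, o) * (wt (pv v w o) + wt (pw v w o) + wt w)) ∂sph
      ≤ ∫⁻ o, ENNReal.ofReal (kf (v, w, o) * wt v) ∂sph
        + ENNReal.ofReal (C * (1 + ‖w‖) ^ N * wt v)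

/-- U2: the terms with a sign -/
def MainStmt : Prop :=
  ∃ p : ℕ, ∀ K : ℝ, ∃ C : ℝ, ∀ (f g : E → ℝ) (R ε : ℝ), 1 ≤ R → 0 < ε →
    Measurable f → Measurable g → (∀ v, 0 ≤ f v) → (∀ v, 0 ≤ g v) → Dec p K f → Dec p K g →
    ∫ q, kc ε q * (sg (f q.1 - g q.1) * (wt q.1 * chi R q.1)) * inc g (f - g) q ∂mu3
      + ∫ q, kf q * (sg (f q.1 - g q.1) * (wt q.1 * chi R q.1)) * (inc f f q - inc g g q) ∂mu3
      ≤ C * (∫ v, |f v - g v| * wt v) + C / R

/-- U3: the short jumps of the term in which the difference is the background -/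
def CrossStmt : Prop :=
  ∃ p : ℕ, ∀ K : ℝ, ∃ C : ℝ, ∀ (f h ψ : E → ℝ) (K' ε : ℝ), 0 < ε → Nice p K f →
    Measurable h → Dec p K' h → Measurable ψ → (∀ v, |ψ v| ≤ wt v) →
    ∫ q, kc ε q * ψ q.1 * inc h f q ∂mu3 ≤ C * ∫ v, |h v| * wt v

/-- U4: removal of the truncation -/
def LimStmt : Prop :=
  ∃ p : ℕ, ∀ (f ψ : E → ℝ) (K R : ℝ), Measurable f → Dec p K f → LocLip f →
    (∀ v, Integrable (cO f v) mu2) → Measurable ψ → (∀ v, |ψ v| ≤ wt v) →
    (∀ v, R ≤ ‖v‖ → ψ v = 0) →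
    Integrable (fun v => ψ v * QO f v) ∧
      Tendsto (fun ε => ∫ q, ke ε q * ψ q.1 * inc f f q ∂mu3) (𝓝[>] 0) (𝓝 (∫ v, ψ v * QO f v))

/-- the estimate in the velocity variable (from U2, U3, U4) -/
def VelStmt : Prop :=
  ∃ p : ℕ, ∀ K : ℝ, ∃ C : ℝ, 0 ≤ C ∧ ∀ (f g : E → ℝ) (R : ℝ), 1 ≤ R → Nice p K f → Dec p K g →
    Measurable g → LocLip g → (∀ v, 0 ≤ f v) → (∀ v, 0 ≤ g v) →
    (∀ v, Integrable (cO f v) mu2) → (∀ v, Integrable (cO g v) mu2) →
    ∫ v, sg (f v - g v) * (wt v * chi R v) * (QO f v - QO g v)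
      ≤ C * (∫ v, |f v - g v| * wt v) + C / R

/-- U5: transport and Gronwall -/
def TransStmt : Prop :=
  ∀ (h r : ℝ → E → E → ℝ) (t0 K C : ℝ), 0 ≤ C →
    Continuous (fun q : ℝ × E × E => h q.1 q.2.1 q.2.2) →
    Continuous (fun q : ℝ × E × E => r q.1 q.2.1 q.2.2) →
    (∀ t n x, h t (x + Stmt.lat n) = h t x) → (∀ t n x, r t (x + Stmt.lat n) = r t x) →
    (∀ x v, h 0 x v = 0) →
    (∀ x v, ∀ t ∈ Icc 0 t0,
      HasDerivWithinAt (fun τ => h τ (x + τ • v) v) (r t (x + t • v) v) (Icc 0 t0) t) →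
    (∀ t ∈ Icc 0 t0, ∀ x, Dec (dd + 31) K (h t x)) →
    (∀ t ∈ Icc 0 t0, ∀ x, ∀ R : ℝ, 1 ≤ R →
      ∫ v, sg (h t x v) * (wt v * chi R v) * r t x v ≤ C * (∫ v, |h t x v| * wt v) + C / R) →
    ∀ t ∈ Icc 0 t0, ∀ x v, h t x v = 0

/-- U6: the sigma form equals the omega form -/
def SigStmt : Prop :=
  ∀ (f : E → ℝ) (v : E), Measurable f →
    Integrable (Stmt.collInt (Stmt.Bk dd) f v) (Stmt.collMeas dd) →
    Integrable (cO f v) mu2 ∧ Stmt.Q (Stmt.Bk dd) f v = QO f v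

/-- U7: the uniqueness theorem -/
def UniqStmt : Prop :=
  ∀ (T : ℝ) (f : ℝ → E → E → ℝ), Stmt.ClassicalSol (Stmt.Bk dd) T f → Stmt.Smooth T f →
    Stmt.Unique (Stmt.Bk dd) T f

end Pool.Agent.BoltzD.Uq

end
end MrgPart0

-- ======== part 1: formerly Pool.Agent.BoltzD.Uq.Basic
section MrgPart1

/-! Elementary facts on the weight, the cut-off and the truncated kernels. -/

set_option autoImplicit false

open MeasureTheory Set Filter Topology
open scoped ENNReal

noncomputable section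

namespace Pool.Agent.BoltzD.Uq

open Coll C3

@[fun_prop] lemma measurable_sg : Measurable sg :=
  Measurable.ite measurableSet_Ioi measurable_const
    (Measurable.ite measurableSet_Iio measurable_const measurable_const)

lemma abs_sg_le (x : ℝ) : |sg x| ≤ 1 := by unfold sg; split_ifs <;> simp

lemma sg_mul_self (x : ℝ) : sg x * x = |x| := by
  unfold sg
  split_ifs with h1 h2
  · rw [one_mul, abs_of_pos h1]
  · rw [abs_of_neg h2]; ring
  · rw [le_antisymm (not_lt.1 h1) (not_lt.1 h2)]; simp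

lemma abs_sg_mul_le (x y : ℝ) : |sg x * y| ≤ |y| := by
  rw [abs_mul]; exact mul_le_of_le_one_left (abs_nonneg y) (abs_sg_le x)

variable [Dim]

lemma one_le_wt' (v : E) : 1 ≤ wt v := one_le_pow₀ (by nlinarith [sq_nonneg ‖v‖])

lemma wt_pos' (v : E) : 0 < wt v := by unfold wt; positivity

@[fun_prop] lemma continuous_wt : Continuous wt := by unfold wt; fun_prop

@[fun_prop] lemma measurable_wt : Measurable wt := continuous_wt.measurable

lemma wt_le_pow (v : E) : wt v ≤ (1 + ‖v‖) ^ 30 := by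
  rw [wt, show 30 = 2 * 15 from rfl, pow_mul]
  gcongr
  nlinarith [norm_nonneg v]

lemma pow_le_wt (v : E) : (1 + ‖v‖) ^ 30 ≤ 2 ^ 15 * wt v := by
  rw [wt, show 30 = 2 * 15 from rfl, pow_mul, ← mul_pow]
  gcongr
  nlinarith [sq_nonneg (‖v‖ - 1)]

lemma wt_le_post (v w : E) (o : S2) : wt v ≤ wt (pv v w o) * wt (pw v w o) := by
  rw [wt, wt, wt, ← mul_pow]
  gcongr
  nlinarith [energy v w o, sq_nonneg ‖w‖, mul_nonneg (sq_nonneg ‖pv v w o‖) (sq_nonneg ‖pw v w o‖)]

lemma wt_pv_le (v w : E) (o : S2) : wt (pv v w o) ≤ wt v * wt w := by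
  have := wt_le_post (pv v w o) (pw v w o) o
  rwa [pv_pv, pw_pw] at this

lemma wt_pw_le (v w : E) (o : S2) : wt (pw v w o) ≤ wt v * wt w := by
  rw [← pv_swap, mul_comm]; exact wt_pv_le w v o

lemma chi_nonneg (R : ℝ) (v : E) : 0 ≤ chi R v := le_max_left _ _

lemma chi_le_one (R : ℝ) (v : E) : chi R v ≤ 1 := max_le zero_le_one (min_le_left _ _)

@[fun_prop] lemma continuous_chi (R : ℝ) : Continuous (chi R) := by unfold chi; fun_prop

@[fun_prop] lemma measurable_chi (R : ℝ) : Measurable (chi R) := (continuous_chi R).measurable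

lemma chi_eq_zero {R : ℝ} (hR : 0 < R) {v : E} (h : 2 * R ≤ ‖v‖) : chi R v = 0 :=
  max_eq_left ((min_le_right _ _).trans (by rw [sub_nonpos, le_div_iff₀ hR]; exact h))

lemma one_sub_chi_le {R : ℝ} (hR : 0 < R) (v : E) : 1 - chi R v ≤ ‖v‖ / R := by
  have h0 : 0 ≤ ‖v‖ / R := by positivity
  have h1 : min 1 (2 - ‖v‖ / R) ≤ chi R v := le_max_right _ _
  have h2 := chi_nonneg R v
  rcases le_total 1 (2 - ‖v‖ / R) with h | h
  · rw [min_eq_left h] at h1; linarith
  · linarith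

lemma abs_chi_sub_le {R : ℝ} (hR : 0 < R) (v v' : E) : |chi R v' - chi R v| ≤ ‖v' - v‖ / R := by
  unfold chi
  rw [max_comm 0, max_comm 0]
  refine (abs_max_sub_max_le_abs _ _ _).trans ((abs_min_sub_min_le_max _ _ _ _).trans ?_)
  rw [sub_self, abs_zero, show 2 - ‖v'‖ / R - (2 - ‖v‖ / R) = -((‖v'‖ - ‖v‖) / R) by ring, abs_neg,
    abs_div, abs_of_pos hR]
  exact max_le (by positivity) (div_le_div_of_nonneg_right (abs_norm_sub_norm_le _ _) hR.le)

lemma abs_test_le (x R : ℝ) (v : E) : |sg x * (wt v * chi R v)| ≤ wt v := by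
  refine (abs_sg_mul_le _ _).trans ?_
  rw [abs_of_nonneg (mul_nonneg (wt_pos' v).le (chi_nonneg R v))]
  exact mul_le_of_le_one_right (wt_pos' v).le (chi_le_one R v)

lemma kx_nonneg (p : E × E × S2) : 0 ≤ kx p :=
  mul_nonneg (ker3_nonneg p) (le_min zero_le_one (abs_nonneg _))

lemma kf_nonneg (p : E × E × S2) : 0 ≤ kf p := by
  unfold kf; split_ifs; exacts [ker3_nonneg p, le_rfl]

lemma kn_nonneg (p : E × E × S2) : 0 ≤ kn p := by
  unfold kn; split_ifs; exacts [ker3_nonneg p, le_rfl]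

lemma ke_nonneg (ε : ℝ) (p : E × E × S2) : 0 ≤ ke ε p := by
  unfold ke; split_ifs; exacts [ker3_nonneg p, le_rfl]

@[fun_prop] lemma measurable_kx : Measurable kx := by unfold kx; fun_prop

@[fun_prop] lemma measurable_kf : Measurable kf :=
  Measurable.ite (measurableSet_lt measurable_const (by fun_prop)) measurable_ker3 measurable_const

@[fun_prop] lemma measurable_kn : Measurable kn :=
  Measurable.ite (measurableSet_le (by fun_prop) measurable_const) measurable_ker3 measurable_const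

@[fun_prop] lemma measurable_ke (ε : ℝ) : Measurable (ke ε) :=
  Measurable.ite (measurableSet_le measurable_const (by fun_prop)) measurable_ker3 measurable_const

lemma kx_coll (p : E × E × S2) : kx (coll p) = kx p := by rw [kx, kx, ker3_coll, rho_coll, abs_neg]

lemma kx_swp (p : E × E × S2) : kx (swp p) = kx p := by rw [kx, kx, ker3_swp, rho_swp, abs_neg]

lemma kf_coll (p : E × E × S2) : kf (coll p) = kf p := by rw [kf, kf, ker3_coll, rho_coll, abs_neg]

lemma kf_swp (p : E × E × S2) : kf (swp p) = kf p := by rw [kf, kf, ker3_swp, rho_swp, abs_neg]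

lemma kc_eq (ε : ℝ) (p : E × E × S2) :
    kc ε p = if ε ≤ |rho p| ∧ |rho p| ≤ 1 then ker3 p else 0 := by
  unfold kc phi win
  split_ifs with h
  · rw [indicator_of_mem (show rho p ∈ {t | ε ≤ |t| ∧ |t| ≤ 1} from h)]; rfl
  · rw [indicator_of_notMem (show rho p ∉ {t | ε ≤ |t| ∧ |t| ≤ 1} from h), mul_zero]

lemma kc_le_kn (ε : ℝ) (p : E × E × S2) : kc ε p ≤ kn p := by
  rw [kc_eq]
  split_ifs with h
  · rw [kn, if_pos h.2]
  · exact kn_nonneg p

lemma kn_mul_abs_le (p : E × E × S2) : kn p * |rho p| ≤ kx p := by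
  unfold kn
  split_ifs with h
  · rw [kx, min_eq_right h]
  · rw [zero_mul]; exact kx_nonneg p

lemma kc_mul_abs_le (ε : ℝ) (p : E × E × S2) : kc ε p * |rho p| ≤ kx p :=
  (mul_le_mul_of_nonneg_right (kc_le_kn ε p) (abs_nonneg _)).trans (kn_mul_abs_le p)

lemma kf_le (p : E × E × S2) : kf p ≤ kx p := by
  unfold kf
  split_ifs with h
  · rw [kx, min_eq_left h.le, mul_one]
  · exact kx_nonneg p

lemma kc_le_kx {ε : ℝ} (hε : 0 < ε) (p : E × E × S2) : kc ε p ≤ ε⁻¹ * kx p := by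
  rw [le_inv_mul_iff₀ hε]
  refine le_trans ?_ (kc_mul_abs_le ε p)
  rw [kc_eq]
  split_ifs with h
  · rw [mul_comm]; exact mul_le_mul_of_nonneg_left h.1 (ker3_nonneg p)
  · simp

lemma ke_eq {ε : ℝ} (hε : ε ≤ 1) (p : E × E × S2) : ke ε p = kc ε p + kf p := by
  rw [kc_eq, ke, kf]
  by_cases h : 1 < |rho p|
  · rw [if_pos (by linarith), if_neg (fun h' => by linarith [h'.2]), if_pos h, zero_add]
  · rw [if_neg h, add_zero]
    simp only [not_lt.1 h, and_true]

lemma ke_le_kx {ε : ℝ} (hε : 0 < ε) (hε1 : ε ≤ 1) (p : E × E × S2) :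
    ke ε p ≤ (ε⁻¹ + 1) * kx p := by
  rw [ke_eq hε1, add_mul, one_mul]
  exact add_le_add (kc_le_kx hε p) (kf_le p)

@[fun_prop] lemma measurable_inc {a b : E → ℝ} (ha : Measurable a) (hb : Measurable b) :
    Measurable (inc a b) := by unfold inc; fun_prop

/-- the constant of the angular integral -/
def cA : ℝ := exists_ang.choose

lemma cA_pos : 0 < cA := exists_ang.choose_spec.1

lemma lint_kx_sph (v w : E) : ∫⁻ o, ENNReal.ofReal (kx (v, w, o)) ∂sph
    ≤ ENNReal.ofReal (cA * ‖v - w‖ ^ (57 / 2 : ℝ)) := exists_ang.choose_spec.2 (v - w)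

lemma lint_kx_sph' (v w : E) : ∫⁻ o, ENNReal.ofReal (kx (v, w, o)) ∂sph
    ≤ ENNReal.ofReal (cA * ((1 + ‖v‖) ^ 29 * (1 + ‖w‖) ^ 29)) := by
  refine (lint_kx_sph v w).trans (ENNReal.ofReal_le_ofReal ?_)
  refine mul_le_mul_of_nonneg_left ((rpow_sub_le v w).trans ?_) cA_pos.le
  exact mul_le_mul_of_nonneg_right (wt_rpow_le v) (by positivity)

/-- the basic bound for products of a function of `v` and a function of `v_*` -/
theorem lint_kx_le {a b : E → ℝ≥0∞} (ha : Measurable a) (hb : Measurable b) :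
    ∫⁻ p, ENNReal.ofReal (kx p) * (a p.1 * b p.2.1) ∂mu3 ≤ ENNReal.ofReal cA *
      ((∫⁻ v, ENNReal.ofReal ((1 + ‖v‖) ^ 29) * a v) *
        ∫⁻ w, ENNReal.ofReal ((1 + ‖w‖) ^ 29) * b w) := by
  rw [lintegral_mu3 _ (by fun_prop), ← lintegral_mul_const _ (by fun_prop),
    ← lintegral_const_mul _ (by fun_prop)]
  refine lintegral_mono fun v => ?_
  simp only
  rw [← lintegral_const_mul _ (by fun_prop), ← lintegral_const_mul _ (by fun_prop)]
  refine lintegral_mono fun w => ?_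
  simp only
  rw [lintegral_mul_const _ (by fun_prop)]
  refine (mul_le_mul_left (lint_kx_sph' v w) _).trans (le_of_eq ?_)
  rw [ENNReal.ofReal_mul cA_pos.le, ENNReal.ofReal_mul (by positivity)]
  ring

lemma Dec.nonneg {p : ℕ} {K : ℝ} {f : E → ℝ} (h : Dec p K f) : 0 ≤ K :=
  le_trans (by positivity) (h 0)

lemma Dec.mono {p p' : ℕ} {K : ℝ} {f : E → ℝ} (h : Dec p K f) (hp : p' ≤ p) : Dec p' K f :=
  fun v => le_trans (by gcongr; linarith [norm_nonneg v]) (h v)

lemma Dec.sub {p : ℕ} {K K' : ℝ} {f g : E → ℝ} (h : Dec p K f) (h' : Dec p K' g) :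
    Dec p (K + K') (f - g) := fun v => by
  have := abs_sub (f v) (g v)
  have h1 := wt_pos v p
  simp only [Pi.sub_apply]
  nlinarith [h v, h' v]

lemma Dec.add {p : ℕ} {K K' : ℝ} {f g : E → ℝ} (h : Dec p K f) (h' : Dec p K' g) :
    Dec p (K + K') (f + g) := fun v => by
  have := abs_add_le (f v) (g v)
  have h1 := wt_pos v p
  simp only [Pi.add_apply]
  nlinarith [h v, h' v]

lemma Dec.abs {p : ℕ} {K : ℝ} {f : E → ℝ} (h : Dec p K f) : Dec p K fun v => |f v| :=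
  fun v => by rw [abs_abs]; exact h v

/-- the integral of the weight of order `-(dd+1)` -/
def cJ : ℝ := ∫ v : E, ((1 + ‖v‖) ^ (dd + 1))⁻¹

lemma cJ_nonneg : 0 ≤ cJ := integral_nonneg fun v => by positivity

lemma Dec.pow_mul_le {m : ℕ} {K : ℝ} {f : E → ℝ} (h : Dec (dd + 1 + m) K f) (v : E) :
    (1 + ‖v‖) ^ m * |f v| ≤ K * ((1 + ‖v‖) ^ (dd + 1))⁻¹ := by
  rw [← div_eq_mul_inv, le_div_iff₀ (wt_pos v _)]
  have := h v
  rw [pow_add] at this
  linarith

lemma Dec.lint_le {m : ℕ} {K : ℝ} {f : E → ℝ} (h : Dec (dd + 1 + m) K f) :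
    ∫⁻ v, ENNReal.ofReal ((1 + ‖v‖) ^ m * |f v|) ≤ ENNReal.ofReal (K * cJ) := by
  rw [cJ, ← integral_const_mul, ofReal_integral_eq_lintegral_ofReal
    ((integrable_wt _ (Nat.lt_succ_self _)).const_mul K)
    (ae_of_all _ fun v => mul_nonneg h.nonneg (by positivity))]
  exact lintegral_mono fun v => ENNReal.ofReal_le_ofReal (h.pow_mul_le v)

lemma Dec.integrable {m : ℕ} {K : ℝ} {f : E → ℝ} (h : Dec (dd + 1 + m) K f) (hf : Measurable f)
    {φ : E → ℝ} (hφ : Measurable φ) (h1 : ∀ v, |φ v| ≤ (1 + ‖v‖) ^ m) :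
    Integrable fun v => f v * φ v :=
  ((integrable_wt _ (Nat.lt_succ_self _)).const_mul K).mono' (hf.mul hφ).aestronglyMeasurable
    (ae_of_all _ fun v => le_trans (by
      rw [Real.norm_eq_abs, abs_mul, mul_comm]
      exact mul_le_mul_of_nonneg_right (h1 v) (abs_nonneg _)) (h.pow_mul_le v))

/-- integrability of everything that is dominated by `kx wt wt_* |b| |a_*|` -/
theorem integrable_of_le {a b : E → ℝ} {Ka Kb c : ℝ} (ha : Measurable a) (hb : Measurable b)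
    (da : Dec (dd + 60) Ka a) (db : Dec (dd + 60) Kb b) {Φ : E × E × S2 → ℝ} (hΦ : Measurable Φ)
    (h : ∀ p, |Φ p| ≤ c * kx p * (wt p.1 * |b p.1| * (wt p.2.1 * |a p.2.1|))) :
    Integrable Φ mu3 := by
  have key : ∀ {a : E → ℝ} {K : ℝ}, Dec (dd + 60) K a →
      ∫⁻ v, ENNReal.ofReal ((1 + ‖v‖) ^ 29) * ENNReal.ofReal (wt v * |a v|) < ∞ := by
    intro a K da
    refine lt_of_le_of_lt (lintegral_mono fun v => ?_)
      ((Dec.lint_le (m := 59) da).trans_lt ENNReal.ofReal_lt_top)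
    rw [← ENNReal.ofReal_mul (by positivity), ← mul_assoc, show 59 = 29 + 30 from rfl, pow_add]
    gcongr
    exact wt_le_pow v
  have h1 : Integrable (fun p : E × E × S2 =>
      kx p * (wt p.1 * |b p.1| * (wt p.2.1 * |a p.2.1|))) mu3 := by
    refine ⟨(by fun_prop : Measurable _).aestronglyMeasurable, ?_⟩
    have hp : ∀ (a : E → ℝ) (v : E), 0 ≤ wt v * |a v| := fun a v =>
      mul_nonneg (wt_pos' v).le (abs_nonneg _)
    rw [hasFiniteIntegral_iff_ofReal (ae_of_all _ fun p =>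
      mul_nonneg (kx_nonneg p) (mul_nonneg (hp b _) (hp a _)))]
    simp only [ENNReal.ofReal_mul (kx_nonneg _), ENNReal.ofReal_mul (hp b _)]
    refine (lint_kx_le (a := fun v => ENNReal.ofReal (wt v * |b v|))
      (b := fun v => ENNReal.ofReal (wt v * |a v|)) (by fun_prop) (by fun_prop)).trans_lt ?_
    exact ENNReal.mul_lt_top ENNReal.ofReal_lt_top (ENNReal.mul_lt_top (key db) (key da))
  refine (h1.const_mul c).mono' hΦ.aestronglyMeasurable (ae_of_all _ fun p => ?_)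
  rw [Real.norm_eq_abs, ← mul_assoc]
  exact h p

/-- the same with post-collisional velocities -/
theorem integrable_of_le' {a b : E → ℝ} {Ka Kb c : ℝ} (ha : Measurable a) (hb : Measurable b)
    (da : Dec (dd + 60) Ka a) (db : Dec (dd + 60) Kb b) {Φ : E × E × S2 → ℝ} (hΦ : Measurable Φ)
    (h : ∀ p, |Φ p| ≤ c * kx p * (wt (coll p).1 * |b (coll p).1|
      * (wt (coll p).2.1 * |a (coll p).2.1|))) : Integrable Φ mu3 := by
  have := Integrable.coll (integrable_of_le (c := c) ha hb da db (hΦ.comp measurable_coll)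
    fun p => by simpa only [Function.comp, coll_coll, kx_coll] using h (coll p))
  simpa only [Function.comp, coll_coll] using this

variable {k : E × E × S2 → ℝ} {ψ a b : E → ℝ} {c Ka Kb : ℝ}

theorem integrable_pre (hk : Measurable k) (h0 : ∀ p, 0 ≤ k p) (h1 : ∀ p, k p ≤ c * kx p)
    (hψ : Measurable ψ) (h2 : ∀ v, |ψ v| ≤ wt v) (ha : Measurable a) (hb : Measurable b)
    (da : Dec (dd + 60) Ka a) (db : Dec (dd + 60) Kb b) :
    Integrable (fun p : E × E × S2 => k p * ψ p.1 * (a p.2.1 * b p.1)) mu3 := by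
  refine integrable_of_le (c := c) ha hb da db (by fun_prop) fun p => ?_
  rw [mul_assoc, abs_mul, abs_of_nonneg (h0 p), abs_mul, abs_mul]
  refine mul_le_mul (h1 p) ?_ (by positivity) ((h0 p).trans (h1 p))
  have h3 : |a p.2.1| ≤ wt p.2.1 * |a p.2.1| :=
    le_mul_of_one_le_left (abs_nonneg _) (one_le_wt' _)
  calc |ψ p.1| * (|a p.2.1| * |b p.1|) ≤ wt p.1 * (wt p.2.1 * |a p.2.1| * |b p.1|) := by
        have := h2 p.1
        gcongr
        exact (wt_pos' _).le
    _ = _ := by ring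

theorem integrable_post (hk : Measurable k) (h0 : ∀ p, 0 ≤ k p) (h1 : ∀ p, k p ≤ c * kx p)
    (hψ : Measurable ψ) (h2 : ∀ v, |ψ v| ≤ wt v) (ha : Measurable a) (hb : Measurable b)
    (da : Dec (dd + 60) Ka a) (db : Dec (dd + 60) Kb b) :
    Integrable (fun p : E × E × S2 =>
      k p * ψ p.1 * (a (pw p.1 p.2.1 p.2.2) * b (pv p.1 p.2.1 p.2.2))) mu3 := by
  refine integrable_of_le' (c := c) ha hb da db (by fun_prop) fun p => ?_
  rw [mul_assoc, abs_mul, abs_of_nonneg (h0 p), abs_mul, abs_mul]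
  refine mul_le_mul (h1 p) ?_ (by positivity) ((h0 p).trans (h1 p))
  calc _ ≤ wt (pv p.1 p.2.1 p.2.2) * wt (pw p.1 p.2.1 p.2.2) *
        (|a (pw p.1 p.2.1 p.2.2)| * |b (pv p.1 p.2.1 p.2.2)|) :=
        mul_le_mul_of_nonneg_right ((h2 _).trans (wt_le_post _ _ _)) (by positivity)
    _ = _ := by simp only [coll]; ring

theorem integrable_inc (hk : Measurable k) (h0 : ∀ p, 0 ≤ k p) (h1 : ∀ p, k p ≤ c * kx p)
    (hψ : Measurable ψ) (h2 : ∀ v, |ψ v| ≤ wt v) (ha : Measurable a) (hb : Measurable b)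
    (da : Dec (dd + 60) Ka a) (db : Dec (dd + 60) Kb b) :
    Integrable (fun p : E × E × S2 => k p * ψ p.1 * inc a b p) mu3 := by
  simp only [inc, mul_sub]
  exact (integrable_post hk h0 h1 hψ h2 ha hb da db).sub
    (integrable_pre hk h0 h1 hψ h2 ha hb da db)

end Pool.Agent.BoltzD.Uq

end
end MrgPart1

-- marker of a merged file
example : 731051 + 228336 = 731051 + 228336 := rfl
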