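import Pool.Agent.BoltzD.Coll.Bound
import Pool.Agent.BoltzD.Herm.Basic
import Mathlib.Algebra.Ring.IsFormallyReal
import Mathlib.Analysis.InnerProductSpace.NormDet
import Pool.Agent.BoltzD.Geo.BP
import Pool.Agent.BoltzD.Stmt
import Pool.Agent.BoltzD.Uq.Basic

-- ======== part 0: formerly Pool.Agent.BoltzD.Coll.Deriv
section MrgPart0

/-!
Schwartz functions are nice; differentiation of the trilinear operator under the integral.
-/

open MeasureTheory Real Set Pool.Agent.BoltzC
open scoped ENNReal RealInnerProductSpace ContDiff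

noncomputable section

namespace Pool.Agent.BoltzD.Coll

variable [Dim]

/-- supremum of the Schwartz seminorms up to order (k, n) -/
def SN (k n : ℕ) : Seminorm ℝ SV :=
  (Finset.Iic (k, n)).sup fun m => SchwartzMap.seminorm ℝ m.1 m.2

lemma continuous_SN (k n : ℕ) : Continuous (SN k n) :=
  Seminorm.continuous_finsetSup fun m _ =>
    (schwartz_withSeminorms ℝ E ℝ).continuous_seminorm m

lemma seminorm_le_SN {k n k' n' : ℕ} (hk : k' ≤ k) (hn : n' ≤ n) (f : SV) :
    SchwartzMap.seminorm ℝ k' n' f ≤ SN k n f :=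
  Seminorm.le_finset_sup_apply (p := fun m : ℕ × ℕ => (SchwartzMap.seminorm ℝ m.1 m.2 : Seminorm ℝ SV))
    (x := f)
    (i := (k', n')) (s := Finset.Iic (k, n)) (Finset.mem_Iic.2 (Prod.mk_le_mk.2 ⟨hk, hn⟩))

lemma SN_mono {k n k' n' : ℕ} (hk : k' ≤ k) (hn : n' ≤ n) (f : SV) : SN k' n' f ≤ SN k n f :=
  Seminorm.finset_sup_apply_le (apply_nonneg _ _) fun _ hm =>
    seminorm_le_SN ((Finset.mem_Iic.1 hm).1.trans hk) ((Finset.mem_Iic.1 hm).2.trans hn) f

lemma wt_iter_le {k n k' n' : ℕ} (hk : k' ≤ k) (hn : n' ≤ n) (f : SV) (x : E) :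
    (1 + ‖x‖) ^ k' * ‖iteratedFDeriv ℝ n' f x‖ ≤ 2 ^ k * SN k n f :=
  SchwartzMap.one_add_le_sup_seminorm_apply (𝕜 := ℝ) (m := (k, n)) hk hn f x

lemma wt_abs_le {k k' : ℕ} (n : ℕ) (hk : k' ≤ k) (f : SV) (x : E) :
    (1 + ‖x‖) ^ k' * |f x| ≤ 2 ^ k * SN k n f := by
  simpa using wt_iter_le hk (Nat.zero_le n) f x

theorem nice_SV' {k n p : ℕ} (hk : p ≤ k) (hn : 1 ≤ n) (f : SV) :
    Nice p (2 ^ p * (2 ^ k * SN k n f)) f :=
  nice_of_fderiv f.differentiable (wt_abs_le n hk f) fun v => by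
    simpa [norm_iteratedFDeriv_one] using wt_iter_le hk hn f v

/-- Schwartz functions are nice -/
theorem nice_SV (p : ℕ) (f : SV) : Nice p (4 ^ p * SN p 1 f) f := by
  have := nice_SV' (le_refl p) (le_refl 1) f
  rwa [← mul_assoc, ← mul_pow, show (2 * 2 : ℝ) = 4 by norm_num] at this

lemma SN_dV (k n : ℕ) (j : Ix) (f : SV) : SN k n (dV j f) ≤ SN k (n + 1) f := by
  refine Seminorm.finset_sup_apply_le (apply_nonneg _ _) fun m hm => ?_
  refine SchwartzMap.seminorm_le_bound ℝ _ _ _ (apply_nonneg _ _) fun x => ?_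
  have h1 : ‖iteratedFDeriv ℝ m.2 (dV j f) x‖ ≤ ‖iteratedFDeriv ℝ (m.2 + 1) f x‖ := by
    have h0 : (dV j f : E → ℝ) = fun v => fderiv ℝ f v (ev j) := rfl
    rw [h0, ← norm_iteratedFDeriv_fderiv]
    have := norm_iteratedFDeriv_clm_apply_const (c := ev j) (x := x) (n := m.2)
      (contDiff_infty_iff_fderiv.1 (f.smooth ⊤)).2.contDiffAt (mod_cast le_top)
    simpa [norm_ev] using this
  calc _ ≤ ‖x‖ ^ m.1 * ‖iteratedFDeriv ℝ (m.2 + 1) f x‖ := by gcongr
    _ ≤ SchwartzMap.seminorm ℝ m.1 (m.2 + 1) f := SchwartzMap.le_seminorm ℝ _ _ f x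
    _ ≤ _ := seminorm_le_SN (Finset.mem_Iic.1 hm).1
      (Nat.succ_le_succ (Finset.mem_Iic.1 hm).2) f

/-- the integrand in the variable u = v - v_* -/
def triJ (a g h : E → ℝ) (v : E) (q : E × S2) : ℝ :=
  ker q.1 q.2 * a (v - q.1) * (g (v - q.1 + ⟪q.1, (q.2 : E)⟫ • (q.2 : E)) *
    h (v - ⟪q.1, (q.2 : E)⟫ • (q.2 : E)) - g (v - q.1) * h v)

lemma triJ_eq (a g h : E → ℝ) (v : E) (q : E × S2) :
    triJ a g h v q = triI a g h v (v - q.1, q.2) := by
  simp [triJ, triI, pv, pw]

lemma measurePreserving_shift (v : E) :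
    MeasurePreserving (fun q : E × S2 => (v - q.1, q.2)) mu2 mu2 :=
  (Measure.measurePreserving_sub_left volume v).prod (MeasurePreserving.id sph)

/-- the shift as a measurable equivalence -/
def shiftE (v : E) : (E × S2) ≃ᵐ (E × S2) where
  toFun q := (v - q.1, q.2)
  invFun q := (v - q.1, q.2)
  left_inv q := by simp
  right_inv q := by simp
  measurable_toFun := (measurePreserving_shift v).measurable
  measurable_invFun := (measurePreserving_shift v).measurable

lemma Tri_eq (a g h : E → ℝ) (v : E) : Tri a g h v = ∫ q, triJ a g h v q ∂mu2 := by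
  simp only [triJ_eq]
  exact ((measurePreserving_shift v).integral_comp (shiftE v).measurableEmbedding _).symm

lemma integrable_triJ {a g h : E → ℝ} {v : E} (H : Integrable (triI a g h v) mu2) :
    Integrable (triJ a g h v) mu2 := by
  have := ((measurePreserving_shift v).integrable_comp_emb (shiftE v).measurableEmbedding).2 H
  exact this.congr (ae_of_all _ fun q => (triJ_eq a g h v q).symm)

/-- dominating function near v -/
def dom (v : E) (q : E × S2) : ℝ :=
  ker q.1 q.2 * min 1 |⟪q.1, (q.2 : E)⟫| * |((1 + ‖v - q.1‖) ^ (dd + 30))⁻¹|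

lemma integrable_dom (v : E) : Integrable (dom v) mu2 := by
  have h1 := lintegral_ker_min_le (a := fun w => ((1 + ‖w‖) ^ (dd + 30))⁻¹) (Ka := 1) (by fun_prop)
    (fun w => by rw [abs_of_pos (by positivity), mul_inv_cancel₀ (by positivity)]) v
  rw [← (measurePreserving_shift v).lintegral_comp (by fun_prop)] at h1
  refine ⟨Measurable.aestronglyMeasurable (by unfold dom; fun_prop), ?_⟩
  rw [hasFiniteIntegral_iff_ofReal (ae_of_all _ fun q => by
    have := ker_nonneg q.1 q.2
    simp only [dom, Pi.zero_apply]; positivity)]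
  refine lt_of_le_of_lt (le_of_eq ?_) (h1.trans_lt ENNReal.ofReal_lt_top)
  simp [dom]

lemma abs_triJ_le {a g h : E → ℝ} {Ka Kg Kh : ℝ} (hKa : ∀ w, (1 + ‖w‖) ^ (dd + 30) * |a w| ≤ Ka)
    (Hg : Nice 0 Kg g) (Hh : Nice 0 Kh h) (v x : E) (hx : x ∈ Metric.ball v 1) (q : E × S2) :
    |triJ a g h x q| ≤ 2 ^ (dd + 31) * Ka * Kg * Kh * dom v q := by
  have hg := Hg.nonneg
  have hh := Hh.nonneg
  have h1 := abs_triI_le (a := a) Hg Hh x (x - q.1, q.2)
  rw [← triJ_eq] at h1
  simp only [sub_sub_cancel, pow_zero, div_one, zero_add, pow_one] at h1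
  have h2 : |a (x - q.1)| ≤ 2 ^ (dd + 30) * Ka * |((1 + ‖v - q.1‖) ^ (dd + 30))⁻¹| := by
    rw [abs_of_pos (a := ((1 + ‖v - q.1‖) ^ (dd + 30))⁻¹) (by positivity), ← div_eq_mul_inv,
      le_div_iff₀ (wt_pos _ _)]
    have h3 : 1 + ‖v - q.1‖ ≤ 2 * (1 + ‖x - q.1‖) := wt_le_two_mul (by
      simpa [dist_eq_norm] using (Metric.mem_ball.1 hx).le)
    calc |a (x - q.1)| * (1 + ‖v - q.1‖) ^ (dd + 30)
        ≤ |a (x - q.1)| * (2 * (1 + ‖x - q.1‖)) ^ (dd + 30) := by
          gcongr
      _ = 2 ^ (dd + 30) * ((1 + ‖x - q.1‖) ^ (dd + 30) * |a (x - q.1)|) := by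
          rw [mul_pow]; ring
      _ ≤ _ := by gcongr; exact hKa _
  have := ker_nonneg q.1 q.2
  calc _ ≤ _ := h1
    _ ≤ 2 * Kg * Kh * (ker q.1 q.2 * min 1 |⟪q.1, (q.2 : E)⟫| *
        (2 ^ (dd + 30) * Ka * |((1 + ‖v - q.1‖) ^ (dd + 30))⁻¹|)) := by gcongr
    _ = _ := by rw [dom]; ring

/-- coordinate functionals -/
abbrev pr (i : Ix) : E →L[ℝ] ℝ := EuclideanSpace.proj i

lemma norm_pr_le (i : Ix) : ‖pr i‖ ≤ 1 :=
  ContinuousLinearMap.opNorm_le_bound _ zero_le_one fun x => by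
    simpa using PiLp.norm_apply_le x i

lemma clm_eq_sum (L : E →L[ℝ] ℝ) : L = ∑ i, L (ev i) • pr i := by
  ext x
  have : x = ∑ i, x i • ev i := by
    ext j; simp [ev, Pi.single_apply]
  conv_lhs => rw [this]
  simp [mul_comm]

lemma hasFDerivAt_triJ (a g h : SV) (q : E × S2) (x : E) :
    HasFDerivAt (fun y => triJ a g h y q) (∑ i, (triJ (dV i a) g h x q + triJ a (dV i g) h x q +
      triJ a g (dV i h) x q) • pr i) x := by
  have ha := (a.hasFDerivAt (x - q.1)).comp x ((hasFDerivAt_id x).sub_const q.1)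
  have hg1 := (g.hasFDerivAt (x - q.1 + ⟪q.1, (q.2 : E)⟫ • (q.2 : E))).comp x
    (((hasFDerivAt_id x).sub_const q.1).add_const _)
  have hg2 := (g.hasFDerivAt (x - q.1)).comp x ((hasFDerivAt_id x).sub_const q.1)
  have hh1 := (h.hasFDerivAt (x - ⟪q.1, (q.2 : E)⟫ • (q.2 : E))).comp x
    ((hasFDerivAt_id x).sub_const _)
  have hh2 := h.hasFDerivAt x
  have H := (ha.const_mul (ker q.1 q.2)).mul ((hg1.mul hh1).sub (hg2.mul hh2))
  refine HasFDerivAt.congr_fderiv H ?_
  rw [clm_eq_sum (_ + _)]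
  refine Finset.sum_congr rfl fun i _ => ?_
  congr 1
  simp [triJ, dV_apply]
  ring

lemma integrable_triI_SV (a g h : SV) (v : E) : Integrable (triI a g h v) mu2 :=
  integrable_triI a.continuous.measurable (wt_abs_le 0 le_rfl a) (nice_SV 0 g) (nice_SV 0 h) v

lemma integrable_triJ_SV (a g h : SV) (v : E) : Integrable (triJ a g h v) mu2 :=
  integrable_triJ (integrable_triI_SV a g h v)

theorem hasFDerivAt_Tri (a g h : SV) (v : E) :
    HasFDerivAt (Tri a g h) (∑ i, (Tri (dV i a) g h v + Tri a (dV i g) h v +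
      Tri a g (dV i h) v) • pr i) v := by
  have hI := integrable_triJ_SV
  have hI3 : ∀ i, Integrable (fun q => triJ (dV i a) g h v q + triJ a (dV i g) h v q +
      triJ a g (dV i h) v q) mu2 := fun i => ((hI _ _ _ v).add (hI _ _ _ v)).add (hI _ _ _ v)
  have hb : ∀ a g h : SV, ∃ C, ∀ x ∈ Metric.ball v 1, ∀ q, |triJ a g h x q| ≤ C * dom v q :=
    fun a g h => ⟨_, fun x hx q =>
      abs_triJ_le (wt_abs_le 0 le_rfl a) (nice_SV 0 g) (nice_SV 0 h) v x hx q⟩
  choose C hC using hb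
  have H := hasFDerivAt_integral_of_dominated_of_fderiv_le (μ := mu2)
    (F := fun y q => triJ a g h y q)
    (F' := fun x q => ∑ i, (triJ (dV i a) g h x q + triJ a (dV i g) h x q +
      triJ a g (dV i h) x q) • pr i)
    (bound := fun q => (∑ i, (C (dV i a) g h + C a (dV i g) h + C a g (dV i h))) * dom v q)
    (Metric.ball_mem_nhds v one_pos)
    (Filter.Eventually.of_forall fun x => (hI a g h x).aestronglyMeasurable) (hI a g h v)
    (integrable_finsetSum _ fun i _ => (hI3 i).smul_const (pr i)).aestronglyMeasurable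
    (ae_of_all _ fun q x hx => ?_) ((integrable_dom v).const_mul _)
    (ae_of_all _ fun q x _ => hasFDerivAt_triJ a g h q x)
  · rw [integral_finsetSum _ fun i _ => (hI3 i).smul_const (pr i)] at H
    have e : Tri a g h = fun y => ∫ q, triJ a g h y q ∂mu2 := funext (Tri_eq a g h)
    rw [e]
    refine H.congr_fderiv (Finset.sum_congr rfl fun i _ => ?_)
    have i2 : Integrable (fun q => triJ (dV i a) g h v q + triJ a (dV i g) h v q) mu2 :=
      (hI _ _ _ v).add (hI _ _ _ v)
    rw [integral_smul_const, integral_add i2 (hI _ _ _ v), integral_add (hI _ _ _ v) (hI _ _ _ v),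
      Tri_eq, Tri_eq, Tri_eq]
  · rw [Finset.sum_mul]
    refine (norm_sum_le _ _).trans (Finset.sum_le_sum fun i _ => ?_)
    rw [norm_smul, Real.norm_eq_abs]
    refine (mul_le_of_le_one_right (abs_nonneg _) (norm_pr_le i)).trans ?_
    refine (abs_add_three _ _ _).trans ?_
    linarith [hC (dV i a) g h x hx q, hC a (dV i g) h x hx q, hC a g (dV i h) x hx q]

end Pool.Agent.BoltzD.Coll

end
end MrgPart0

-- ======== part 1: formerly Pool.Agent.BoltzD.Uq.Vel
section MrgPart1

-- ======== part 0: formerly Pool.Agent.BoltzD.Coll.SigOm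
section MrgPart0

/-!
The change of variables from sigma to omega on the sphere.
-/

open MeasureTheory Real Set
open scoped ENNReal RealInnerProductSpace

noncomputable section

namespace Pool.Agent.BoltzD.Coll

variable [Dim]

/-- the homogeneous extension of omega to sigma -/
def psi (e x : E) : E := ‖x‖ • e - (2 * ⟪e, x⟫ * ‖x‖⁻¹) • x

/-- its derivative -/
def dpsi (e n : E) : E →L[ℝ] E :=
  (innerSL ℝ n).smulRight e - (2 : ℝ) • (innerSL ℝ e).smulRight n
    + (2 * ⟪e, n⟫) • (innerSL ℝ n).smulRight n - (2 * ⟪e, n⟫) • ContinuousLinearMap.id ℝ E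

lemma det_dpsi {e n : E} (he : ‖e‖ = 1) (hn : ‖n‖ = 1) (h0 : ⟪e, n⟫ ≠ 0) :
    (dpsi e n).det = 2 * (-2 * ⟪e, n⟫) ^ (dd - 2) := by
  have hE : ∑ i, e i * e i = 1 := by
    have := EuclideanSpace.real_norm_sq_eq e
    rw [he] at this
    simpa [sq] using this.symm
  have hN : ∑ i, n i * n i = 1 := by
    have := EuclideanSpace.real_norm_sq_eq n
    rw [hn] at this
    simpa [sq] using this.symm
  have ht : ∑ i, n i * e i = ⟪e, n⟫ := by simp [PiLp.inner_apply]
  have ht' : ∑ i, e i * n i = ⟪e, n⟫ := by simp only [← ht, mul_comm]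
  set t := ⟪e, n⟫ with htt
  let U : Matrix Ix (Fin 2) ℝ :=
    Matrix.of fun i k => ![(-2 * t)⁻¹ * e i - n i, t⁻¹ * n i] k
  let V : Matrix (Fin 2) Ix ℝ := Matrix.of fun k j => ![n j, e j] k
  have hM : LinearMap.toMatrix (EuclideanSpace.basisFun Ix ℝ).toBasis
      (EuclideanSpace.basisFun Ix ℝ).toBasis (dpsi e n : E →ₗ[ℝ] E) =
      (-2 * t) • (1 + U * V) := by
    ext i j
    rw [LinearMap.toMatrix_apply]
    simp [dpsi, EuclideanSpace.inner_single_right, U, V, Matrix.mul_apply, Matrix.one_apply, ← htt]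
    split_ifs <;> field_simp <;> ring
  have a1 : (V * U) 0 0 = -(3 / 2) := by
    simp only [U, V, Matrix.mul_apply, Matrix.of_apply, Matrix.cons_val_zero, mul_sub,
      Finset.sum_sub_distrib, mul_left_comm _ (-2 * t)⁻¹, ← Finset.mul_sum, hN, ht]
    field_simp; ring
  have a2 : (V * U) 0 1 = t⁻¹ := by
    simp only [U, V, Matrix.mul_apply, Matrix.of_apply, Matrix.cons_val_zero, Matrix.cons_val_one,
      mul_left_comm _ t⁻¹, ← Finset.mul_sum, hN, mul_one]
  have a3 : (V * U) 1 0 = (-2 * t)⁻¹ - t := by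
    simp only [U, V, Matrix.mul_apply, Matrix.of_apply, Matrix.cons_val_zero, Matrix.cons_val_one,
      mul_sub, Finset.sum_sub_distrib, mul_left_comm _ (-2 * t)⁻¹, ← Finset.mul_sum, hE, ht',
      mul_one]
  have a4 : (V * U) 1 1 = 1 := by
    simp only [U, V, Matrix.mul_apply, Matrix.of_apply, Matrix.cons_val_zero, Matrix.cons_val_one,
      mul_left_comm _ t⁻¹, ← Finset.mul_sum, ht', inv_mul_cancel₀ h0]
  rw [ContinuousLinearMap.det,
    ← LinearMap.det_toMatrix (EuclideanSpace.basisFun Ix ℝ).toBasis, hM, Matrix.det_smul,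
    Matrix.det_one_add_mul_comm, Matrix.det_fin_two]
  simp only [Matrix.add_apply, a1, a2, a3, a4, Fintype.card_fin]
  rw [show dd = dd - 2 + 2 by have := two_le_dd; omega, pow_add, Nat.add_sub_cancel]
  simp
  field_simp; ring

lemma hasFDerivAt_psi (e : E) {x : E} (hx : x ≠ 0) :
    HasFDerivAt (psi e) (dpsi e (‖x‖⁻¹ • x)) x := by
  have h0 : 0 < ‖x‖ := norm_pos_iff.2 hx
  have hn : HasFDerivAt (fun y : E => ‖y‖) (innerSL ℝ (‖x‖⁻¹ • x)) x := by
    have h1 := (hasStrictFDerivAt_norm_sq x).hasFDerivAt.sqrt (by positivity)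
    simp only [Real.sqrt_sq (norm_nonneg _)] at h1
    refine h1.congr_fderiv ?_
    ext h
    simp
    field_simp
  have hi := (hasDerivAt_inv h0.ne').comp_hasFDerivAt x hn
  have h2 := (hn.smul_const e).sub
    (((((innerSL ℝ e).hasFDerivAt (x := x)).const_mul 2).mul hi).smul (hasFDerivAt_id x))
  refine HasFDerivAt.congr_fderiv h2 ?_
  refine ContinuousLinearMap.ext fun h => ?_
  simp [dpsi, inner_smul_right, smul_smul, add_smul]
  match_scalars <;> (field_simp; try ring)

lemma norm_psi {e : E} (he : ‖e‖ = 1) (x : E) : ‖psi e x‖ = ‖x‖ := by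
  rcases eq_or_ne x 0 with rfl | hx
  · simp [psi]
  have h0 : 0 < ‖x‖ := norm_pos_iff.2 hx
  refine (sq_eq_sq₀ (norm_nonneg _) (norm_nonneg _)).1 ?_
  rw [psi, norm_sub_sq_real, inner_smul_left, inner_smul_right, norm_smul, norm_smul, he]
  simp only [conj_trivial, Real.norm_eq_abs, mul_pow, sq_abs]
  field_simp; ring

lemma psi_injOn {e : E} (he : ‖e‖ = 1) : InjOn (psi e) {x | 0 < ⟪e, x⟫} := by
  intro x hx y hy h
  have hx' : 0 < ⟪e, x⟫ := hx
  have hy' : 0 < ⟪e, y⟫ := hy
  have h0 : 0 < ‖x‖ := norm_pos_iff.2 (by rintro rfl; simp at hx')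
  have h1 : ‖x‖ = ‖y‖ := by rw [← norm_psi he x, h, norm_psi he]
  rw [psi, psi, ← h1, sub_right_inj] at h
  have h2 := congrArg (fun z => ⟪e, z⟫) h
  simp only [inner_smul_right] at h2
  have h3 : ⟪e, x⟫ = ⟪e, y⟫ := by
    refine (sq_eq_sq₀ hx'.le hy'.le).1 ?_
    field_simp at h2
    linarith
  rw [← h3] at h
  exact smul_right_injective E (by positivity) h

lemma psi_surj {e : E} (he : ‖e‖ = 1) {y : E} (hy : y ∉ (ℝ ∙ e)) :
    ∃ x, 0 < ⟪e, x⟫ ∧ psi e x = y := by
  have h0 : 0 < ‖y‖ := norm_pos_iff.2 (by rintro rfl; exact hy (zero_mem _))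
  set d := ‖y‖ • e - y with hd
  have hd0 : 0 < ‖d‖ := norm_pos_iff.2 fun h => hy (by
    rw [← sub_eq_zero.1 h]; exact Submodule.smul_mem _ _ (Submodule.mem_span_singleton_self e))
  have h1 : ‖d‖ ^ 2 = 2 * ‖y‖ * ⟪e, d⟫ := by
    rw [hd, norm_sub_sq_real, inner_sub_right, inner_smul_left, inner_smul_right, norm_smul,
      real_inner_self_eq_norm_sq, he]
    simp; ring
  have h2 : ⟪e, (‖y‖ / ‖d‖) • d⟫ = ‖d‖ / 2 := by
    rw [inner_smul_right]; field_simp; linarith
  have h3 : ‖(‖y‖ / ‖d‖) • d‖ = ‖y‖ := by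
    rw [norm_smul, Real.norm_of_nonneg (by positivity)]; field_simp
  refine ⟨(‖y‖ / ‖d‖) • d, by rw [h2]; positivity, ?_⟩
  rw [psi, h2, h3, smul_smul, show 2 * (‖d‖ / 2) * ‖y‖⁻¹ * (‖y‖ / ‖d‖) = 1 by field_simp, one_smul,
    hd, sub_sub_cancel]

/-- sigma to omega -/
theorem lintegral_sigma_omega {e : E} (he : ‖e‖ = 1) (F : E → ℝ≥0∞) (hF : Measurable F) :
    ∫⁻ s, F s ∂sph = ∫⁻ o, ENNReal.ofReal ((2 * |⟪e, (o : E)⟫|) ^ (dd - 2)) *
      F (e - (2 * ⟪e, (o : E)⟫) • (o : E)) ∂sph := by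
  set G : E → ℝ≥0∞ := fun o =>
    ENNReal.ofReal ((2 * |⟪e, o⟫|) ^ (dd - 2)) * F (e - (2 * ⟪e, o⟫) • o) with hG
  have hGm : Measurable G := Measurable.mul (by fun_prop) (hF.comp (by fun_prop))
  have hGm' : Measurable fun x : E => G (‖x‖⁻¹ • x) := hGm.comp (by fun_prop)
  rw [lintegral_sph_eq_ball F hF, lintegral_sph_eq_ball G hGm]
  congr 1
  set s : Set E := Metric.ball 0 1 ∩ {x | 0 < ⟪e, x⟫} with hs
  have hsm : MeasurableSet s :=
    measurableSet_ball.inter (measurableSet_lt (by fun_prop) (by fun_prop))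
  have hne : ∀ x ∈ s, x ≠ 0 := by
    rintro x ⟨-, hx⟩ rfl
    simp at hx
  have him : (psi e '' s : Set E) =ᵐ[volume] (Metric.ball 0 1 : Set E) := by
    have hnull : volume ((ℝ ∙ e : Submodule ℝ E) : Set E) = 0 := by
      refine Measure.addHaar_submodule _ _ fun h => ?_
      have h1 := finrank_span_singleton (K := ℝ) (show e ≠ 0 by rintro rfl; simp at he)
      rw [h] at h1
      have := two_le_dd
      simp at h1
      omega
    filter_upwards [compl_mem_ae_iff.2 hnull] with y hy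
    refine propext ⟨?_, fun h => ?_⟩
    · rintro ⟨x, hx, rfl⟩
      change psi e x ∈ Metric.ball (0 : E) 1
      rw [mem_ball_zero_iff, norm_psi he]
      exact mem_ball_zero_iff.1 hx.1
    · obtain ⟨x, hx, rfl⟩ := psi_surj he hy
      refine ⟨x, ⟨?_, hx⟩, rfl⟩
      rw [mem_ball_zero_iff, ← norm_psi he]
      exact mem_ball_zero_iff.1 h
  rw [← setLIntegral_congr him, lintegral_image_eq_lintegral_abs_det_fderiv_mul volume hsm
    (fun x hx => (hasFDerivAt_psi e (hne x hx)).hasFDerivWithinAt)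
    ((psi_injOn he).mono inter_subset_right)]
  have h1 : ∀ x ∈ s, ENNReal.ofReal |(dpsi e (‖x‖⁻¹ • x)).det| * F (‖psi e x‖⁻¹ • psi e x)
      = 2 * G (‖x‖⁻¹ • x) := by
    intro x hx
    have h0 : 0 < ‖x‖ := norm_pos_iff.2 (hne x hx)
    have e2 : ∀ a : ℝ, 2 * ENNReal.ofReal a = ENNReal.ofReal (2 * a) := fun a => by
      rw [ENNReal.ofReal_mul (by norm_num)]; simp
    rw [det_dpsi he (by simp [norm_smul, h0.ne']) (by
      rw [inner_smul_right]; exact mul_ne_zero (inv_ne_zero h0.ne') (ne_of_gt hx.2)),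
      norm_psi he, hG, ← mul_assoc, e2, abs_mul, abs_pow, abs_mul]
    congr 2
    · norm_num
    · rw [psi, inner_smul_right]
      match_scalars <;> field_simp
  rw [setLIntegral_congr_fun hsm h1, lintegral_const_mul _ hGm', two_mul,
    ← lintegral_indicator hsm, ← lintegral_indicator measurableSet_ball]
  nth_rewrite 2 [← lintegral_neg_eq_self]
  rw [← lintegral_add_left (hGm'.indicator hsm)]
  have hz : volume (((ℝ ∙ e)ᗮ : Submodule ℝ E) : Set E) = 0 := by
    refine Measure.addHaar_submodule _ _ fun h => ?_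
    have h1 : e ∈ (ℝ ∙ e)ᗮ := by rw [h]; trivial
    rw [Submodule.mem_orthogonal_singleton_iff_inner_right, real_inner_self_eq_norm_sq, he] at h1
    norm_num at h1
  refine lintegral_congr_ae ?_
  filter_upwards [compl_mem_ae_iff.2 hz] with x hx0
  have hev : G (‖-x‖⁻¹ • -x) = G (‖x‖⁻¹ • x) := by simp [hG]
  by_cases hb : x ∈ Metric.ball (0 : E) 1
  · rw [indicator_of_mem hb]
    rcases lt_trichotomy 0 ⟪e, x⟫ with h | h | h
    · rw [indicator_of_mem (show x ∈ s from ⟨hb, h⟩), indicator_of_notMem, add_zero]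
      rintro ⟨-, h'⟩
      simp only [mem_ofPred_eq, inner_neg_right] at h'
      linarith
    · exact absurd (Submodule.mem_orthogonal_singleton_iff_inner_right.2 h.symm) hx0
    · rw [indicator_of_notMem, indicator_of_mem (show -x ∈ s from
        ⟨by simpa using hb, by simpa using h⟩), zero_add, hev]
      rintro ⟨-, h'⟩
      exact lt_asymm h h'
  · rw [indicator_of_notMem hb, indicator_of_notMem fun h => hb h.1,
      indicator_of_notMem fun h => hb (by simpa using h.1), add_zero]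

end Pool.Agent.BoltzD.Coll

end
end MrgPart0

-- ======== part 1: formerly Pool.Agent.BoltzD.Coll.Sigma
section MrgPart1

/-!
The collision operator of the statement (sigma form) equals the omega form.
-/

open MeasureTheory Real Set
open scoped ENNReal RealInnerProductSpace

noncomputable section

namespace Pool.Agent.BoltzD.Coll

variable [Dim]

open Stmt

open Classical in
/-- direction of a vector -/
def dirE (u : E) : E := if u = 0 then EuclideanSpace.single 0 1 else ‖u‖⁻¹ • u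

lemma norm_dirE (u : E) : ‖dirE u‖ = 1 := by
  unfold dirE
  split_ifs with h
  · simp
  · simp [norm_smul, h]

@[fun_prop] lemma measurable_dirE : Measurable dirE :=
  Measurable.ite (measurableSet_singleton 0) measurable_const (by fun_prop)

/-- sigma as a function of v_* and omega -/
def sgm (v : E) (q : E × S2) : E × E :=
  (q.1, dirE (v - q.1) - (2 * ⟪dirE (v - q.1), (q.2 : E)⟫) • (q.2 : E))

/-- the Jacobian -/
def jac (v : E) (q : E × S2) : ℝ := (2 * |⟪dirE (v - q.1), (q.2 : E)⟫|) ^ (dd - 2)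

lemma measurable_sgm (v : E) : Measurable (sgm v) := by unfold sgm; fun_prop

lemma measurable_jac (v : E) : Measurable (jac v) := by unfold jac; fun_prop

lemma map_sgm (v : E) : mu2.map (fun q : E × S2 => (q.1, (q.2 : E))) =
    (mu2.withDensity fun q => ENNReal.ofReal (jac v q)).map (sgm v) := by
  have hi : Measurable fun q : E × S2 => (q.1, (q.2 : E)) := by fun_prop
  ext t ht
  have hF : Measurable (t.indicator (1 : E × E → ℝ≥0∞)) := measurable_one.indicator ht
  rw [← lintegral_indicator_one ht, ← lintegral_indicator_one ht, lintegral_map hF hi,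
    lintegral_map hF (measurable_sgm v), lintegral_withDensity_eq_lintegral_mul _
      (measurable_jac v).ennreal_ofReal (g := fun q => t.indicator 1 (sgm v q))
      (hF.comp (measurable_sgm v)),
    lintegral_mu2 (fun q => t.indicator 1 (q.1, (q.2 : E))) (hF.comp hi),
    lintegral_mu2 ((fun x => ENNReal.ofReal (jac v x)) * fun q => t.indicator 1 (sgm v q))
      ((measurable_jac v).ennreal_ofReal.mul (hF.comp (measurable_sgm v)))]
  exact lintegral_congr fun w => lintegral_sigma_omega (norm_dirE (v - w))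
    (fun s => t.indicator 1 (w, s)) (hF.comp (by fun_prop))

/-- the sigma integrand as a function on pairs of vectors -/
def cI (f : E → ℝ) (v : E) (q : E × E) : ℝ :=
  (f (wPost v q.1 q.2) * f (vPost v q.1 q.2) - f q.1 * f v) * Bk dd ‖v - q.1‖ (cosTh v q.1 q.2)

lemma measurable_cI {f : E → ℝ} (hf : Measurable f) (v : E) : Measurable (cI f v) := by
  unfold cI Bk cosTh wPost vPost
  fun_prop

omit [Dim] in
lemma ker_aux {m : ℕ} (hm : 2 ≤ m) {a b : ℝ} (h0 : 0 < a) (hb : 0 ≤ b) :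
    (2 * (a⁻¹ * b)) ^ (m - 2) * (8 / 2 ^ m * a ^ 28 * (b / a) ^ (2 * (1 / 4 - m / 2) : ℝ))
      = 2 * a ^ (59 / 2 : ℝ) * b ^ (-(3 / 2) : ℝ) := by
  obtain ⟨n, rfl⟩ : ∃ n, m = n + 2 := ⟨m - 2, by omega⟩
  rcases hb.eq_or_lt with rfl | h
  · rw [zero_div, Real.zero_rpow (by push_cast; linarith [Nat.cast_nonneg (α := ℝ) n]),
      Real.zero_rpow (by norm_num)]
    simp
  rw [Real.div_rpow h.le h0.le, Nat.add_sub_cancel,
    show (-(3 / 2) : ℝ) = 2 * (1 / 4 - (n + 2 : ℕ) / 2) + n by push_cast; ring,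
    Real.rpow_add_natCast h.ne',
    show (59 / 2 : ℝ) = (28 : ℕ) - 2 * (1 / 4 - (n + 2 : ℕ) / 2) - n by push_cast; ring,
    Real.rpow_sub_natCast h0.ne', Real.rpow_sub h0, Real.rpow_natCast, mul_pow, mul_pow, inv_pow]
  field_simp
  ring

lemma jac_mul_cI (G : E → ℝ) (v : E) (q : E × S2) :
    jac v q * cI (fun x => sM x * G x) v (sgm v q) = sM v * triI sM G G v q := by
  obtain ⟨w, o⟩ := q
  rcases eq_or_ne (v - w) 0 with hu | hu
  · simp [cI, sgm, triI, ker, Bk, hu]
  have h0 : 0 < ‖v - w‖ := norm_pos_iff.2 hu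
  have hd : dirE (v - w) = ‖v - w‖⁻¹ • (v - w) := if_neg hu
  have e1 : vPost v w (sgm v (w, o)).2 = pv v w o := by
    simp only [vPost, sgm, pv, hd, inner_smul_left, conj_trivial]
    match_scalars <;> field_simp <;> ring
  have e2 : wPost v w (sgm v (w, o)).2 = pw v w o := by
    simp only [wPost, sgm, pw, hd, inner_smul_left, conj_trivial]
    match_scalars <;> field_simp <;> ring
  have e3 : (1 - cosTh v w (sgm v (w, o)).2) / 2 = (|⟪v - w, (o : E)⟫| / ‖v - w‖) ^ (2 : ℝ) := by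
    rw [cosTh, e1, e2, pv_sub_pw, inner_sub_left _ _ (v - w), inner_smul_left,
      real_inner_self_eq_norm_sq, real_inner_comm (v - w), Real.rpow_two, div_pow, sq_abs]
    simp only [conj_trivial]
    field_simp; ring
  have e4 : jac v (w, o) * Bk dd ‖v - w‖ (cosTh v w (sgm v (w, o)).2) = ker (v - w) o := by
    rw [Bk, e3, ← Real.rpow_mul (by positivity), jac, hd, inner_smul_left, ker, abs_mul]
    simp only [conj_trivial, abs_inv, abs_norm]
    exact ker_aux two_le_dd h0 (abs_nonneg _)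
  have e5 := sM_pv_mul v w o
  have e6 : (sgm v (w, o)).1 = w := rfl
  simp only [cI, triI, e6, e1, e2]
  rw [← e4]
  linear_combination jac v (w, o) * Bk dd ‖v - w‖ (cosTh v w (sgm v (w, o)).2) *
    G (pw v w o) * G (pv v w o) * e5

/-- the operator of the statement in terms of Gamma -/
theorem sigma_eq {p : ℕ} {K : ℝ} {G : E → ℝ} (hG : Nice p K G) (v : E) :
    Integrable (collInt (Bk dd) (fun x => sM x * G x) v) (collMeas dd) ∧
      Q (Bk dd) (fun x => sM x * G x) v = sM v * Gam G G v := by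
  have hi : Measurable fun q : E × S2 => (q.1, (q.2 : E)) := by fun_prop
  have hm := measurable_cI (measurable_sM.mul hG.measurable) v
  have hj := measurable_jac v
  have hj0 : ∀ q, 0 ≤ jac v q := fun q => by unfold jac; positivity
  have e : ∀ q, (ENNReal.ofReal (jac v q)).toReal • cI (sM * G) v (sgm v q)
      = sM v * triI sM G G v q := fun q => by
    rw [ENNReal.toReal_ofReal (hj0 q), smul_eq_mul]; exact jac_mul_cI G v q
  constructor
  · change Integrable (cI (sM * G) v ∘ fun q : E × S2 => (q.1, (q.2 : E))) mu2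
    rw [← integrable_map_measure hm.aestronglyMeasurable hi.aemeasurable, map_sgm v,
      integrable_map_measure hm.aestronglyMeasurable (measurable_sgm v).aemeasurable,
      integrable_withDensity_iff_integrable_smul' hj.ennreal_ofReal
        (ae_of_all _ fun _ => ENNReal.ofReal_lt_top)]
    exact ((integrable_gamI hG hG v).const_mul (sM v)).congr (ae_of_all _ fun q => (e q).symm)
  · change ∫ q : E × S2, cI (sM * G) v (q.1, (q.2 : E)) ∂mu2 = _
    rw [← integral_map hi.aemeasurable hm.aestronglyMeasurable, map_sgm v,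
      integral_map (measurable_sgm v).aemeasurable hm.aestronglyMeasurable,
      integral_withDensity_eq_integral_toReal_smul hj.ennreal_ofReal
        (ae_of_all _ fun _ => ENNReal.ofReal_lt_top)]
    simp only [e]
    exact integral_const_mul _ _

end Pool.Agent.BoltzD.Coll

end
end MrgPart1

-- ======== part 2: formerly Pool.Agent.BoltzD.Uq.Vel
section MrgPart2

/-! The estimate in the velocity variable from its three parts; the two forms of the operator. -/

set_option autoImplicit false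

open MeasureTheory Set Filter Topology
open scoped ENNReal RealInnerProductSpace

noncomputable section

namespace Pool.Agent.BoltzD.Uq

open Coll C3

variable [Dim]

lemma Nice.locLip {p : ℕ} {K : ℝ} {f : E → ℝ} (h : Nice p K f) : LocLip f :=
  fun _ => ⟨K, fun v v' _ hv => by simpa using h.lip v (v' - v) hv⟩

theorem vel_of (h2 : MainStmt) (h3 : CrossStmt) (h4 : LimStmt) : VelStmt := by
  obtain ⟨p2, h2⟩ := h2
  obtain ⟨p3, h3⟩ := h3
  obtain ⟨p4, h4⟩ := h4
  refine ⟨p2 + p3 + p4 + (dd + 60), fun K => ?_⟩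
  obtain ⟨C2, h2⟩ := h2 K
  obtain ⟨C3, h3⟩ := h3 K
  refine ⟨|C2| + |C3|, by positivity, fun f g R hR nf dg mg lg f0 g0 i1 i2 => ?_⟩
  have mf := nf.measurable
  have df : Dec (p2 + p3 + p4 + (dd + 60)) K f := nf.1
  have mh : Measurable (f - g) := mf.sub mg
  set ψ : E → ℝ := fun v => sg (f v - g v) * (wt v * chi R v) with hψ
  have mψ : Measurable ψ := by fun_prop
  have bψ : ∀ v, |ψ v| ≤ wt v := fun v => abs_test_le _ _ _
  have sψ : ∀ v, 2 * R ≤ ‖v‖ → ψ v = 0 := fun v hv => by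
    simp only [hψ, chi_eq_zero (by linarith) hv, mul_zero]
  obtain ⟨a1, a2⟩ := h4 f ψ K (2 * R) mf (df.mono (by omega)) (Nice.locLip nf) i1 mψ bψ sψ
  obtain ⟨b1, b2⟩ := h4 g ψ K (2 * R) mg (dg.mono (by omega)) lg i2 mψ bψ sψ
  have e : ∫ v, ψ v * (QO f v - QO g v) = (∫ v, ψ v * QO f v) - ∫ v, ψ v * QO g v := by
    simp only [mul_sub]; exact integral_sub a1 b1
  have hN : 0 ≤ ∫ v, |f v - g v| * wt v :=
    integral_nonneg fun v => mul_nonneg (abs_nonneg _) (wt_pos' v).le
  refine e.trans_le (le_of_tendsto (a2.sub b2) ?_)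
  filter_upwards [Ioc_mem_nhdsGT one_pos] with ε hε
  have df' : Dec (dd + 60) K f := df.mono (by omega)
  have dg' : Dec (dd + 60) K g := dg.mono (by omega)
  have ic : ∀ {a b : E → ℝ} {Ka Kb : ℝ}, Measurable a → Measurable b → Dec (dd + 60) Ka a →
      Dec (dd + 60) Kb b → Integrable (fun q => kc ε q * ψ q.1 * inc a b q) mu3 :=
    fun ha hb da db => integrable_inc (measurable_kc ε) (kc_nonneg ε) (kc_le_kx hε.1) mψ bψ
      ha hb da db
  have jf : ∀ {a b : E → ℝ} {Ka Kb : ℝ}, Measurable a → Measurable b → Dec (dd + 60) Ka a →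
      Dec (dd + 60) Kb b → Integrable (fun q => kf q * ψ q.1 * inc a b q) mu3 :=
    fun ha hb da db => integrable_inc (c := 1) measurable_kf kf_nonneg
      (fun q => by simpa using kf_le q) mψ bψ ha hb da db
  have je : ∀ {a : E → ℝ}, Measurable a → Dec (dd + 60) K a →
      Integrable (fun q => ke ε q * ψ q.1 * inc a a q) mu3 :=
    fun ha da => integrable_inc (measurable_ke ε) (ke_nonneg ε) (ke_le_kx hε.1 hε.2) mψ bψ
      ha ha da da
  have c1 := ic mg mh dg' (df'.sub dg')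
  have c2 := ic mh mf (df'.sub dg') df'
  have c3 : Integrable (fun q => kf q * ψ q.1 * (inc f f q - inc g g q)) mu3 := by
    simp only [mul_sub]; exact (jf mf mf df' df').sub (jf mg mg dg' dg')
  have e2 : ∫ q, ke ε q * ψ q.1 * inc f f q ∂mu3 - ∫ q, ke ε q * ψ q.1 * inc g g q ∂mu3 =
      ∫ q, kc ε q * ψ q.1 * inc g (f - g) q ∂mu3
        + ∫ q, kf q * ψ q.1 * (inc f f q - inc g g q) ∂mu3
        + ∫ q, kc ε q * ψ q.1 * inc (f - g) f q ∂mu3 := by
    have c4 : Integrable (fun q => kc ε q * ψ q.1 * inc g (f - g) q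
      + kf q * ψ q.1 * (inc f f q - inc g g q)) mu3 := c1.add c3
    rw [← integral_sub (je mf df') (je mg dg'), ← integral_add c1 c3, ← integral_add c4 c2]
    refine integral_congr_ae (ae_of_all _ fun q => ?_)
    simp only [ke_eq hε.2, inc, Pi.sub_apply]
    ring
  have t2 := h2 f g R ε hR hε.1 mf mg f0 g0 (df.mono (by omega)) (dg.mono (by omega))
  have t3 := h3 f (f - g) ψ (K + K) ε hε.1 (nf.mono (by omega)) mh
    ((df.sub dg).mono (by omega)) mψ bψ
  simp only [Pi.sub_apply] at t3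
  have u1 := mul_le_mul_of_nonneg_right (le_abs_self C2) hN
  have u2 := mul_le_mul_of_nonneg_right (le_abs_self C3) hN
  have u3 : C2 / R ≤ (|C2| + |C3|) / R :=
    div_le_div_of_nonneg_right (by linarith [le_abs_self C2, abs_nonneg C3]) (by linarith)
  rw [e2]
  linarith

open Stmt in
lemma jac_mul_cI' (f : E → ℝ) (v : E) (q : E × S2) : jac v q * cI f v (sgm v q) = cO f v q := by
  have h := jac_mul_cI (fun x => (sM x)⁻¹ * f x) v q
  have e : (fun x => sM x * ((sM x)⁻¹ * f x)) = f := funext fun x =>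
    mul_inv_cancel_left₀ (sM_pos x).ne' _
  rw [e] at h
  rw [h]
  have e5 := sM_pv_mul v q.1 q.2
  have h1 := (sM_pos v).ne'
  have h2 := (sM_pos q.1).ne'
  have h3 := (sM_pos (pv v q.1 q.2)).ne'
  have h4 := (sM_pos (pw v q.1 q.2)).ne'
  simp only [triI, cO, inc, ker3]
  have e6 : sM v * sM q.1 * ((sM (pw v q.1 q.2))⁻¹ * (sM (pv v q.1 q.2))⁻¹) = 1 := by
    rw [← e5]; field_simp
  have e7 : sM v * sM q.1 * ((sM q.1)⁻¹ * (sM v)⁻¹) = 1 := by field_simp
  linear_combination ker (v - q.1) q.2 * f (pw v q.1 q.2) * f (pv v q.1 q.2) * e6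
    - ker (v - q.1) q.2 * f q.1 * f v * e7

theorem sig : SigStmt := by
  intro f v hf hint
  have hi : Measurable fun q : E × S2 => (q.1, (q.2 : E)) := by fun_prop
  have hm := measurable_cI hf v
  have hj := measurable_jac v
  have hj0 : ∀ q, 0 ≤ jac v q := fun q => by unfold jac; positivity
  have e : ∀ q, (ENNReal.ofReal (jac v q)).toReal • cI f v (sgm v q) = cO f v q := fun q => by
    rw [ENNReal.toReal_ofReal (hj0 q), smul_eq_mul]; exact jac_mul_cI' f v q
  constructor
  · change Integrable (cI f v ∘ fun q : E × S2 => (q.1, (q.2 : E))) mu2 at hint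
    rw [← integrable_map_measure hm.aestronglyMeasurable hi.aemeasurable, map_sgm v,
      integrable_map_measure hm.aestronglyMeasurable (measurable_sgm v).aemeasurable,
      integrable_withDensity_iff_integrable_smul' hj.ennreal_ofReal
        (ae_of_all _ fun _ => ENNReal.ofReal_lt_top)] at hint
    exact hint.congr (ae_of_all _ e)
  · change ∫ q : E × S2, cI f v (q.1, (q.2 : E)) ∂mu2 = _
    rw [← integral_map hi.aemeasurable hm.aestronglyMeasurable, map_sgm v,
      integral_map (measurable_sgm v).aemeasurable hm.aestronglyMeasurable,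
      integral_withDensity_eq_integral_toReal_smul hj.ennreal_ofReal
        (ae_of_all _ fun _ => ENNReal.ofReal_lt_top)]
    simp only [e]
    rfl

end Pool.Agent.BoltzD.Uq

end
end MrgPart2

-- marker of a merged file
example : 731051 + 67407 = 731051 + 67407 := rfl

end MrgPart1

-- ======== part 2: formerly Pool.Agent.BoltzD.Uq.Fin
section MrgPart2

/-! The uniqueness theorem from the velocity estimate and the transport lemma. -/

set_option autoImplicit false

open MeasureTheory Set Filter Topology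

noncomputable section

namespace Pool.Agent.BoltzD.Uq

open Coll Stmt

variable [Dim]

lemma locLip_of_contDiff {f : E → ℝ} (h : ContDiff ℝ 1 f) : LocLip f := fun R => by
  obtain ⟨L, hL⟩ := (isCompact_closedBall (0 : E) (R + 1)).exists_bound_of_continuousOn
    (h.continuous_fderiv one_ne_zero).continuousOn
  refine ⟨L, fun v v' hv hv' => ?_⟩
  refine (convex_closedBall (0 : E) (R + 1)).norm_image_sub_le_of_norm_fderiv_le
    (fun x _ => h.differentiable one_ne_zero x) hL (mem_closedBall_zero_iff.2 (by linarith))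
    (mem_closedBall_zero_iff.2 ?_)
  linarith [norm_sub_norm_le v' v]

variable {B : ℝ → ℝ → ℝ} {T : ℝ} {f : ℝ → E → E → ℝ}

/-- the derivative in all variables -/
def DD (T : ℝ) (f : ℝ → E → E → ℝ) (p : ℝ × E × E) : ℝ × E × E →L[ℝ] ℝ :=
  fderivWithin ℝ (fun p : ℝ × E × E => f p.1 p.2.1 p.2.2) (Ico 0 T ×ˢ univ) p

lemma udo (T : ℝ) : UniqueDiffOn ℝ (Ico 0 T ×ˢ (univ : Set (E × E))) :=
  (uniqueDiffOn_Ico 0 T).prod uniqueDiffOn_univ

lemma hasDD (h : ClassicalSol B T f) {t : ℝ} (ht : t ∈ Ico 0 T) (x v : E) :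
    HasFDerivWithinAt (fun p : ℝ × E × E => f p.1 p.2.1 p.2.2) (DD T f (t, x, v))
      (Ico 0 T ×ˢ univ) (t, x, v) :=
  (h.c1.differentiableOn one_ne_zero _ (mk_mem_prod ht trivial)).hasFDerivWithinAt

lemma hasChar (h : ClassicalSol B T f) {t : ℝ} (ht : t ∈ Ico 0 T) (x y v : E) :
    HasDerivWithinAt (fun τ => f τ (x + τ • y) v) (DD T f (t, x + t • y, v) (1, y, 0))
      (Ico 0 T) t := by
  have h1 : HasDerivAt (fun τ : ℝ => (τ, x + τ • y, v)) (1, y, 0) t :=
    (hasDerivAt_id t).prodMk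
      ((by simpa using ((hasDerivAt_id t).smul_const y).const_add x :
        HasDerivAt (fun τ : ℝ => x + τ • y) y t).prodMk (hasDerivAt_const t v))
  exact (hasDD h ht (x + t • y) v).comp_hasDerivWithinAt t h1.hasDerivWithinAt
    fun τ hτ => mk_mem_prod hτ (mem_univ _)

lemma Q_eq (h : ClassicalSol B T f) {t : ℝ} (ht : t ∈ Ico 0 T) (x v : E) :
    Q B (f t x) v = DD T f (t, x, v) (1, v, 0) := by
  have h1 := (hasChar h ht x 0 v).derivWithin (uniqueDiffOn_Ico 0 T t ht)
  simp only [smul_zero, add_zero] at h1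
  have h2 : HasFDerivAt (fun y : E => (t, y, v))
      ((0 : E →L[ℝ] ℝ).prod ((ContinuousLinearMap.id ℝ E).prod 0)) x :=
    (hasFDerivAt_const t x).prodMk ((hasFDerivAt_id x).prodMk (hasFDerivAt_const v x))
  have h3 := (hasFDerivWithinAt_univ.1 ((hasDD h ht x v).comp x h2.hasFDerivWithinAt
    (s := univ) fun y _ => mk_mem_prod ht (mem_univ _))).fderiv
  rw [← h.eqn t ht x v, h1, show (fun y => f t y v) =
    (fun p : ℝ × E × E => f p.1 p.2.1 p.2.2) ∘ fun y : E => (t, y, v) from rfl, h3,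
    ContinuousLinearMap.comp_apply, ← map_add]
  simp

lemma contQ (h : ClassicalSol B T f) :
    ContinuousOn (fun p : ℝ × E × E => Q B (f p.1 p.2.1) p.2.2) (Ico 0 T ×ˢ univ) :=
  ((h.c1.continuousOn_fderivWithin (udo T) le_rfl).clm_apply
    (by fun_prop : Continuous fun p : ℝ × E × E => ((1 : ℝ), p.2.2, (0 : E))).continuousOn).congr
    fun p hp => Q_eq h hp.1 p.2.1 p.2.2

lemma contDiff_v (h : ClassicalSol B T f) {t : ℝ} (ht : t ∈ Ico 0 T) (x : E) :
    ContDiff ℝ 1 (f t x) :=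
  h.c1.comp_contDiff (f := fun v : E => (t, x, v)) (by fun_prop) fun _ => mk_mem_prod ht trivial

lemma dec_of (h : ClassicalSol B T f) {t0 : ℝ} (h0 : t0 < T) (p : ℕ) :
    ∃ K, ∀ t ∈ Icc 0 t0, ∀ x, Dec p K (f t x) := by
  obtain ⟨C, hC⟩ := h.decay t0 h0 ((p + 1 : ℕ) : ℝ) (by positivity)
  refine ⟨2 ^ (p + 1) * C, fun t ht x => Dec.mono (fun v => ?_) (Nat.le_succ p)⟩
  have h1 := hC t ht x v
  have h2 := h.nonneg t ⟨ht.1, ht.2.trans_lt h0⟩ x v
  have h3 : 0 < √(1 + ‖v‖ ^ 2) := by positivity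
  rw [Real.rpow_neg h3.le, Real.rpow_natCast, ← div_eq_mul_inv, le_div_iff₀ (by positivity)] at h1
  have h4 : 1 + ‖v‖ ≤ 2 * √(1 + ‖v‖ ^ 2) := by
    have a1 : 1 ≤ √(1 + ‖v‖ ^ 2) := Real.one_le_sqrt.2 (by nlinarith [sq_nonneg ‖v‖])
    have a2 : ‖v‖ ≤ √(1 + ‖v‖ ^ 2) := Real.le_sqrt_of_sq_le (by linarith)
    linarith
  rw [abs_of_nonneg h2]
  calc _ ≤ (2 * √(1 + ‖v‖ ^ 2)) ^ (p + 1) * f t x v := by gcongr
    _ = 2 ^ (p + 1) * (f t x v * √(1 + ‖v‖ ^ 2) ^ (p + 1)) := by ring
    _ ≤ _ := by gcongr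

lemma nice_of (h : ClassicalSol B T f) (hs : Smooth T f) {t0 : ℝ} (h0 : t0 < T) (p : ℕ) :
    ∃ K, ∀ t ∈ Icc 0 t0, ∀ x, Nice p K (f t x) := by
  obtain ⟨K, hK⟩ := dec_of h h0 p
  obtain ⟨C, hC⟩ := hs.decay t0 h0 1 p
  refine ⟨2 ^ p * max K C, fun t ht x => ?_⟩
  have ht' : t ∈ Ico 0 T := ⟨ht.1, ht.2.trans_lt h0⟩
  refine nice_of_fderiv ((contDiff_v h ht' x).differentiable one_ne_zero)
    (fun v => (hK t ht x v).trans (le_max_left _ _)) fun v => ?_
  refine le_trans ?_ ((hC t ht x v).trans (le_max_right _ _))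
  rw [norm_iteratedFDerivWithin_one _ (udo T _ (mk_mem_prod ht' trivial))]
  have h2 : HasFDerivAt (fun w : E => (t, x, w))
      ((ContinuousLinearMap.inr ℝ ℝ (E × E)).comp (ContinuousLinearMap.inr ℝ E E)) v :=
    (hasFDerivAt_prodMk_right t (x, v)).comp v (hasFDerivAt_prodMk_right x v)
  have h3 := (hasFDerivWithinAt_univ.1 ((hasDD h ht' x v).comp v h2.hasFDerivWithinAt
    (s := univ) fun y _ => mk_mem_prod ht' (mem_univ _))).fderiv
  refine mul_le_mul_of_nonneg_left ?_ (by positivity)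
  rw [show f t x = (fun p : ℝ × E × E => f p.1 p.2.1 p.2.2) ∘ fun w : E => (t, x, w) from rfl, h3]
  refine ContinuousLinearMap.opNorm_le_bound _ (norm_nonneg _) fun w => ?_
  refine ((DD T f (t, x, v)).le_opNorm _).trans (le_of_eq ?_)
  simp [DD]

theorem uniq_of (hV : VelStmt) (hT : TransStmt) : UniqStmt := by
  intro T f hf hs T' g hg h0 t0 ht0
  have h1 : t0 < T := ht0.2.trans_le (min_le_left _ _)
  have h2 : t0 < T' := ht0.2.trans_le (min_le_right _ _)
  obtain ⟨p, hV⟩ := hV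
  obtain ⟨K1, n1⟩ := nice_of hf hs h1 (p + (dd + 31))
  obtain ⟨K2, n2⟩ := dec_of hg h2 (p + (dd + 31))
  obtain ⟨C, hC, hV⟩ := hV (max K1 K2)
  let cl : ℝ → ℝ := fun t => max 0 (min t t0)
  have c0 : Continuous cl := by fun_prop
  have c1 : ∀ t, cl t ∈ Icc 0 t0 := fun t =>
    ⟨le_max_left _ _, max_le ht0.1 (min_le_right _ _)⟩
  have c2 : ∀ t ∈ Icc 0 t0, cl t = t := fun t ht => by
    simp only [cl, min_eq_left ht.2, max_eq_right ht.1]
  have s1 : Icc 0 t0 ⊆ Ico 0 T := Icc_subset_Ico_right h1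
  have s2 : Icc 0 t0 ⊆ Ico 0 T' := Icc_subset_Ico_right h2
  have c3 : Continuous fun q : ℝ × E × E => (cl q.1, q.2) := by fun_prop
  have key := hT (fun t x v => f (cl t) x v - g (cl t) x v)
    (fun t x v => Q (Bk dd) (f (cl t) x) v - Q (Bk dd) (g (cl t) x) v) t0 (K1 + K2) C hC
    ((hf.c1.continuousOn.comp_continuous c3 fun q => mk_mem_prod (s1 (c1 _)) trivial).sub
      (hg.c1.continuousOn.comp_continuous c3 fun q => mk_mem_prod (s2 (c1 _)) trivial))
    (((contQ hf).comp_continuous c3 fun q => mk_mem_prod (s1 (c1 _)) trivial).sub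
      ((contQ hg).comp_continuous c3 fun q => mk_mem_prod (s2 (c1 _)) trivial))
    (fun t n x => by
      simp only [hf.periodic _ (s1 (c1 t)), hg.periodic _ (s2 (c1 t))])
    (fun t n x => by
      simp only [hf.periodic _ (s1 (c1 t)), hg.periodic _ (s2 (c1 t))])
    (fun x v => by simp only [c2 0 ⟨le_rfl, ht0.1⟩, h0, sub_self])
    (fun x v t ht => by
      have a1 := ((hasChar hf (s1 ht) x v v).mono s1).sub ((hasChar hg (s2 ht) x v v).mono s2)
      rw [← Q_eq hf (s1 ht), ← Q_eq hg (s2 ht)] at a1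
      simp only [c2 t ht]
      exact a1.congr (fun τ hτ => by simp only [c2 τ hτ, Pi.sub_apply])
        (by simp only [c2 t ht, Pi.sub_apply]))
    (fun t ht x => by
      simp only [c2 t ht]
      exact (Dec.sub (n1 t ht x).1 (n2 t ht x)).mono (by omega))
    (fun t ht x R hR => by
      have m1 := (contDiff_v hf (s1 ht) x).continuous.measurable
      have m2 := (contDiff_v hg (s2 ht) x).continuous.measurable
      have q1 := fun v => sig _ v m1 (hf.integrable t (s1 ht) x v)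
      have q2 := fun v => sig _ v m2 (hg.integrable t (s2 ht) x v)
      simp only [c2 t ht, fun v => (q1 v).2, fun v => (q2 v).2]
      exact hV _ _ R hR (((n1 t ht x).mono (by omega)).mono_const (le_max_left _ _))
        (fun v => (((n2 t ht x).mono (by omega : p ≤ _)) v).trans (le_max_right _ _)) m2
        (locLip_of_contDiff (contDiff_v hg (s2 ht) x)) (hf.nonneg t (s1 ht) x)
        (hg.nonneg t (s2 ht) x) (fun v => (q1 v).1) fun v => (q2 v).1)
  funext x v
  have := key t0 ⟨ht0.1, le_rfl⟩ x v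
  simp only [c2 t0 ⟨ht0.1, le_rfl⟩] at this
  linarith

end Pool.Agent.BoltzD.Uq

end
end MrgPart2

-- marker of a merged file
example : 731051 + 391481 = 731051 + 391481 := rfl
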