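import Pool.Agent.BoltzD.Uq.Basic
import Pool.Agent.BoltzD.C3.Chain

-- ======== part 0: formerly Pool.Agent.BoltzD.Uq.Pov2
section MrgPart0

/-! The Povzner inequality. -/

set_option autoImplicit false

open MeasureTheory Set Filter Topology
open scoped ENNReal RealInnerProductSpace

noncomputable section

namespace Pool.Agent.BoltzD.Uq

open Coll C3 Classical

lemma pw_sub_le {x y : ℝ} (hx : 0 ≤ x) (hxy : x ≤ y) : y ^ 15 - x ^ 15 ≤ 15 * y ^ 14 * (y - x) := by
  have hy : 0 ≤ y := hx.trans hxy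
  have e := Commute.geom_sum₂_mul (Commute.all y x) 15
  rw [← e]
  refine mul_le_mul_of_nonneg_right ?_ (by linarith)
  refine (Finset.sum_le_card_nsmul _ _ (y ^ 14) fun i hi => ?_).trans (by simp)
  have hi' := Finset.mem_range.1 hi
  calc y ^ i * x ^ (15 - 1 - i) ≤ y ^ i * y ^ (15 - 1 - i) := by gcongr
    _ = y ^ 14 := by rw [← pow_add]; congr 1; omega

lemma near_alg {a b X t : ℝ} (ha : 1 ≤ a) (hb : 1 ≤ b) (h0 : 0 ≤ a - X) (ht : t ≤ 1)
    (hX : |X| ≤ 2 * b * t) : |(a - X) ^ 15 - a ^ 15| ≤ 30 * 3 ^ 14 * (a ^ 14 * b ^ 15) * t := by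
  have hab : a + 2 * b ≤ 3 * (a * b) := by nlinarith [mul_nonneg (sub_nonneg.2 ha) (sub_nonneg.2 hb)]
  have hX' := abs_le.1 hX
  have key : ∀ y : ℝ, 0 ≤ y → y ≤ a + 2 * b →
      15 * y ^ 14 * |X| ≤ 30 * 3 ^ 14 * (a ^ 14 * b ^ 15) * t := fun y hy h => by
    calc _ ≤ 15 * (3 * (a * b)) ^ 14 * (2 * b * t) := by gcongr; linarith
      _ = _ := by ring
  rcases le_total 0 X with h | h
  · have h1 := pw_sub_le h0 (by linarith : a - X ≤ a)
    have h2 := pow_le_pow_left₀ h0 (by linarith : a - X ≤ a) 15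
    have h3 := key a (by linarith) (by linarith)
    rw [abs_of_nonneg h] at h3
    rw [abs_of_nonpos (by linarith)]
    rw [sub_sub_cancel] at h1
    linarith
  · have h1 := pw_sub_le (by linarith : 0 ≤ a) (by linarith : a ≤ a - X)
    have h2 := pow_le_pow_left₀ (by linarith : 0 ≤ a) (by linarith : a ≤ a - X) 15
    have h3 := key (a - X) h0 (by nlinarith)
    rw [abs_of_nonpos h] at h3
    rw [abs_of_nonneg (by linarith)]
    rw [show a - X - a = -X by ring] at h1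
    linarith

lemma far_alg {a b X : ℝ} (ha : 1 ≤ a) (hb : 1 ≤ b) (h0 : 0 ≤ a - X) (h1 : 0 ≤ b + X) :
    (a - X) ^ 15 + (b + X) ^ 15 + b ^ 15 + 2 * a ^ 13 * max 0 (X * (a - X))
      ≤ a ^ 15 + 60 * 3 ^ 14 * (a ^ 14 * b ^ 15) := by
  have hab : a + b ≤ 2 * (a * b) := by nlinarith [mul_nonneg (sub_nonneg.2 ha) (sub_nonneg.2 hb)]
  have e1 : b ^ 15 ≤ a ^ 14 * b ^ 15 := le_mul_of_one_le_left (by positivity) (one_le_pow₀ ha)
  have e2 : 15 * (a + b) ^ 14 * b ≤ 15 * 2 ^ 14 * (a ^ 14 * b ^ 15) := by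
    calc _ ≤ 15 * (2 * (a * b)) ^ 14 * b := by gcongr
      _ = _ := by ring
  have e0 : 0 ≤ a ^ 14 * b ^ 15 := by positivity
  rcases le_total 0 X with h | h
  · rw [max_eq_right (mul_nonneg h h0)]
    have p1 : (a - X) ^ 13 ≤ a ^ 13 := pow_le_pow_left₀ h0 (by linarith) 13
    have p2 : X ^ 13 ≤ a ^ 13 := pow_le_pow_left₀ h (by linarith) 13
    have p3 := mul_le_mul_of_nonneg_right p1 (sq_nonneg (a - X))
    have p4 := mul_le_mul_of_nonneg_right p2 (sq_nonneg X)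
    have p5 := pw_sub_le h (by linarith : X ≤ b + X)
    have p6 : 15 * (b + X) ^ 14 * (b + X - X) ≤ 15 * (a + b) ^ 14 * b := by
      rw [add_sub_cancel_right]
      have : b + X ≤ a + b := by linarith
      gcongr
    have q1 : (a - X) ^ 15 = (a - X) ^ 13 * (a - X) ^ 2 := by ring
    have q2 : X ^ 15 = X ^ 13 * X ^ 2 := by ring
    have q3 : a ^ 15 = a ^ 13 * (a - X) ^ 2 + a ^ 13 * X ^ 2 + 2 * a ^ 13 * (X * (a - X)) := by ring
    linarith
  · rw [max_eq_left (mul_nonpos_of_nonpos_of_nonneg h h0)]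
    have p1 : (a - X) ^ 15 ≤ (a + b) ^ 15 := pow_le_pow_left₀ h0 (by linarith) 15
    have p2 : (b + X) ^ 15 ≤ b ^ 15 := pow_le_pow_left₀ h1 (by linarith) 15
    have p3 := pw_sub_le (by linarith : 0 ≤ a) (by linarith : a ≤ a + b)
    rw [add_sub_cancel_left] at p3
    linarith

lemma gain_alg {r ρ n t c : ℝ} (hρ : 0 ≤ ρ) (hr : 64 * (1 + ρ ^ 2) ≤ r) (hn1 : r - ρ ≤ n)
    (hn2 : n ≤ r + ρ) (ht1 : r / 4 ≤ |t|) (ht2 : |t| ≤ r / 2) (hc : |c| ≤ ρ) :
    (1 + n ^ 2) ^ 2 / 256 ≤ (t ^ 2 + 2 * t * c) * (1 + n ^ 2 - (t ^ 2 + 2 * t * c)) := by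
  have h1 : ρ ≤ r / 128 := by nlinarith [sq_nonneg (ρ - 1)]
  have h2 : 64 ≤ r := by nlinarith [sq_nonneg ρ]
  have h3 : |2 * t * c| ≤ r ^ 2 / 128 := by
    rw [abs_mul, abs_mul, abs_two]
    calc 2 * |t| * |c| ≤ 2 * (r / 2) * (r / 128) := by gcongr; linarith
      _ = _ := by ring
  have h4 := abs_le.1 h3
  have h5 : r ^ 2 / 16 ≤ t ^ 2 := by rw [← sq_abs t]; nlinarith
  have h6 : t ^ 2 ≤ r ^ 2 / 4 := by rw [← sq_abs t]; nlinarith [abs_nonneg t]
  have h7 : 3 / 4 * r ^ 2 + r ^ 2 / 64 ≤ n ^ 2 := by nlinarith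
  have h8 : 1 + n ^ 2 ≤ 2 * r ^ 2 := by nlinarith
  calc (1 + n ^ 2) ^ 2 / 256 ≤ (2 * r ^ 2) ^ 2 / 256 := by gcongr
    _ = r ^ 2 / 32 * (r ^ 2 / 2) := by ring
    _ ≤ _ := mul_le_mul (by linarith) (by linarith) (by positivity) (by linarith)

lemma alg1 (C k l a b : ℝ) :
    C * (a ^ 15 * b ^ 15) * (k * (l * b ^ 15) ^ 29) = C * k * l ^ 29 * b ^ 450 * a ^ 15 := by ring

lemma alg2 {C k c a b r : ℝ} (hr : 0 ≤ r) (ha : 0 ≤ a) (hc : 0 ≤ c) (s2 : r ^ 2 ≤ 2 * a)
    (s3 : 2 * (C * k * b ^ 15) ≤ c * r) :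
    C * (a ^ 14 * b ^ 15) * (k * r ^ 29) ≤ c * (r ^ 28 * a ^ 15) :=
  calc _ = 2 * (C * k * b ^ 15) * (a ^ 14 * r ^ 29 / 2) := by ring
    _ ≤ c * r * (a ^ 14 * r ^ 29 / 2) := by gcongr
    _ = c * (r ^ 28 * a ^ 14 * r ^ 2 / 2) := by ring
    _ ≤ c * (r ^ 28 * a ^ 14 * (2 * a) / 2) := by gcongr
    _ = c * (r ^ 28 * a ^ 15) := by ring

lemma alg3 {C k c r B : ℝ} (hc : 0 < c) (h : 2 * C * k / c * B ≤ r) : 2 * (C * k * B) ≤ c * r := by
  rw [div_mul_eq_mul_div, div_le_iff₀ hc] at h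
  linarith

lemma alg4 {l r B : ℝ} (h1 : 1 ≤ B) (h : r < l * B) : 1 + r ≤ (1 + l) * B := by linarith

lemma alg5 (x a : ℝ) : x * a ^ 15 / 64 = 2 * x * (2 * a ^ 13 * (a ^ 2 / 256)) := by ring

lemma alg6 {k A B C D E F : ℝ} (f1 : k * (A + B + C + D) ≤ k * (E + F)) {g : ℝ} (f2 : g ≤ k * D) :
    0 * (2 * |A - E|) + k * (A + B + C) + g ≤ k * E + F * (k * 1) := by linarith

lemma alg7 {k A B C E F t : ℝ} (n2 : k * |A - E| ≤ k * (30 * 3 ^ 14 * F * t)) :
    k * (2 * |A - E|) + 0 * (A + B + C) + 0 ≤ 0 * E + 60 * 3 ^ 14 * F * (k * t) := by linarith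

variable [Dim]

lemma norm_pw_sq (v w : E) (o : S2) :
    ‖pw v w o‖ ^ 2 = ‖w‖ ^ 2 + (rho (v, w, o) ^ 2 + 2 * rho (v, w, o) * ⟪w, (o : E)⟫) := by
  rw [pw, norm_add_sq_real, norm_smul, norm_coe, inner_smul_right, mul_one, Real.norm_eq_abs, sq_abs]
  simp only [rho]
  ring

/-- the zone with a gain -/
def zone (r : ℝ) : Set ℝ := Icc (r / 4) (r / 2)

lemma point (v w : E) (o : S2) :
    kn (v, w, o) * (2 * |wt (pv v w o) - wt v|)
        + kf (v, w, o) * (wt (pv v w o) + wt (pw v w o) + wt w)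
        + (if 64 * (1 + ‖w‖ ^ 2) ≤ ‖v - w‖ ∧ rho (v, w, o) ∈ zone ‖v - w‖
          then ‖v - w‖ ^ 28 * wt v / 64 else 0)
      ≤ kf (v, w, o) * wt v
        + 60 * 3 ^ 14 * ((1 + ‖v‖ ^ 2) ^ 14 * (1 + ‖w‖ ^ 2) ^ 15) * kx (v, w, o) := by
  set t := rho (v, w, o) with ht
  set X := t ^ 2 + 2 * t * ⟪w, (o : E)⟫ with hX
  have e1 : 1 + ‖pw v w o‖ ^ 2 = 1 + ‖w‖ ^ 2 + X := by rw [norm_pw_sq]; ring
  have e2 : 1 + ‖pv v w o‖ ^ 2 = 1 + ‖v‖ ^ 2 - X := by linarith [energy v w o]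
  have ha : 1 ≤ 1 + ‖v‖ ^ 2 := by nlinarith [sq_nonneg ‖v‖]
  have hb : 1 ≤ 1 + ‖w‖ ^ 2 := by nlinarith [sq_nonneg ‖w‖]
  have h0 : 0 ≤ 1 + ‖v‖ ^ 2 - X := by rw [← e2]; positivity
  have h1 : 0 ≤ 1 + ‖w‖ ^ 2 + X := by rw [← e1]; positivity
  have hc := abs_inner_le w o
  have hk := ker3_nonneg (v, w, o)
  simp only [wt, e1, e2, kn, kf, kx, ← ht]
  by_cases h : 1 < |t|
  · rw [if_neg (not_le.2 h), if_pos h, min_eq_left h.le]
    have f1 := mul_le_mul_of_nonneg_left (far_alg ha hb h0 h1) hk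
    have f2 : (if 64 * (1 + ‖w‖ ^ 2) ≤ ‖v - w‖ ∧ t ∈ zone ‖v - w‖
          then ‖v - w‖ ^ 28 * (1 + ‖v‖ ^ 2) ^ 15 / 64 else 0) ≤
        ker3 (v, w, o) * (2 * (1 + ‖v‖ ^ 2) ^ 13 * max 0 (X * (1 + ‖v‖ ^ 2 - X))) := by
      split_ifs with hz
      · have hr : 0 < ‖v - w‖ := by linarith [hz.1]
        have t0 : 0 < t := lt_of_lt_of_le (by positivity) hz.2.1
        have g1 := (gain_alg (n := ‖v‖) (t := t) (norm_nonneg w) hz.1
          (by linarith [norm_sub_le v w]) (by linarith [norm_sub_norm_le v w])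
          (by rw [abs_of_pos t0]; exact hz.2.1) (by rw [abs_of_pos t0]; exact hz.2.2) hc).trans
          (le_max_right 0 _)
        have g2 : 2 * ‖v - w‖ ^ 28 ≤ ker3 (v, w, o) := by
          have : ‖v - w‖ ^ (-(3 / 2) : ℝ) ≤ |t| ^ (-(3 / 2) : ℝ) :=
            Real.rpow_le_rpow_of_nonpos (abs_pos.2 t0.ne') (abs_inner_le _ _) (by norm_num)
          calc 2 * ‖v - w‖ ^ 28 = 2 * ‖v - w‖ ^ (59 / 2 : ℝ) * ‖v - w‖ ^ (-(3 / 2) : ℝ) := by
                rw [mul_assoc, ← Real.rpow_add hr, ← Real.rpow_natCast]; norm_num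
            _ ≤ _ := mul_le_mul_of_nonneg_left this (by positivity)
        calc _ = 2 * ‖v - w‖ ^ 28 * (2 * (1 + ‖v‖ ^ 2) ^ 13 * ((1 + ‖v‖ ^ 2) ^ 2 / 256)) := alg5 _ _
          _ ≤ _ := by gcongr
      · positivity
    exact alg6 f1 f2
  · have h' := not_lt.1 h
    rw [if_pos h', if_neg h, min_eq_right h', if_neg (fun hz => by
      have := hz.2.1.trans (le_abs_self t)
      linarith [hz.1])]
    have n1 : |X| ≤ 2 * (1 + ‖w‖ ^ 2) * |t| := by
      rw [hX, show t ^ 2 + 2 * t * ⟪w, (o : E)⟫ = (t + 2 * ⟪w, (o : E)⟫) * t by ring, abs_mul]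
      refine mul_le_mul_of_nonneg_right ((abs_add_le _ _).trans ?_) (abs_nonneg _)
      rw [abs_mul, abs_two]
      nlinarith [sq_nonneg (2 * ‖w‖ - 1)]
    exact alg7 (mul_le_mul_of_nonneg_left (near_alg ha hb h0 h' n1) hk)

theorem pov : PovStmt := by
  set C0 : ℝ := 60 * 3 ^ 14 with hC0
  set c : ℝ := (1 / 2) ^ dd * cS / 256 with hc
  have hc0 : 0 < c := by have := cS_pos; positivity
  have hA := cA_pos
  set L : ℝ := 64 + 2 * C0 * cA / c with hL
  have hL0 : 64 ≤ L := le_add_of_nonneg_right (by positivity)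
  refine ⟨C0 * cA * (1 + L) ^ 29, 900, by positivity, fun v w => ?_⟩
  set a := 1 + ‖v‖ ^ 2 with ha
  set b := 1 + ‖w‖ ^ 2 with hb
  set r := ‖v - w‖ with hr
  have ha1 : 1 ≤ a := by nlinarith [sq_nonneg ‖v‖]
  have hb1 : 1 ≤ b := by nlinarith [sq_nonneg ‖w‖]
  have hr0 : 0 ≤ r := norm_nonneg _
  set G : S2 → ℝ := fun o =>
    if 64 * b ≤ r ∧ rho (v, w, o) ∈ zone r then r ^ 28 * wt v / 64 else 0 with hG
  have hw := wt_pos' v
  have G0 : ∀ o, 0 ≤ G o := fun o => by simp only [hG]; split_ifs <;> positivity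
  have mG : Measurable G := Measurable.ite ((MeasurableSet.const _).inter
    (measurableSet_Icc.preimage (by fun_prop))) measurable_const measurable_const
  have r29 : r ^ (57 / 2 : ℝ) ≤ (1 + r) ^ 29 :=
    (Real.rpow_le_rpow hr0 (by linarith) (by norm_num)).trans (wt_rpow_le (v - w))
  have main : ∫⁻ o, ENNReal.ofReal (kn (v, w, o) * (2 * |wt (pv v w o) - wt v|)
        + kf (v, w, o) * (wt (pv v w o) + wt (pw v w o) + wt w)) ∂sph
        + ∫⁻ o, ENNReal.ofReal (G o) ∂sph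
      ≤ ∫⁻ o, ENNReal.ofReal (kf (v, w, o) * wt v) ∂sph
        + ENNReal.ofReal (C0 * (a ^ 14 * b ^ 15) * (cA * r ^ (57 / 2 : ℝ))) := by
    rw [← lintegral_add_right _ mG.ennreal_ofReal, ENNReal.ofReal_mul (by positivity)]
    refine le_trans ?_ (add_le_add_right (mul_le_mul_right (lint_kx_sph v w) _) _)
    rw [← lintegral_const_mul _ (by fun_prop), ← lintegral_add_left (by fun_prop)]
    refine lintegral_mono fun o => ?_
    have k1 := kn_nonneg (v, w, o)
    have k2 := kf_nonneg (v, w, o)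
    have k3 := kx_nonneg (v, w, o)
    have w1 := wt_pos' (pv v w o)
    have w2 := wt_pos' (pw v w o)
    have w3 := wt_pos' w
    simp only
    rw [← ENNReal.ofReal_add (by positivity) (G0 o), ← ENNReal.ofReal_mul (by positivity),
      ← ENNReal.ofReal_add (by positivity) (by positivity)]
    exact ENNReal.ofReal_le_ofReal (point v w o)
  have hb15 : b ≤ b ^ 15 := le_self_pow₀ hb1 (by norm_num)
  by_cases h : L * b ^ 15 ≤ r
  · have h64 : 64 * b ≤ r := le_trans (by gcongr) h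
    have hr1 : 64 ≤ r := by linarith
    have hu : v - w ≠ 0 := norm_pos_iff.1 (by linarith)
    have g1 : ENNReal.ofReal (c * (r ^ 28 * wt v)) ≤ ∫⁻ o, ENNReal.ofReal (G o) ∂sph := by
      have := le_arch (v - w) hu ((zone r).indicator fun _ => ENNReal.ofReal (r ^ 28 * wt v / 64))
        (measurable_const.indicator measurableSet_Icc) fun t ht => indicator_of_notMem (fun h' => by
          have := h'.1
          have := h'.2
          nlinarith) _
      rw [zone, lintegral_indicator measurableSet_Icc, setLIntegral_const, Real.volume_Icc,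
        ← ENNReal.ofReal_mul (by positivity), ← ENNReal.ofReal_mul
          (by have := cS_pos; positivity)] at this
      refine le_trans (ENNReal.ofReal_le_ofReal (le_of_eq ?_))
        (this.trans (lintegral_mono fun o => le_of_eq ?_))
      · rw [hc, ← hr]; field_simp; ring
      · simp only [hG, h64, true_and, zone, indicator, rho]
        split_ifs <;> simp
    have g2 : C0 * (a ^ 14 * b ^ 15) * (cA * r ^ (57 / 2 : ℝ)) ≤ c * (r ^ 28 * wt v) := by
      have s1 : r ^ (57 / 2 : ℝ) ≤ r ^ 29 := by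
        rw [← Real.rpow_natCast]
        exact Real.rpow_le_rpow_of_exponent_le (by linarith) (by norm_num)
      have s2 : r ^ 2 ≤ 2 * a := by
        have := norm_sub_le v w
        have : 3 / 4 * r ≤ ‖v‖ := by nlinarith [sq_nonneg (‖w‖ - 1)]
        nlinarith
      have s3 : 2 * (C0 * cA * b ^ 15) ≤ c * r := by
        have : 2 * C0 * cA / c * b ^ 15 ≤ r := le_trans (by gcongr; linarith) h
        exact alg3 hc0 this
      calc _ ≤ C0 * (a ^ 14 * b ^ 15) * (cA * r ^ 29) := by gcongr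
        _ ≤ c * (r ^ 28 * a ^ 15) := alg2 hr0 (by linarith) hc0.le s2 s3
    refine le_add_right ?_
    refine (ENNReal.add_le_add_iff_right (a := ENNReal.ofReal (c * (r ^ 28 * wt v)))
      ENNReal.ofReal_ne_top).1 ?_
    exact (add_le_add_right g1 _).trans
      (main.trans (add_le_add_right (ENNReal.ofReal_le_ofReal g2) _))
  · refine (le_self_add.trans main).trans (add_le_add_right (ENNReal.ofReal_le_ofReal ?_) _)
    have s1 : 1 + r ≤ (1 + L) * b ^ 15 := alg4 (one_le_pow₀ hb1) (not_le.1 h)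
    have s2 : b ≤ (1 + ‖w‖) ^ 2 := by nlinarith [norm_nonneg w]
    calc _ ≤ C0 * (a ^ 15 * b ^ 15) * (cA * ((1 + L) * b ^ 15) ^ 29) := by
          gcongr
          · norm_num
          · exact r29.trans (by gcongr)
      _ = C0 * cA * (1 + L) ^ 29 * b ^ 450 * a ^ 15 := alg1 _ _ _ _ _
      _ ≤ C0 * cA * (1 + L) ^ 29 * ((1 + ‖w‖) ^ 2) ^ 450 * a ^ 15 := by gcongr
      _ = _ := by rw [← pow_mul]; rfl

end Pool.Agent.BoltzD.Uq

end
end MrgPart0

-- ======== part 1: formerly Pool.Agent.BoltzD.Uq.Lim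
section MrgPart1

/-! Removal of the truncation of short jumps. -/

set_option autoImplicit false

open MeasureTheory Set Filter Topology
open scoped ENNReal

noncomputable section

namespace Pool.Agent.BoltzD.Uq

open Coll C3

variable [Dim]

namespace Lim

lemma marg0v (ε : ℝ) (v : E) {G : E → ℝ≥0∞} (hG : Measurable G) :
    ∫⁻ q, ENNReal.ofReal (kc ε (v, q)) * G q.1 ∂mu2 = ∫⁻ u, k0 ε u * G (v - u) := by
  rw [lintegral_mu2 _ (by fun_prop), ← lintegral_sub_left_eq_self _ v]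
  refine lintegral_congr fun u => ?_
  simp only [kc, rho, sub_sub_cancel]
  rw [lintegral_mul_const _ (by fun_prop), k0]

lemma marg1v (ε : ℝ) (v : E) {G : E → ℝ≥0∞} (hG : Measurable G) :
    ∫⁻ q, ENNReal.ofReal (kc ε (v, q)) * G (pw v q.1 q.2) ∂mu2
      = ∫⁻ u, k1 ε ‖u‖ * G (v - u) := by
  rw [lintegral_mu2' _ (by fun_prop)]
  have hk : Measurable fun q : ℝ × E =>
      ENNReal.ofReal (2 * (q.1 ^ 2 + ‖q.2‖ ^ 2) ^ (59 / 4 : ℝ) * phi ε q.1) :=
    ENNReal.measurable_ofReal.comp (Measurable.mul (Measurable.mul measurable_const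
      (Measurable.pow_const (by fun_prop) _)) (by fun_prop))
  have hΦ : Measurable (Function.uncurry fun (t : ℝ) (y : E) =>
      ENNReal.ofReal (2 * (t ^ 2 + ‖y‖ ^ 2) ^ (59 / 4 : ℝ) * phi ε t) * G (v - y)) :=
    hk.mul (hG.comp (by fun_prop))
  have h4 := Geo.bp _ hΦ
  refine Eq.trans ?_ (h4.trans ?_)
  · refine lintegral_congr fun o => ?_
    rw [← lintegral_sub_left_eq_self _ v]
    refine lintegral_congr fun u => ?_
    have : pw v (v - u) o = v - Geo.perp o u := by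
      simp only [pw, Geo.perp, sub_sub_cancel]; abel
    simp only [kc, rho, sub_sub_cancel, this]
    rw [← Geo.norm_sq_eq_perp (norm_coe o), sq_rpow (norm_nonneg u)]
  · refine lintegral_congr fun y => ?_
    have hk2 : Measurable fun t : ℝ =>
        ENNReal.ofReal (2 * (t ^ 2 + ‖y‖ ^ 2) ^ (59 / 4 : ℝ) * phi ε t) :=
      hk.comp (f := fun t : ℝ => (t, y)) (by fun_prop)
    rw [lintegral_mul_const _ hk2, k1, mul_assoc]

lemma auxv {a b : E → ℝ≥0∞} (hab : ∀ u, a u ≤ b u + cbar ‖u‖) (v : E) {G : E → ℝ≥0∞}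
    (hG : Measurable G) : ∫⁻ u, a u * G (v - u)
      ≤ (∫⁻ u, b u * G (v - u)) + ∫⁻ u, cbar ‖u‖ * G (v - u) := by
  rw [← lintegral_add_right _ (by fun_prop)]
  refine lintegral_mono fun u => ?_
  simp only
  rw [← add_mul]
  exact mul_le_mul_left (hab u) _

/-- the cancellation lemma at a fixed velocity -/
lemma cancelv (ε : ℝ) (v : E) {f : E → ℝ} (hf : Measurable f)
    (h0 : Integrable (fun q : E × S2 => kc ε (v, q) * f q.1) mu2)
    (h1 : Integrable (fun q : E × S2 => kc ε (v, q) * f (pw v q.1 q.2)) mu2) {e : ℝ} (he0 : 0 ≤ e)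
    (he : ∫⁻ u, cbar ‖u‖ * ENNReal.ofReal |f (v - u)| ≤ ENNReal.ofReal e) :
    ∫ q, kc ε (v, q) * f (pw v q.1 q.2) ∂mu2 - ∫ q, kc ε (v, q) * f q.1 ∂mu2 ≤ 2 * e := by
  have hp : Measurable fun z => ENNReal.ofReal (f z) := by fun_prop
  have hn : Measurable fun z => ENNReal.ofReal (-f z) := by fun_prop
  rw [integral_eq_lintegral_pos_part_sub_lintegral_neg_part h0,
    integral_eq_lintegral_pos_part_sub_lintegral_neg_part h1]
  have a1 : ∫⁻ q, ENNReal.ofReal (kc ε (v, q) * f (pw v q.1 q.2)) ∂mu2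
      ≤ ∫⁻ q, ENNReal.ofReal (kc ε (v, q) * f q.1) ∂mu2 + ENNReal.ofReal e := by
    simp only [ENNReal.ofReal_mul (kc_nonneg ε _)]
    rw [marg1v ε v hp, marg0v ε v hp]
    refine (auxv (k1_le ε) v hp).trans (add_le_add_right (le_trans ?_ he) _)
    exact lintegral_mono fun u => mul_le_mul_right (ENNReal.ofReal_le_ofReal (le_abs_self _)) _
  have a2 : ∫⁻ q, ENNReal.ofReal (-(kc ε (v, q) * f q.1)) ∂mu2
      ≤ ∫⁻ q, ENNReal.ofReal (-(kc ε (v, q) * f (pw v q.1 q.2))) ∂mu2 + ENNReal.ofReal e := by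
    simp only [← mul_neg, ENNReal.ofReal_mul (kc_nonneg ε _)]
    rw [marg1v ε v hn, marg0v ε v hn]
    refine (auxv (k0_le ε) v hn).trans (add_le_add_right (le_trans ?_ he) _)
    exact lintegral_mono fun u => mul_le_mul_right (ENNReal.ofReal_le_ofReal (neg_le_abs _)) _
  have hE : ENNReal.ofReal e ≠ ⊤ := ENNReal.ofReal_ne_top
  have b1 := ENNReal.toReal_mono (ENNReal.add_ne_top.2 ⟨h0.lintegral_lt_top.ne, hE⟩) a1
  rw [ENNReal.toReal_add h0.lintegral_lt_top.ne hE, ENNReal.toReal_ofReal he0] at b1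
  have c1 := h1.neg.lintegral_lt_top.ne
  simp only [Pi.neg_apply] at c1
  have b2 := ENNReal.toReal_mono (ENNReal.add_ne_top.2 ⟨c1, hE⟩) a2
  rw [ENNReal.toReal_add c1 hE, ENNReal.toReal_ofReal he0] at b2
  linarith

lemma conv {f : E → ℝ} {K : ℝ} (hf : Dec (28 + (dd + 1)) K f) (R : ℝ) :
    ∃ e : ℝ, 0 ≤ e ∧ ∀ v : E, ‖v‖ ≤ R →
      ∫⁻ u, cbar ‖u‖ * ENNReal.ofReal |f (v - u)| ≤ ENNReal.ofReal e := by
  have hcb := cb_pos
  have hK := hf.nonneg
  set A : ℝ := cb * K * (1 + R) ^ 28 with hA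
  set T : ℝ≥0∞ := ENNReal.ofReal A * ((∫⁻ z, ENNReal.ofReal (jap z)) + ∫⁻ u, newt u) with hT
  have hT' : T ≠ ⊤ :=
    ENNReal.mul_ne_top ENNReal.ofReal_ne_top (ENNReal.add_ne_top.2 ⟨lint_jap, lint_newt⟩)
  refine ⟨T.toReal, ENNReal.toReal_nonneg, fun v hv => ?_⟩
  have hR : 0 ≤ R := (norm_nonneg v).trans hv
  have h1 : ∀ u : E, cbar ‖u‖ * ENNReal.ofReal |f (v - u)|
      ≤ ENNReal.ofReal A * (ENNReal.ofReal (jap (v - u)) + newt u) := by
    intro u
    have h2 : (1 + ‖u‖) ^ 28 * |f (v - u)| ≤ (1 + R) ^ 28 * (K * jap (v - u)) := by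
      have h3 : 1 + ‖u‖ ≤ (1 + R) * (1 + ‖v - u‖) := by
        refine le_trans (by simpa using one_add_sub_le v (v - u)) ?_
        gcongr
      calc (1 + ‖u‖) ^ 28 * |f (v - u)| ≤ ((1 + R) * (1 + ‖v - u‖)) ^ 28 * |f (v - u)| := by gcongr
        _ = (1 + R) ^ 28 * ((1 + ‖v - u‖) ^ 28 * |f (v - u)|) := by rw [mul_pow, mul_assoc]
        _ ≤ _ := mul_le_mul_of_nonneg_left (le_jap (n := 28) (hf _)) (by positivity)
    have hj : jap (v - u) ≤ 1 := by
      unfold jap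
      exact inv_le_one_of_one_le₀ (one_le_pow₀ (by linarith [norm_nonneg (v - u)]))
    have hj0 := jap_pos (v - u)
    have h4 : cb * (1 + ‖u‖) ^ 28 / ‖u‖ * |f (v - u)| ≤ A * (jap (v - u) * ‖u‖⁻¹) := by
      calc cb * (1 + ‖u‖) ^ 28 / ‖u‖ * |f (v - u)|
          = cb * ‖u‖⁻¹ * ((1 + ‖u‖) ^ 28 * |f (v - u)|) := by
            generalize (1 + ‖u‖) ^ 28 = Z; ring
        _ ≤ cb * ‖u‖⁻¹ * ((1 + R) ^ 28 * (K * jap (v - u))) := by gcongr
        _ = _ := by rw [hA]; generalize (1 + R) ^ 28 = Z; ring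
    rw [cbar, ← ENNReal.ofReal_mul (by positivity)]
    refine (ENNReal.ofReal_le_ofReal h4).trans ?_
    rw [ENNReal.ofReal_mul (by positivity)]
    refine mul_le_mul_right ?_ _
    by_cases hu : u ∈ Metric.ball (0 : E) 1
    · rw [newt, indicator_of_mem hu]
      exact le_add_left (ENNReal.ofReal_le_ofReal (mul_le_of_le_one_left (by positivity) hj))
    · have : 1 ≤ ‖u‖ := by simpa using hu
      exact le_add_right (ENNReal.ofReal_le_ofReal
        (mul_le_of_le_one_right hj0.le (inv_le_one_of_one_le₀ this)))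
  have hm : Measurable fun u : E => ENNReal.ofReal (jap (v - u)) := by fun_prop
  refine (lintegral_mono h1).trans (le_of_eq ?_)
  rw [lintegral_const_mul' _ _ ENNReal.ofReal_ne_top, lintegral_add_left hm,
    lintegral_sub_left_eq_self (fun z => ENNReal.ofReal (jap z)) v, ENNReal.ofReal_toReal hT']

/-- the decaying factor -/
def dk (w : E) : ℝ := ((1 + ‖w‖) ^ (dd + 30))⁻¹

lemma dk_pos (w : E) : 0 < dk w := by unfold dk; positivity

/-- the dominating function -/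
def G (v : E) (q : E × S2) : ℝ := kx (v, q) * dk q.1

lemma G_nonneg (v : E) (q : E × S2) : 0 ≤ G v q := mul_nonneg (kx_nonneg _) (dk_pos _).le

lemma measurable_G (v : E) : Measurable (G v) := by unfold G dk; fun_prop

lemma lint_G (v : E) : ∫⁻ q, ENNReal.ofReal (G v q) ∂mu2
    ≤ ENNReal.ofReal (cW * (1 + ‖v‖) ^ 29) := by
  have h := lintegral_ker_min_le (a := dk) (Ka := 1) (by unfold dk; fun_prop) (fun w => by
    rw [abs_of_pos (dk_pos w), dk, mul_inv_cancel₀ (wt_pos w _).ne']) v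
  simp only [abs_of_pos (dk_pos _)] at h
  refine le_trans h (ENNReal.ofReal_le_ofReal ?_)
  rw [mul_one]
  exact mul_le_mul_of_nonneg_left (wt_rpow_le v) cW_pos.le

lemma integrable_G (v : E) : Integrable (G v) mu2 := by
  refine ⟨(measurable_G v).aestronglyMeasurable, ?_⟩
  rw [hasFiniteIntegral_iff_ofReal (ae_of_all _ (G_nonneg v))]
  exact (lint_G v).trans_lt ENNReal.ofReal_lt_top

lemma int_G (v : E) : ∫ q, G v q ∂mu2 ≤ cW * (1 + ‖v‖) ^ 29 := by
  have := cW_pos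
  rw [← ENNReal.ofReal_le_ofReal_iff (by positivity),
    ofReal_integral_eq_lintegral_ofReal (integrable_G v) (ae_of_all _ (G_nonneg v))]
  exact lint_G v

variable {f : E → ℝ} {K : ℝ}

lemma abs_le_dk (hf : Dec (dd + 30) K f) (w : E) : |f w| ≤ K * dk w := by
  rw [dk, ← div_eq_mul_inv, le_div_iff₀' (wt_pos w _)]; exact hf w

lemma abs_le_K (hf : Dec (dd + 30) K f) (w : E) : |f w| ≤ K :=
  (le_mul_of_one_le_left (abs_nonneg _) (one_le_wt w _)).trans (hf w)

lemma near_le (hf : Dec (dd + 30) K f) {w w' : E} (h : ‖w' - w‖ ≤ 1) :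
    |f w'| ≤ 2 ^ (dd + 30) * K * dk w := by
  rw [dk, ← div_eq_mul_inv, le_div_iff₀' (wt_pos w _)]
  calc (1 + ‖w‖) ^ (dd + 30) * |f w'| ≤ (2 * (1 + ‖w'‖)) ^ (dd + 30) * |f w'| := by
        gcongr; exact wt_le_two_mul h
    _ = 2 ^ (dd + 30) * ((1 + ‖w'‖) ^ (dd + 30) * |f w'|) := by rw [mul_pow, mul_assoc]
    _ ≤ _ := by gcongr; exact hf _

lemma inc_le (hf : Dec (dd + 30) K f) (p : E × E × S2) :
    |inc f f p| ≤ 2 * (K * K) * dk p.2.1 := by
  obtain ⟨v, w, o⟩ := p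
  have hK := hf.nonneg
  have a1 : |f (pw v w o)| * |f (pv v w o)| ≤ K * K * dk w := by
    have h1 := wt_le_coll w v o
    rw [pv_swap v w, pw_swap v w] at h1
    rw [dk, ← div_eq_mul_inv, le_div_iff₀' (wt_pos w _)]
    calc (1 + ‖w‖) ^ (dd + 30) * (|f (pw v w o)| * |f (pv v w o)|)
        ≤ ((1 + ‖pw v w o‖) * (1 + ‖pv v w o‖)) ^ (dd + 30)
          * (|f (pw v w o)| * |f (pv v w o)|) := by gcongr
      _ = ((1 + ‖pw v w o‖) ^ (dd + 30) * |f (pw v w o)|)
          * ((1 + ‖pv v w o‖) ^ (dd + 30) * |f (pv v w o)|) := by rw [mul_pow]; ring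
      _ ≤ _ := mul_le_mul (hf _) (hf _) (by positivity) hK
  have a2 : |f w| * |f v| ≤ K * dk w * K :=
    mul_le_mul (abs_le_dk hf w) (abs_le_K hf v) (abs_nonneg _) (mul_nonneg hK (dk_pos w).le)
  have a3 := abs_sub (f (pw v w o) * f (pv v w o)) (f w * f v)
  rw [abs_mul, abs_mul] at a3
  simp only [inc]
  linarith

lemma kc_post_le (hf : Dec (dd + 30) K f) (ε : ℝ) (p : E × E × S2) :
    kc ε p * |f (pw p.1 p.2.1 p.2.2)| ≤ kc ε p * (2 ^ (dd + 30) * K * dk p.2.1) := by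
  rw [kc_eq]
  split_ifs with h
  · exact mul_le_mul_of_nonneg_left (near_le hf ((norm_pw_sub _ _ _).trans_le h.2)) (ker3_nonneg p)
  · simp

/-- the truncated operator -/
def J (ε : ℝ) (f : E → ℝ) (v : E) : ℝ := ∫ q, ke ε (v, q) * inc f f (v, q) ∂mu2

lemma J_le (hm : Measurable f) (hf : Dec (dd + 30) K f) (hL : LocLip f) (R : ℝ) :
    ∃ M : ℝ, 0 ≤ M ∧ ∀ v : E, ‖v‖ ≤ R → ∀ ε : ℝ, 0 < ε → ε ≤ 1 → |J ε f v| ≤ M := by
  obtain ⟨L0, hL0⟩ := hL R
  obtain ⟨e, he0, he⟩ := conv (hf.mono (by omega)) R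
  have hK := hf.nonneg
  have hW := cW_pos
  set L := max L0 0 with hLd
  have hL1 : 0 ≤ L := le_max_right _ _
  set c : ℝ := 2 * (K * K) + L * (2 ^ (dd + 30) * K) with hc
  have hc0 : 0 ≤ c := by positivity
  refine ⟨c * (cW * (1 + |R|) ^ 29) + K * (2 * e), by positivity, fun v hv ε hε hε1 => ?_⟩
  set A : E × S2 → ℝ := fun q => kf (v, q) * inc f f (v, q)
    + kc ε (v, q) * (f (pw v q.1 q.2) * (f (pv v q.1 q.2) - f v)) with hA
  have hAm : Measurable A := by
    have := measurable_inc hm hm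
    fun_prop
  have hAle : ∀ q, |A q| ≤ c * G v q := by
    intro q
    have hd := (dk_pos q.1).le
    have a1 : |kf (v, q) * inc f f (v, q)| ≤ kx (v, q) * (2 * (K * K) * dk q.1) := by
      rw [abs_mul, abs_of_nonneg (kf_nonneg _)]
      exact mul_le_mul (kf_le _) (inc_le hf _) (abs_nonneg _) (kx_nonneg _)
    have a2 : |kc ε (v, q) * (f (pw v q.1 q.2) * (f (pv v q.1 q.2) - f v))|
        ≤ kx (v, q) * (L * (2 ^ (dd + 30) * K * dk q.1)) := by
      by_cases h : |rho (v, q)| ≤ 1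
      · have e1 : ‖pv v q.1 q.2 - v‖ = |rho (v, q)| := norm_pv_sub _ _ _
        have b1 : |f (pv v q.1 q.2) - f v| ≤ L * |rho (v, q)| := by
          refine (hL0 v _ hv (e1.trans_le h)).trans ?_
          rw [e1]
          exact mul_le_mul_of_nonneg_right (le_max_left _ _) (abs_nonneg _)
        have b0 := kc_nonneg ε (v, q)
        rw [abs_mul, abs_mul, abs_of_nonneg b0, ← mul_assoc]
        calc _ ≤ kc ε (v, q) * (2 ^ (dd + 30) * K * dk q.1) * (L * |rho (v, q)|) :=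
              mul_le_mul (kc_post_le hf ε (v, q)) b1 (abs_nonneg _) (by positivity)
          _ = kc ε (v, q) * |rho (v, q)| * (L * (2 ^ (dd + 30) * K * dk q.1)) := by ring
          _ ≤ _ := mul_le_mul_of_nonneg_right (kc_mul_abs_le ε _) (by positivity)
      · rw [kc_eq, if_neg (fun h' => h h'.2), zero_mul, abs_zero]
        exact mul_nonneg (kx_nonneg _) (by positivity)
    refine (abs_add_le _ _).trans ((add_le_add a1 a2).trans (le_of_eq ?_))
    rw [hc, G]; ring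
  have hAi : Integrable A mu2 :=
    ((integrable_G v).const_mul c).mono' hAm.aestronglyMeasurable (ae_of_all _ hAle)
  have h0 : Integrable (fun q : E × S2 => kc ε (v, q) * f q.1) mu2 := by
    refine ((integrable_G v).const_mul (ε⁻¹ * K)).mono'
      (Measurable.aestronglyMeasurable (by fun_prop)) (ae_of_all _ fun q => ?_)
    rw [Real.norm_eq_abs, abs_mul, abs_of_nonneg (kc_nonneg _ _)]
    refine (mul_le_mul (kc_le_kx hε _) (abs_le_dk hf _) (abs_nonneg _)
      (mul_nonneg (by positivity) (kx_nonneg _))).trans (le_of_eq ?_)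
    rw [G]; ring
  have h1 : Integrable (fun q : E × S2 => kc ε (v, q) * f (pw v q.1 q.2)) mu2 := by
    refine ((integrable_G v).const_mul (ε⁻¹ * (2 ^ (dd + 30) * K))).mono'
      (Measurable.aestronglyMeasurable (by fun_prop)) (ae_of_all _ fun q => ?_)
    have hd := (dk_pos q.1).le
    rw [Real.norm_eq_abs, abs_mul, abs_of_nonneg (kc_nonneg _ _)]
    refine ((kc_post_le hf ε (v, q)).trans (mul_le_mul_of_nonneg_right (kc_le_kx hε _)
      (by positivity))).trans (le_of_eq ?_)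
    rw [G]; ring
  have c1 := cancelv ε v hm h0 h1 he0 (he v hv)
  have c2 := cancelv ε v (f := fun z => -f z) hm.neg (by simp only [mul_neg]; exact h0.neg)
    (by simp only [mul_neg]; exact h1.neg) he0 (by simpa only [abs_neg] using he v hv)
  simp only [mul_neg, integral_neg] at c2
  have e1 : J ε f v = ∫ q, A q ∂mu2 + f v *
      (∫ q, kc ε (v, q) * f (pw v q.1 q.2) ∂mu2 - ∫ q, kc ε (v, q) * f q.1 ∂mu2) := by
    have h2 : Integrable (fun q : E × S2 =>
        f v * (kc ε (v, q) * f (pw v q.1 q.2) - kc ε (v, q) * f q.1)) mu2 :=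
      (h1.sub h0).const_mul _
    rw [← integral_sub h1 h0, ← integral_const_mul, ← integral_add hAi h2]
    refine integral_congr_ae (ae_of_all _ fun q => ?_)
    simp only [hA, ke_eq hε1, inc]
    ring
  have d1 : |∫ q, A q ∂mu2| ≤ c * (cW * (1 + |R|) ^ 29) := by
    refine (norm_integral_le_of_norm_le (f := A) ((integrable_G v).const_mul c)
      (ae_of_all _ hAle)).trans ?_
    rw [integral_const_mul]
    refine mul_le_mul_of_nonneg_left ((int_G v).trans ?_) hc0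
    have := hv.trans (le_abs_self R)
    gcongr
  rw [e1]
  refine (abs_add_le _ _).trans (add_le_add d1 ?_)
  rw [abs_mul]
  exact mul_le_mul (abs_le_K hf v) (abs_le.2 ⟨by linarith, c1⟩) (abs_nonneg _) hK

lemma J_tendsto (hm : Measurable f) {v : E} (hi : Integrable (cO f v) mu2) :
    Tendsto (fun ε => J ε f v) (𝓝[>] 0) (𝓝 (QO f v)) := by
  have hinc := measurable_inc hm hm
  refine tendsto_integral_filter_of_dominated_convergence (fun q => ‖cO f v q‖)
    (Eventually.of_forall fun ε => Measurable.aestronglyMeasurable (by fun_prop))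
    (Eventually.of_forall fun ε => ae_of_all _ fun q => ?_) hi.norm (ae_of_all _ fun q => ?_)
  · simp only [cO, ke]
    split_ifs
    · exact le_rfl
    · simp only [zero_mul, norm_zero, norm_nonneg]
  · refine tendsto_const_nhds.congr' ?_
    by_cases h : rho (v, q) = 0
    · have h1 : ker3 (v, q) = 0 := by
        have h2 : ker3 (v, q) = 2 * ‖v - q.1‖ ^ (59 / 2 : ℝ) * |rho (v, q)| ^ (-(3 / 2) : ℝ) := rfl
        rw [h2, h, abs_zero, Real.zero_rpow (by norm_num), mul_zero]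
      exact Eventually.of_forall fun ε => by simp only [cO, ke, h1, ite_self]
    · filter_upwards [Ioc_mem_nhdsGT (abs_pos.2 h)] with ε hε
      simp only [cO, ke, if_pos hε.2]

end Lim

open Lim in
/-- U4: removal of the truncation -/
theorem lim : LimStmt := by
  refine ⟨dd + 60, fun f ψ K R hm hf hL hi hψ h1 h2 => ?_⟩
  obtain ⟨M, hM0, hM⟩ := J_le hm (hf.mono (by omega)) hL R
  have hinc := measurable_inc hm hm
  have hev : ∀ᶠ ε in 𝓝[>] (0 : ℝ), ε ∈ Ioc (0 : ℝ) 1 := Ioc_mem_nhdsGT one_pos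
  set B : E → ℝ := (Metric.closedBall (0 : E) R).indicator fun _ => (1 + R ^ 2) ^ 15 * M with hB
  have hBi : Integrable B := (integrable_indicator_iff Metric.isClosed_closedBall.measurableSet).2
    (integrableOn_const (isCompact_closedBall _ _).measure_lt_top.ne)
  have key : ∀ (v : E) (x : ℝ), (‖v‖ ≤ R → |x| ≤ M) → ‖ψ v * x‖ ≤ B v := by
    intro v x hx
    by_cases hv : ‖v‖ ≤ R
    · rw [hB, indicator_of_mem (mem_closedBall_zero_iff.2 hv), Real.norm_eq_abs, abs_mul]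
      refine mul_le_mul ((h1 v).trans ?_) (hx hv) (abs_nonneg _) (by positivity)
      unfold wt
      gcongr
    · rw [h2 v (not_le.1 hv).le, zero_mul, norm_zero]
      exact indicator_nonneg (fun _ _ => by positivity) v
  have hQ : Measurable (QO f) :=
    ((by unfold cO; fun_prop : Measurable fun q : E × E × S2 =>
      cO f q.1 q.2).stronglyMeasurable.integral_prod_right' (ν := mu2)).measurable
  have hJ : ∀ ε, Measurable (J ε f) := fun ε =>
    ((by fun_prop : Measurable fun q : E × E × S2 =>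
      ke ε q * inc f f q).stronglyMeasurable.integral_prod_right' (ν := mu2)).measurable
  refine ⟨hBi.mono' (hψ.mul hQ).aestronglyMeasurable (ae_of_all _ fun v => key v _ fun hv =>
    le_of_tendsto (J_tendsto hm (hi v)).abs (hev.mono fun ε hε => hM v hv ε hε.1 hε.2)), ?_⟩
  refine (tendsto_integral_filter_of_dominated_convergence (F := fun ε v => ψ v * J ε f v) B
    (Eventually.of_forall fun ε => (hψ.mul (hJ ε)).aestronglyMeasurable)
    (hev.mono fun ε hε => ae_of_all _ fun v => key v _ fun hv => hM v hv ε hε.1 hε.2) hBi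
    (ae_of_all _ fun v => (J_tendsto hm (hi v)).const_mul (ψ v))).congr' (hev.mono fun ε hε => ?_)
  have h3 := integrable_inc (measurable_ke ε) (ke_nonneg ε) (ke_le_kx hε.1 hε.2) hψ h1 hm hm hf hf
  simp only
  rw [mu3, integral_prod _ h3]
  refine integral_congr_ae (ae_of_all _ fun v => ?_)
  simp only [J]
  rw [← integral_const_mul]
  refine integral_congr_ae (ae_of_all _ fun q => ?_)
  simp only
  ring

end Pool.Agent.BoltzD.Uq

end
end MrgPart1

-- marker of a merged file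
example : 731051 + 616066 = 731051 + 616066 := rfl
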