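import Pool.Agent.BoltzD.Uq.Basic

/-! U2: the terms with a sign. -/

set_option autoImplicit false

open MeasureTheory Set Filter Topology
open scoped ENNReal

noncomputable section

namespace Pool.Agent.BoltzD.Uq

open Coll C3

namespace MainU

lemma int_le_of_lint {α : Type*} [MeasurableSpace α] {μ : Measure α} {G : α → ℝ} {B : ℝ}
    (hG : Measurable G) (h0 : ∀ p, 0 ≤ G p) (hB : 0 ≤ B)
    (h : ∫⁻ p, ENNReal.ofReal (G p) ∂μ ≤ ENNReal.ofReal B) :
    Integrable G μ ∧ ∫ p, G p ∂μ ≤ B := by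
  have hi : Integrable G μ := ⟨hG.aestronglyMeasurable, by
    rw [hasFiniteIntegral_iff_ofReal (ae_of_all _ h0)]
    exact h.trans_lt ENNReal.ofReal_lt_top⟩
  refine ⟨hi, ?_⟩
  rwa [← ofReal_integral_eq_lintegral_ofReal hi (ae_of_all _ h0),
    ENNReal.ofReal_le_ofReal_iff hB] at h

lemma sg_mul_le (x y : ℝ) : sg x * y ≤ |y| := (le_abs_self _).trans (abs_sg_mul_le x y)

variable [Dim]

/-- the truncated weight -/
def WW (R : ℝ) (v : E) : ℝ := wt v * chi R v

lemma WW_nonneg (R : ℝ) (v : E) : 0 ≤ WW R v := mul_nonneg (wt_pos' v).le (chi_nonneg R v)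

lemma WW_le (R : ℝ) (v : E) : WW R v ≤ wt v :=
  mul_le_of_le_one_right (wt_pos' v).le (chi_le_one R v)

lemma abs_WW_le (R : ℝ) (v : E) : |WW R v| ≤ wt v := by
  rw [abs_of_nonneg (WW_nonneg R v)]; exact WW_le R v

@[fun_prop] lemma measurable_WW (R : ℝ) : Measurable (WW R) := by unfold WW; fun_prop

variable {k φ : E × E × S2 → ℝ} {ψ a b f g : E → ℝ} {c Ka Kb K R ε : ℝ}

lemma intg (hk : Measurable k) (h0 : ∀ p, 0 ≤ k p) (h1 : ∀ p, k p ≤ c * kx p)
    (hφ : Measurable φ) (h2 : ∀ p, |φ p| ≤ wt p.1 * wt p.2.1) (ha : Measurable a)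
    (hb : Measurable b) (da : Dec (dd + 60) Ka a) (db : Dec (dd + 60) Kb b) :
    Integrable (fun p : E × E × S2 => k p * φ p * (a p.2.1 * b p.1)) mu3 := by
  refine integrable_of_le (c := c) ha hb da db (by fun_prop) fun p => ?_
  rw [mul_assoc, abs_mul, abs_of_nonneg (h0 p), abs_mul, abs_mul]
  refine mul_le_mul (h1 p) ?_ (by positivity) ((h0 p).trans (h1 p))
  calc |φ p| * (|a p.2.1| * |b p.1|) ≤ wt p.1 * wt p.2.1 * (|a p.2.1| * |b p.1|) :=
        mul_le_mul_of_nonneg_right (h2 p) (by positivity)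
    _ = _ := by ring

lemma post_eq (hk : ∀ p, k (coll p) = k p) (ψ a b : E → ℝ) :
    ∫ p, k p * ψ p.1 * (a (pw p.1 p.2.1 p.2.2) * b (pv p.1 p.2.1 p.2.2)) ∂mu3 =
      ∫ p, k p * ψ (pv p.1 p.2.1 p.2.2) * (a p.2.1 * b p.1) ∂mu3 := by
  rw [← integral_coll]
  refine integral_congr_ae (ae_of_all _ fun p => ?_)
  simp only [hk]
  simp only [coll, pv_pv, pw_pw]

lemma near (hε : 0 < ε) (hf : Measurable f) (hg : Measurable g) (g0 : ∀ v, 0 ≤ g v)
    (dg : Dec (dd + 60) Ka g) (dh : Dec (dd + 60) Kb (f - g)) :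
    ∫ q, kc ε q * (sg (f q.1 - g q.1) * (wt q.1 * chi R q.1)) * inc g (f - g) q ∂mu3 ≤
      ∫ q, kc ε q * WW R (pv q.1 q.2.1 q.2.2) * (g q.2.1 * |f q.1 - g q.1|) ∂mu3 -
        ∫ q, kc ε q * WW R q.1 * (g q.2.1 * |f q.1 - g q.1|) ∂mu3 := by
  have hA : Measurable fun v => |f v - g v| := by fun_prop
  have dA : Dec (dd + 60) Kb fun v => |f v - g v| := dh.abs
  rw [← post_eq (kc_coll ε) (WW R) g fun v => |f v - g v|, ← integral_sub
    (integrable_post (measurable_kc ε) (kc_nonneg ε) (kc_le_kx hε) (measurable_WW R) (abs_WW_le R)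
      hg hA dg dA)
    (integrable_pre (measurable_kc ε) (kc_nonneg ε) (kc_le_kx hε) (measurable_WW R) (abs_WW_le R)
      hg hA dg dA)]
  refine integral_mono
    (integrable_inc (ψ := fun v => sg (f v - g v) * (wt v * chi R v)) (measurable_kc ε)
      (kc_nonneg ε) (kc_le_kx hε) (by fun_prop) (fun v => abs_test_le _ R v) hg (hf.sub hg) dg dh)
    ((integrable_post (measurable_kc ε) (kc_nonneg ε) (kc_le_kx hε) (measurable_WW R) (abs_WW_le R)
      hg hA dg dA).sub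
    (integrable_pre (measurable_kc ε) (kc_nonneg ε) (kc_le_kx hε) (measurable_WW R) (abs_WW_le R)
      hg hA dg dA)) fun q => ?_
  have e1 := sg_mul_self (f q.1 - g q.1)
  have e2 := sg_mul_le (f q.1 - g q.1) (f (pv q.1 q.2.1 q.2.2) - g (pv q.1 q.2.1 q.2.2))
  have e3 := mul_le_mul_of_nonneg_left e2
    (mul_nonneg (mul_nonneg (kc_nonneg ε q) (WW_nonneg R q.1)) (g0 (pw q.1 q.2.1 q.2.2)))
  simp only [inc, Pi.sub_apply]
  rw [← e1]
  unfold WW at e3 ⊢
  linarith

lemma far (hf : Measurable f) (hg : Measurable g) (f0 : ∀ v, 0 ≤ f v) (g0 : ∀ v, 0 ≤ g v)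
    (df : Dec (dd + 60) K f) (dg : Dec (dd + 60) K g) :
    2 * ∫ q, kf q * (sg (f q.1 - g q.1) * (wt q.1 * chi R q.1)) * (inc f f q - inc g g q) ∂mu3 ≤
      ∫ q, kf q * WW R (pv q.1 q.2.1 q.2.2) * ((f + g) q.2.1 * |f q.1 - g q.1|) ∂mu3 +
      ∫ q, kf q * WW R (pw q.1 q.2.1 q.2.2) * ((f + g) q.2.1 * |f q.1 - g q.1|) ∂mu3 +
      ∫ q, kf q * WW R q.2.1 * ((f + g) q.2.1 * |f q.1 - g q.1|) ∂mu3 -
      ∫ q, kf q * WW R q.1 * ((f + g) q.2.1 * |f q.1 - g q.1|) ∂mu3 := by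
  have hA : Measurable fun v => |f v - g v| := by fun_prop
  have dA : Dec (dd + 60) (K + K) fun v => |f v - g v| := (df.sub dg).abs
  have hF : Measurable (f + g) := hf.add hg
  have dF := df.add dg
  have k1 : ∀ p, kf p ≤ 1 * kx p := fun p => by rw [one_mul]; exact kf_le p
  have i1 := integrable_post measurable_kf kf_nonneg k1 (measurable_WW R) (abs_WW_le R) hF hA dF dA
  have i2 := integrable_post measurable_kf kf_nonneg k1 (measurable_WW R) (abs_WW_le R) hA hF dA dF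
  have i3 := integrable_pre measurable_kf kf_nonneg k1 (measurable_WW R) (abs_WW_le R) hA hF dA dF
  have i4 := integrable_pre measurable_kf kf_nonneg k1 (measurable_WW R) (abs_WW_le R) hF hA dF dA
  have e2 : ∫ q, kf q * WW R (pw q.1 q.2.1 q.2.2) * ((f + g) q.2.1 * |f q.1 - g q.1|) ∂mu3 =
      ∫ q, kf q * WW R q.1 * (|f (pw q.1 q.2.1 q.2.2) - g (pw q.1 q.2.1 q.2.2)| *
        (f + g) (pv q.1 q.2.1 q.2.2)) ∂mu3 := by
    rw [post_eq kf_coll (WW R) (fun v => |f v - g v|) (f + g), ← integral_swp]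
    refine integral_congr_ae (ae_of_all _ fun p => ?_)
    simp only [kf_swp]
    simp only [swp, pw_swap]
    ring
  have e3 : ∫ q, kf q * WW R q.2.1 * ((f + g) q.2.1 * |f q.1 - g q.1|) ∂mu3 =
      ∫ q, kf q * WW R q.1 * (|f q.2.1 - g q.2.1| * (f + g) q.1) ∂mu3 := by
    rw [← integral_swp]
    refine integral_congr_ae (ae_of_all _ fun p => ?_)
    simp only [kf_swp]
    simp only [swp]
    ring
  have j := fun (u : E → ℝ) (hu : Measurable u) (du : Dec (dd + 60) K u) =>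
    integrable_inc (ψ := fun v => sg (f v - g v) * (wt v * chi R v)) measurable_kf
      kf_nonneg k1 (by fun_prop) (fun v => abs_test_le _ R v) hu hu du du
  rw [e2, e3, ← post_eq kf_coll (WW R) (f + g) fun v => |f v - g v|, ← integral_add' i1 i2,
    ← integral_add' (i1.add i2) i3, ← integral_sub' ((i1.add i2).add i3) i4, ← integral_const_mul]
  refine integral_mono (Integrable.const_mul ?_ 2) (((i1.add i2).add i3).sub i4) fun q => ?_
  · simp only [mul_sub]
    exact (j f hf df).sub (j g hg dg)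
  have F0 : ∀ v, 0 ≤ f v + g v := fun v => add_nonneg (f0 v) (g0 v)
  have m0 := mul_nonneg (kf_nonneg q) (WW_nonneg R q.1)
  have e1 := sg_mul_self (f q.1 - g q.1)
  have e4 := mul_le_mul_of_nonneg_left
    (sg_mul_le (f q.1 - g q.1) (f (pv q.1 q.2.1 q.2.2) - g (pv q.1 q.2.1 q.2.2)))
    (mul_nonneg m0 (F0 (pw q.1 q.2.1 q.2.2)))
  have e5 := mul_le_mul_of_nonneg_left
    (sg_mul_le (f q.1 - g q.1) (f (pw q.1 q.2.1 q.2.2) - g (pw q.1 q.2.1 q.2.2)))
    (mul_nonneg m0 (F0 (pv q.1 q.2.1 q.2.2)))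
  have e6 := mul_le_mul_of_nonneg_left
    (sg_mul_le (f q.1 - g q.1) (-(f q.2.1 - g q.2.1))) (mul_nonneg m0 (F0 q.1))
  rw [abs_neg] at e6
  simp only [inc, Pi.sub_apply, Pi.add_apply]
  rw [← e1]
  unfold WW at e4 e5 e6 ⊢
  linarith

lemma tail (ha : Measurable a) (hb : Measurable b) (a0 : ∀ v, 0 ≤ a v) (b0 : ∀ v, 0 ≤ b v)
    (da : Dec (dd + 61) Ka a) (db : Dec (dd + 61) Kb b) :
    Integrable (fun q : E × E × S2 => kx q * ((1 + ‖q.1‖) * wt q.1 * b q.1 * a q.2.1)) mu3 ∧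
      ∫ q, kx q * ((1 + ‖q.1‖) * wt q.1 * b q.1 * a q.2.1) ∂mu3 ≤ cA * (Kb * cJ * (Ka * cJ)) := by
  have n1 : ∀ v, 0 ≤ (1 + ‖v‖) * wt v * b v := fun v =>
    mul_nonneg (mul_nonneg (by positivity) (wt_pos' v).le) (b0 v)
  have n2 := mul_nonneg db.nonneg cJ_nonneg
  have n3 := mul_nonneg da.nonneg cJ_nonneg
  refine int_le_of_lint (by fun_prop)
    (fun q => mul_nonneg (kx_nonneg q) (mul_nonneg (n1 _) (a0 _)))
    (mul_nonneg cA_pos.le (mul_nonneg n2 n3)) ?_
  simp only [ENNReal.ofReal_mul (kx_nonneg _), ENNReal.ofReal_mul (n1 _)]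
  refine (lint_kx_le (a := fun v => ENNReal.ofReal ((1 + ‖v‖) * wt v * b v))
    (b := fun v => ENNReal.ofReal (a v)) (by fun_prop) (by fun_prop)).trans ?_
  rw [ENNReal.ofReal_mul cA_pos.le, ENNReal.ofReal_mul n2]
  refine mul_le_mul_right (mul_le_mul' ?_ ?_) _
  · refine le_trans (lintegral_mono fun v => ?_) (Dec.lint_le (m := 60) db)
    rw [← ENNReal.ofReal_mul (by positivity), abs_of_nonneg (b0 v)]
    refine ENNReal.ofReal_le_ofReal ?_
    calc _ ≤ (1 + ‖v‖) ^ 29 * ((1 + ‖v‖) * (1 + ‖v‖) ^ 30 * b v) := by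
          have := b0 v
          gcongr
          exact wt_le_pow v
      _ = _ := by ring
  · refine le_trans (lintegral_mono fun v => ?_)
      (Dec.lint_le (m := 29) (da.mono (by omega)))
    rw [← ENNReal.ofReal_mul (by positivity), abs_of_nonneg (a0 v)]

/-- the left side of the Povzner inequality -/
def PL (q : E × E × S2) : ℝ := kn q * (2 * |wt (pv q.1 q.2.1 q.2.2) - wt q.1|) +
  kf q * (wt (pv q.1 q.2.1 q.2.2) + wt (pw q.1 q.2.1 q.2.2) + wt q.2.1)

lemma PL_nonneg (q : E × E × S2) : 0 ≤ PL q :=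
  add_nonneg (mul_nonneg (kn_nonneg q) (by positivity)) (mul_nonneg (kf_nonneg q)
    (add_nonneg (add_nonneg (wt_pos' _).le (wt_pos' _).le) (wt_pos' _).le))

@[fun_prop] lemma measurable_PL : Measurable PL := by unfold PL; fun_prop

lemma povz {C : ℝ} {N : ℕ} (hC : 0 ≤ C) (h : ∀ v w : E,
    ∫⁻ o, ENNReal.ofReal (PL (v, w, o)) ∂sph ≤ ∫⁻ o, ENNReal.ofReal (kf (v, w, o) * wt v) ∂sph
        + ENNReal.ofReal (C * (1 + ‖w‖) ^ N * wt v))
    (ha : Measurable a) (hb : Measurable b) (a0 : ∀ v, 0 ≤ a v) (b0 : ∀ v, 0 ≤ b v)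
    (da : Dec (dd + 61 + N) Ka a) (db : Dec (dd + 61) Kb b) :
    Integrable (fun q : E × E × S2 => PL q * (a q.2.1 * b q.1)) mu3 ∧
      ∫ q, PL q * (a q.2.1 * b q.1) ∂mu3 ≤
        ∫ q, kf q * wt q.1 * (a q.2.1 * b q.1) ∂mu3 + C * (Ka * cJ) * ∫ v, b v * wt v := by
  have k1 : ∀ p, kf p ≤ 1 * kx p := fun p => by rw [one_mul]; exact kf_le p
  have i1 := integrable_pre measurable_kf kf_nonneg k1 measurable_wt
    (fun v => (abs_of_pos (wt_pos' v)).le) ha hb (da.mono (by omega)) (db.mono (by omega))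
  have i2 : Integrable fun v => b v * wt v := Dec.integrable (m := 30) (db.mono (by omega)) hb
    measurable_wt fun v => (abs_of_pos (wt_pos' v)).le.trans (wt_le_pow v)
  have n0 : ∀ v w, 0 ≤ a w * b v := fun v w => mul_nonneg (a0 w) (b0 v)
  have n1 : ∀ q : E × E × S2, 0 ≤ kf q * wt q.1 := fun q =>
    mul_nonneg (kf_nonneg q) (wt_pos' _).le
  have n2 : ∀ v, 0 ≤ b v * wt v := fun v => mul_nonneg (b0 v) (wt_pos' v).le
  have n3 := mul_nonneg hC (mul_nonneg da.nonneg cJ_nonneg)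
  have n4 : 0 ≤ ∫ q, kf q * wt q.1 * (a q.2.1 * b q.1) ∂mu3 :=
    integral_nonneg fun q => mul_nonneg (n1 q) (n0 _ _)
  have n5 : 0 ≤ ∫ v, b v * wt v := integral_nonneg n2
  refine int_le_of_lint (by fun_prop) (fun q => mul_nonneg (PL_nonneg q) (n0 _ _))
    (add_nonneg n4 (mul_nonneg n3 n5)) ?_
  rw [ENNReal.ofReal_add n4 (mul_nonneg n3 n5), ENNReal.ofReal_mul n3,
    ofReal_integral_eq_lintegral_ofReal i1 (ae_of_all _ fun q => mul_nonneg (n1 q) (n0 _ _)),
    ofReal_integral_eq_lintegral_ofReal i2 (ae_of_all _ n2), lintegral_mu3 _ (by fun_prop),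
    lintegral_mu3 _ (by fun_prop), ← lintegral_const_mul _ (by fun_prop),
    ← lintegral_add_right _ (by fun_prop)]
  refine lintegral_mono fun v => ?_
  simp only
  calc _ ≤ ∫⁻ w, (∫⁻ o, ENNReal.ofReal (kf (v, w, o) * wt v * (a w * b v)) ∂sph +
        ENNReal.ofReal (C * (b v * wt v)) * ENNReal.ofReal ((1 + ‖w‖) ^ N * |a w|)) := by
        refine lintegral_mono fun w => ?_
        simp only [ENNReal.ofReal_mul' (n0 v w)]
        rw [lintegral_mul_const _ (by fun_prop), lintegral_mul_const _ (by fun_prop)]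
        refine (mul_le_mul_left (h v w) _).trans (le_of_eq ?_)
        rw [add_mul, ← ENNReal.ofReal_mul' (n0 v w), ← ENNReal.ofReal_mul (mul_nonneg hC (n2 v)),
          abs_of_nonneg (a0 w)]
        congr 2
        ring
    _ ≤ _ := by
        rw [lintegral_add_right _ (by fun_prop), lintegral_const_mul _ (by fun_prop)]
        refine add_le_add le_rfl ((mul_le_mul_right
          (Dec.lint_le (m := N) (da.mono (by omega))) _).trans (le_of_eq ?_))
        rw [← ENNReal.ofReal_mul (mul_nonneg hC (n2 v)), ← ENNReal.ofReal_mul n3]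
        congr 1
        ring

lemma point (hR : 1 ≤ R) (ε : ℝ) (q : E × E × S2) {x y : ℝ} (hx : 0 ≤ x) (hxy : x ≤ y) :
    2 * (kc ε q * WW R (pv q.1 q.2.1 q.2.2) * x) + kf q * WW R (pv q.1 q.2.1 q.2.2) * y +
      kf q * WW R (pw q.1 q.2.1 q.2.2) * y + kf q * WW R q.2.1 * y + kf q * wt q.1 * y ≤
    PL q * y + 2 / R * (kx q * ((1 + ‖q.1‖) * wt q.1 * y)) + 2 * (kc ε q * WW R q.1 * x) +
      kf q * WW R q.1 * y := by
  have R0 : 0 < R := by linarith
  have hy : 0 ≤ y := hx.trans hxy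
  have w0 := (wt_pos' q.1).le
  have a1 : WW R (pv q.1 q.2.1 q.2.2) - WW R q.1 ≤
      |wt (pv q.1 q.2.1 q.2.2) - wt q.1| + wt q.1 * (|rho q| / R) := by
    have b1 := abs_chi_sub_le R0 q.1 (pv q.1 q.2.1 q.2.2)
    rw [norm_pv_sub] at b1
    have b2 := mul_le_mul_of_nonneg_left ((le_abs_self _).trans b1) w0
    have b3 : chi R (pv q.1 q.2.1 q.2.2) * (wt (pv q.1 q.2.1 q.2.2) - wt q.1) ≤
        |wt (pv q.1 q.2.1 q.2.2) - wt q.1| :=
      (mul_le_mul_of_nonneg_left (le_abs_self _) (chi_nonneg _ _)).trans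
        (mul_le_of_le_one_left (abs_nonneg _) (chi_le_one _ _))
    unfold WW rho
    linarith
  have a2 : kc ε q * (WW R (pv q.1 q.2.1 q.2.2) - WW R q.1) ≤
      kn q * |wt (pv q.1 q.2.1 q.2.2) - wt q.1| + 1 / R * (kx q * wt q.1) := by
    have b1 := mul_le_mul_of_nonneg_left a1 (kc_nonneg ε q)
    have b2 := mul_le_mul_of_nonneg_right (kc_le_kn ε q)
      (abs_nonneg (wt (pv q.1 q.2.1 q.2.2) - wt q.1))
    have b3 := mul_le_mul_of_nonneg_right (kc_mul_abs_le ε q) (div_nonneg w0 R0.le)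
    have e1 : kc ε q * (wt q.1 * (|rho q| / R)) = kc ε q * |rho q| * (wt q.1 / R) := by ring
    have e2 : 1 / R * (kx q * wt q.1) = kx q * (wt q.1 / R) := by ring
    linarith
  have a3 : kc ε q * (WW R (pv q.1 q.2.1 q.2.2) - WW R q.1) * x ≤
      (kn q * |wt (pv q.1 q.2.1 q.2.2) - wt q.1| + 1 / R * (kx q * wt q.1)) * y :=
    (mul_le_mul_of_nonneg_right a2 hx).trans (mul_le_mul_of_nonneg_left hxy
      (add_nonneg (mul_nonneg (kn_nonneg q) (abs_nonneg _))
        (mul_nonneg (by positivity) (mul_nonneg (kx_nonneg q) w0))))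
  have m0 := mul_nonneg (kf_nonneg q) hy
  have a4 := mul_le_mul_of_nonneg_left (WW_le R (pv q.1 q.2.1 q.2.2)) m0
  have a5 := mul_le_mul_of_nonneg_left (WW_le R (pw q.1 q.2.1 q.2.2)) m0
  have a6 := mul_le_mul_of_nonneg_left (WW_le R q.2.1) m0
  have a7 : kf q * (1 - chi R q.1) ≤ kx q * (‖q.1‖ / R) :=
    mul_le_mul (kf_le q) (one_sub_chi_le R0 q.1) (sub_nonneg.2 (chi_le_one _ _)) (kx_nonneg q)
  have a8 := mul_le_mul_of_nonneg_right a7 (mul_nonneg w0 hy)
  have a9 : 0 ≤ kx q * (‖q.1‖ / R) * (wt q.1 * y) :=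
    mul_nonneg (mul_nonneg (kx_nonneg q) (by positivity)) (mul_nonneg w0 hy)
  have e3 : 2 / R * (kx q * ((1 + ‖q.1‖) * wt q.1 * y)) =
      2 * (1 / R * (kx q * wt q.1) * y) + 2 * (kx q * (‖q.1‖ / R) * (wt q.1 * y)) := by ring
  have e4 : kf q * WW R q.1 * y = kf q * chi R q.1 * (wt q.1 * y) := by unfold WW; ring
  rw [e3, e4]
  unfold PL
  linarith

end MainU

variable [Dim]

open MainU in
theorem mainU (h : PovStmt) : MainStmt := by
  obtain ⟨C, N, hC, h⟩ := h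
  refine ⟨dd + 61 + N, fun K => ⟨C * ((K + K) * cJ) + cA * ((K + K) * cJ * ((K + K) * cJ)),
    fun f g R ε hR hε hf hg f0 g0 df dg => ?_⟩⟩
  have R0 : 0 < R := by linarith
  have hA : Measurable fun v => |f v - g v| := by fun_prop
  have hF : Measurable (f + g) := hf.add hg
  have F0 : ∀ v, 0 ≤ (f + g) v := fun v => add_nonneg (f0 v) (g0 v)
  have dA : Dec (dd + 61 + N) (K + K) fun v => |f v - g v| := (df.sub dg).abs
  have dF := df.add dg
  have dA' : Dec (dd + 60) (K + K) fun v => |f v - g v| := dA.mono (by omega)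
  have dF' : Dec (dd + 60) (K + K) (f + g) := dF.mono (by omega)
  have dg' : Dec (dd + 60) K g := dg.mono (by omega)
  have k1 : ∀ p, kf p ≤ 1 * kx p := fun p => by rw [one_mul]; exact kf_le p
  have h1 := near (R := R) hε hf hg g0 dg' ((df.sub dg).mono (by omega))
  have h2 := far (R := R) hf hg f0 g0 (df.mono (by omega)) dg'
  obtain ⟨j1, h3⟩ := povz hC h hF hA F0 (fun v => abs_nonneg _) dF (dA.mono (by omega))
  obtain ⟨j2, h4⟩ := tail hF hA F0 (fun v => abs_nonneg _) (dF.mono (by omega))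
    (dA.mono (by omega))
  have b1 : ∀ q : E × E × S2, |WW R (pv q.1 q.2.1 q.2.2)| ≤ wt q.1 * wt q.2.1 := fun q =>
    (abs_WW_le R _).trans (wt_pv_le _ _ _)
  have b2 : ∀ q : E × E × S2, |WW R (pw q.1 q.2.1 q.2.2)| ≤ wt q.1 * wt q.2.1 := fun q =>
    (abs_WW_le R _).trans (wt_pw_le _ _ _)
  have b3 : ∀ q : E × E × S2, |WW R q.2.1| ≤ wt q.1 * wt q.2.1 := fun q =>
    (abs_WW_le R _).trans (le_mul_of_one_le_left (wt_pos' _).le (one_le_wt' _))
  have i1 := (intg (measurable_kc ε) (kc_nonneg ε) (kc_le_kx hε) (by fun_prop) b1 hg hA dg'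
    dA').const_mul 2
  have i2 := intg measurable_kf kf_nonneg k1 (by fun_prop) b1 hF hA dF' dA'
  have i3 := intg measurable_kf kf_nonneg k1 (by fun_prop) b2 hF hA dF' dA'
  have i4 := intg measurable_kf kf_nonneg k1 (by fun_prop) b3 hF hA dF' dA'
  have i5 := integrable_pre measurable_kf kf_nonneg k1 measurable_wt
    (fun v => (abs_of_pos (wt_pos' v)).le) hF hA dF' dA'
  have j3 := (integrable_pre (measurable_kc ε) (kc_nonneg ε) (kc_le_kx hε) (measurable_WW R)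
    (abs_WW_le R) hg hA dg' dA').const_mul 2
  have j4 := integrable_pre measurable_kf kf_nonneg k1 (measurable_WW R) (abs_WW_le R) hF hA dF' dA'
  have key := integral_mono ((((i1.add i2).add i3).add i4).add i5)
    (((j1.add (j2.const_mul (2 / R))).add j3).add j4) fun q => by
      have := point hR ε q (mul_nonneg (g0 q.2.1) (abs_nonneg (f q.1 - g q.1)))
        (mul_le_mul_of_nonneg_right (show g q.2.1 ≤ (f + g) q.2.1 from
          le_add_of_nonneg_left (f0 _)) (abs_nonneg (f q.1 - g q.1)))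
      simp only [Pi.add_apply] at this ⊢
      linarith
  rw [integral_add' (((i1.add i2).add i3).add i4) i5, integral_add' ((i1.add i2).add i3) i4,
    integral_add' (i1.add i2) i3, integral_add' i1 i2,
    integral_add' ((j1.add (j2.const_mul (2 / R))).add j3) j4,
    integral_add' (j1.add (j2.const_mul (2 / R))) j3, integral_add' j1 (j2.const_mul (2 / R)),
    integral_const_mul, integral_const_mul, integral_const_mul] at key
  have h5 := mul_le_mul_of_nonneg_left h4 (show 0 ≤ 2 / R by positivity)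
  have n0 := mul_nonneg dF.nonneg cJ_nonneg
  have n1 := mul_nonneg hC n0
  have n2 := mul_nonneg cA_pos.le (mul_nonneg n0 n0)
  have n3 : 0 ≤ ∫ v, |f v - g v| * wt v :=
    integral_nonneg fun v => mul_nonneg (abs_nonneg _) (wt_pos' v).le
  have n4 := mul_nonneg n1 n3
  have n5 := mul_nonneg n2 n3
  have n6 := div_nonneg n1 R0.le
  have e : 2 / R * (cA * ((K + K) * cJ * ((K + K) * cJ))) =
      2 * (cA * ((K + K) * cJ * ((K + K) * cJ)) / R) := by ring
  rw [add_mul, add_div]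
  linarith

end Pool.Agent.BoltzD.Uq
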