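import Mathlib.Algebra.Module.ZLattice.Basic
import Mathlib.Analysis.ODE.Gronwall
import Mathlib.Dynamics.Ergodic.Action.Regular
import Pool.Agent.BoltzD.Uq.Basic

/-! Transport along characteristics on the torus and Gronwall's lemma. -/

set_option autoImplicit false

open MeasureTheory Set Filter Topology
open scoped ENNReal Pointwise

noncomputable section

namespace Pool.Agent.BoltzD.Uq

open Coll C3

namespace Tr

lemma tendsto_sqrt (y : ℝ) :
    Tendsto (fun n : ℕ => √((1 / ((n : ℝ) + 1)) ^ 2 + y ^ 2)) atTop (𝓝 |y|) := by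
  have h0 : Tendsto (fun n : ℕ => (1 / ((n : ℝ) + 1)) ^ 2 + y ^ 2) atTop (𝓝 (0 ^ 2 + y ^ 2)) :=
    (tendsto_one_div_add_atTop_nhds_zero_nat.pow 2).add tendsto_const_nhds
  have := h0.sqrt
  rwa [show (0 : ℝ) ^ 2 + y ^ 2 = y ^ 2 by ring, Real.sqrt_sq_eq_abs] at this

lemma tendsto_quot (y : ℝ) :
    Tendsto (fun n : ℕ => y / √((1 / ((n : ℝ) + 1)) ^ 2 + y ^ 2)) atTop (𝓝 (sg y)) := by
  rcases eq_or_ne y 0 with rfl | hy
  · simp [sg]
  · have h1 : sg y = y / |y| := by
      rw [eq_div_iff (abs_ne_zero.2 hy)]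
      unfold sg
      split_ifs with h h'
      · rw [one_mul, abs_of_pos h]
      · rw [abs_of_neg h']; ring
      · exact absurd (le_antisymm (not_lt.1 h) (not_lt.1 h')) hy
    rw [h1]
    exact tendsto_const_nhds.div (tendsto_sqrt y) (abs_ne_zero.2 hy)

lemma abs_quot_le (δ y : ℝ) (hδ : 0 < δ) : |y / √(δ ^ 2 + y ^ 2)| ≤ 1 := by
  have h : 0 < √(δ ^ 2 + y ^ 2) := Real.sqrt_pos.2 (by positivity)
  rw [abs_div, abs_of_pos h, div_le_one h]
  exact Real.abs_le_sqrt (by nlinarith [sq_nonneg δ])

/-- the fundamental theorem of calculus for `|u|` -/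
lemma abs_eq_integral {u u' : ℝ → ℝ} {t0 t : ℝ} (hu : Continuous u) (hu' : Continuous u')
    (h0 : u 0 = 0) (hd : ∀ s ∈ Icc 0 t0, HasDerivWithinAt u (u' s) (Icc 0 t0) s)
    (ht : t ∈ Icc 0 t0) : |u t| = ∫ s in Ioc 0 t, sg (u s) * u' s := by
  have key : ∀ δ : ℝ, 0 < δ → √(δ ^ 2 + u t ^ 2) - δ
      = ∫ s in Ioc 0 t, u s / √(δ ^ 2 + u s ^ 2) * u' s := by
    intro δ hδ
    have hp : ∀ s, 0 < δ ^ 2 + u s ^ 2 := fun s => by positivity
    have hc : Continuous fun s => u s / √(δ ^ 2 + u s ^ 2) * u' s :=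
      (hu.div (by fun_prop) fun s => (Real.sqrt_pos.2 (hp s)).ne').mul hu'
    have h1 := intervalIntegral.integral_eq_sub_of_hasDerivAt_of_le ht.1
      (f := fun s => √(δ ^ 2 + u s ^ 2)) (f' := fun s => u s / √(δ ^ 2 + u s ^ 2) * u' s)
      (by fun_prop) (fun s hs => by
        have hs' : s ∈ Icc 0 t0 := ⟨hs.1.le, hs.2.le.trans ht.2⟩
        have h2 := (hd s hs').hasDerivAt (Icc_mem_nhds hs.1 (hs.2.trans_le ht.2))
        have h3 := ((h2.pow 2).const_add (δ ^ 2)).sqrt (hp s).ne'
        refine h3.congr_deriv ?_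
        have := (Real.sqrt_pos.2 (hp s)).ne'
        simp only [Pi.pow_apply]
        field_simp
        norm_num
        ring) (hc.intervalIntegrable _ _)
    rw [intervalIntegral.integral_of_le ht.1] at h1
    rw [h1, h0, show δ ^ 2 + (0 : ℝ) ^ 2 = δ ^ 2 by ring, Real.sqrt_sq hδ.le]
  have l1 : Tendsto (fun n : ℕ => √((1 / ((n : ℝ) + 1)) ^ 2 + u t ^ 2) - 1 / ((n : ℝ) + 1))
      atTop (𝓝 (|u t| - 0)) := (tendsto_sqrt _).sub tendsto_one_div_add_atTop_nhds_zero_nat
  have l2 : Tendsto (fun n : ℕ => ∫ s in Ioc 0 t,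
      u s / √((1 / ((n : ℝ) + 1)) ^ 2 + u s ^ 2) * u' s) atTop
      (𝓝 (∫ s in Ioc 0 t, sg (u s) * u' s)) := by
    refine tendsto_integral_of_dominated_convergence (fun s => |u' s|) (fun n => ?_) ?_
      (fun n => ae_of_all _ fun s => ?_) (ae_of_all _ fun s => (tendsto_quot _).mul_const _)
    · exact (by fun_prop : Measurable _).aestronglyMeasurable
    · exact (hu'.abs.integrableOn_Icc (a := 0) (b := t)).mono_set Ioc_subset_Icc_self
    · rw [Real.norm_eq_abs, abs_mul]
      exact mul_le_of_le_one_left (abs_nonneg _) (abs_quot_le _ _ (by positivity))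
  rw [sub_zero] at l1
  exact tendsto_nhds_unique l1 (l2.congr fun n => (key _ (by positivity)).symm)

variable [Dim]

/-- the standard basis -/
def bb : Module.Basis Ix ℝ E := (EuclideanSpace.basisFun Ix ℝ).toBasis

/-- the unit cube -/
def DD : Set E := ZSpan.fundamentalDomain bb

lemma exists_lat (g : Submodule.span ℤ (Set.range bb)) : ∃ n, (g : E) = Stmt.lat n := by
  obtain ⟨c, hc⟩ := (Submodule.mem_span_range_iff_exists_fun ℤ).1 g.2
  refine ⟨c, ?_⟩
  rw [← hc]
  ext i
  simp [bb, Stmt.lat, Pi.single_apply]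

lemma fund : IsAddFundamentalDomain (Submodule.span ℤ (Set.range bb)) DD (volume : Measure E) :=
  ZSpan.isAddFundamentalDomain bb volume

lemma per_vadd {φ : E → ℝ} (hφ : ∀ n x, φ (x + Stmt.lat n) = φ x)
    (g : Submodule.span ℤ (Set.range bb)) (x : E) : φ (g +ᵥ x) = φ x := by
  obtain ⟨n, hn⟩ := exists_lat g
  rw [Submodule.vadd_def, vadd_eq_add, hn, add_comm, hφ]

instance : VAddInvariantMeasure (Submodule.span ℤ (Set.range bb)) E (volume : Measure E) :=
  ⟨fun g s _ => by
    simpa only [Submodule.vadd_def, vadd_eq_add] using measure_preimage_add volume (g : E) s⟩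

instance : IsFiniteMeasure ((volume : Measure E).restrict DD) :=
  isFiniteMeasure_restrict.2 (ZSpan.fundamentalDomain_isBounded bb).measure_lt_top.ne

lemma shift {φ : E → ℝ} (hφ : ∀ n x, φ (x + Stmt.lat n) = φ x) (a : E) :
    ∫ x in DD, φ (x + a) = ∫ x in DD, φ x := by
  have h1 := (fund.vadd_of_comm a).setIntegral_eq fund (per_vadd hφ)
  rw [← h1]
  have h2 := (measurePreserving_add_left (volume : Measure E) a).setIntegral_image_emb
    (measurableEmbedding_addLeft a) φ DD
  simp only [add_comm a] at h2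
  rw [← h2]
  congr 2
  ext x
  simp only [Set.mem_vadd_set, vadd_eq_add, mem_image, add_comm a]

/-- the measure on the phase space -/
def nu : Measure (E × E) := ((volume : Measure E).restrict DD).prod volume

instance : SFinite nu := by unfold nu; infer_instance

lemma integrable_nu {Ψ : E × E → ℝ} {g : E → ℝ} (hΨ : Measurable Ψ) (hg : Integrable g)
    (h : ∀ q, |Ψ q| ≤ g q.2) : Integrable Ψ nu := by
  have h1 : Integrable (fun q : E × E => (1 : ℝ) * g q.2) nu :=
    Integrable.mul_prod (integrable_const 1) hg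
  exact h1.mono' hΨ.aestronglyMeasurable (ae_of_all _ fun q => by simpa using h q)

lemma shear {Ψ : E → E → ℝ} {g : E → ℝ} (hΨ : Measurable fun q : E × E => Ψ q.1 q.2)
    (hg : Integrable g) (h : ∀ x v, |Ψ x v| ≤ g v)
    (hp : ∀ n x, Ψ (x + Stmt.lat n) = Ψ x) (τ : ℝ) :
    ∫ q, Ψ (q.1 + τ • q.2) q.2 ∂nu = ∫ q, Ψ q.1 q.2 ∂nu := by
  have h1 : Integrable (fun q : E × E => Ψ q.1 q.2) nu := integrable_nu hΨ hg fun q => h _ _
  have h2 : Integrable (fun q : E × E => Ψ (q.1 + τ • q.2) q.2) nu :=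
    integrable_nu (hΨ.comp (by fun_prop : Measurable fun q : E × E => (q.1 + τ • q.2, q.2))) hg
      fun q => h _ _
  unfold nu at *
  rw [integral_prod_symm _ h1, integral_prod_symm _ h2]
  refine integral_congr_ae (ae_of_all _ fun v => ?_)
  exact shift (φ := fun x => Ψ x v) (fun n x => by rw [hp]) (τ • v)

lemma exists_bound {r : ℝ → E → E → ℝ} (hr : Continuous fun q : ℝ × E × E => r q.1 q.2.1 q.2.2)
    (hp : ∀ t n x, r t (x + Stmt.lat n) = r t x) (t0 R : ℝ) :
    ∃ M, ∀ t ∈ Icc 0 t0, ∀ x v, ‖v‖ ≤ R → |r t x v| ≤ M := by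
  have hK : IsCompact (Icc 0 t0 ×ˢ (Metric.closedBall (0 : E) (∑ i, ‖bb i‖) ×ˢ
      Metric.closedBall (0 : E) R)) :=
    isCompact_Icc.prod ((isCompact_closedBall _ _).prod (isCompact_closedBall _ _))
  obtain ⟨M, hM⟩ := hK.exists_bound_of_continuousOn hr.continuousOn
  refine ⟨M, fun t ht x v hv => ?_⟩
  obtain ⟨n, hn⟩ := exists_lat (ZSpan.floor bb x)
  have h1 : x = ZSpan.fract bb x + Stmt.lat n := by rw [ZSpan.fract_apply, hn]; simp
  rw [h1, hp]
  exact hM (t, ZSpan.fract bb x, v)
    ⟨ht, mem_closedBall_zero_iff.2 (ZSpan.norm_fract_le bb x), mem_closedBall_zero_iff.2 hv⟩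

/-- the majorant -/
def maj (K : ℝ) (v : E) : ℝ := K * ((1 + ‖v‖) ^ (dd + 1))⁻¹

lemma integrable_maj (K : ℝ) : Integrable (maj K) :=
  (integrable_wt _ (Nat.lt_succ_self _)).const_mul K

lemma le_maj {K : ℝ} {f : E → ℝ} (h : Dec (dd + 31) K f) (v : E) : |f v| * wt v ≤ maj K v := by
  refine le_trans ?_ (Dec.pow_mul_le (m := 30) h v)
  rw [mul_comm]
  exact mul_le_mul_of_nonneg_right (wt_le_pow v) (abs_nonneg _)

lemma le_maj' {K : ℝ} {f : E → ℝ} (h : Dec (dd + 31) K f) (v : E) :
    |(|f v| * wt v)| ≤ maj K v := by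
  rw [abs_of_nonneg (mul_nonneg (abs_nonneg _) (wt_pos' v).le)]; exact le_maj h v

lemma le_maj'' {K : ℝ} {f : E → ℝ} (h : Dec (dd + 31) K f) (R : ℝ) (v : E) :
    |(|f v| * (wt v * chi R v))| ≤ maj K v := by
  have h1 := chi_nonneg R v
  have h2 := (wt_pos' v).le
  rw [abs_of_nonneg (by positivity)]
  refine le_trans ?_ (le_maj h v)
  exact mul_le_mul_of_nonneg_left (mul_le_of_le_one_right h2 (chi_le_one R v)) (abs_nonneg _)

lemma tendsto_chi (v : E) : Tendsto (fun n : ℕ => chi ((n : ℝ) + 1) v) atTop (𝓝 1) := by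
  have h1 : Tendsto (fun n : ℕ => 1 - ‖v‖ * (1 / ((n : ℝ) + 1))) atTop (𝓝 (1 - ‖v‖ * 0)) :=
    (tendsto_one_div_add_atTop_nhds_zero_nat.const_mul _).const_sub _
  rw [mul_zero, sub_zero] at h1
  refine tendsto_of_tendsto_of_tendsto_of_le_of_le h1 tendsto_const_nhds (fun n => ?_)
    fun n => chi_le_one _ _
  have := one_sub_chi_le (R := (n : ℝ) + 1) (by positivity) v
  rw [mul_one_div]
  linarith

end Tr

open Tr

variable [Dim]

theorem trans : TransStmt := by
  intro h r t0 K C hC hh hr ph pr h0 hd hK hv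
  have mh := hh.measurable
  have mr := hr.measurable
  have mh' : ∀ t, Measurable fun q : E × E => h t q.1 q.2 := fun t =>
    mh.comp (by fun_prop : Measurable fun q : E × E => (t, q))
  have mr' : ∀ t, Measurable fun q : E × E => r t q.1 q.2 := fun t =>
    mr.comp (by fun_prop : Measurable fun q : E × E => (t, q))
  set N : ℝ → ℝ := fun t => ∫ q, |h t q.1 q.2| * wt q.2 ∂nu with hN
  have iN : ∀ t ∈ Icc 0 t0, Integrable (fun q : E × E => |h t q.1 q.2| * wt q.2) nu :=
    fun t ht => integrable_nu ((mh' t).abs.mul (by fun_prop)) (integrable_maj K)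
      fun q => le_maj' (hK t ht q.1) q.2
  have N0 : ∀ t, 0 ≤ N t := fun t =>
    integral_nonneg fun q => mul_nonneg (abs_nonneg _) (wt_pos' _).le
  have cN : ContinuousOn N (Icc 0 t0) := by
    refine continuousOn_of_dominated (bound := fun q : E × E => maj K q.2)
      (fun t ht => (iN t ht).aestronglyMeasurable)
      (fun t ht => ae_of_all _ fun q => le_maj' (hK t ht q.1) q.2) ?_
      (ae_of_all _ fun q => Continuous.continuousOn ?_)
    · simpa [nu] using Integrable.mul_prod (integrable_const (μ := volume.restrict DD) (1 : ℝ))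
        (integrable_maj K)
    · exact ((hh.comp (by fun_prop : Continuous fun t : ℝ => (t, q))).abs).mul continuous_const
  -- the estimate with cut-off
  have step : ∀ t ∈ Icc 0 t0, ∀ R : ℝ, 1 ≤ R →
      ∫ q, |h t q.1 q.2| * (wt q.2 * chi R q.2) ∂nu
        ≤ C * (∫ s in Ioc 0 t, N s) + C / R * ((volume : Measure E).real DD * t) := by
    intro t ht R hR
    have hR0 : 0 < R := by linarith
    obtain ⟨M, hM⟩ := exists_bound hr pr t0 (2 * R)
    set Φ : ℝ → E → E → ℝ := fun s x v => sg (h s x v) * (wt v * chi R v) * r s x v with hΦ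
    set g : E → ℝ := (Metric.closedBall (0 : E) (2 * R)).indicator
      fun _ => (1 + 2 * R) ^ 30 * M with hg
    have ig : Integrable g :=
      (integrable_indicator_iff measurableSet_closedBall).2
        (integrableOn_const measure_closedBall_lt_top.ne)
    have bΦ : ∀ s ∈ Icc 0 t0, ∀ x v, |Φ s x v| ≤ g v := by
      intro s hs x v
      by_cases hv : ‖v‖ ≤ 2 * R
      · rw [hg, indicator_of_mem (mem_closedBall_zero_iff.2 hv), hΦ]
        simp only
        rw [abs_mul]
        refine mul_le_mul ((abs_test_le _ _ _).trans ((wt_le_pow v).trans ?_)) (hM s hs x v hv)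
          (abs_nonneg _) (by positivity)
        gcongr
      · rw [hg, indicator_of_notMem (fun h' => hv (mem_closedBall_zero_iff.1 h')), hΦ]
        simp [chi_eq_zero hR0 (not_le.1 hv).le]
    have mΦ : Measurable fun q : ℝ × E × E => Φ q.1 q.2.1 q.2.2 :=
      ((measurable_sg.comp mh).mul (by fun_prop)).mul mr
    have mΦ' : ∀ s, Measurable fun q : E × E => Φ s q.1 q.2 := fun s =>
      mΦ.comp (by fun_prop : Measurable fun q : E × E => (s, q))
    have sub : ∀ s ∈ Ioc 0 t, s ∈ Icc 0 t0 := fun s hs => ⟨hs.1.le, hs.2.trans ht.2⟩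
    have e1 : ∫ q, |h t q.1 q.2| * (wt q.2 * chi R q.2) ∂nu
        = ∫ q, (∫ s in Ioc 0 t, Φ s (q.1 + s • q.2) q.2) ∂nu := by
      rw [← shear (Ψ := fun x v => |h t x v| * (wt v * chi R v))
        ((mh' t).abs.mul (by fun_prop)) (integrable_maj K) (fun x v => le_maj'' (hK t ht x) R v)
        (fun n x => by rw [ph]) t]
      refine integral_congr_ae (ae_of_all _ fun q => ?_)
      simp only
      rw [abs_eq_integral (u := fun τ => h τ (q.1 + τ • q.2) q.2)
        (u' := fun τ => r τ (q.1 + τ • q.2) q.2)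
        (hh.comp (by fun_prop : Continuous fun τ : ℝ => (τ, q.1 + τ • q.2, q.2)))
        (hr.comp (by fun_prop : Continuous fun τ : ℝ => (τ, q.1 + τ • q.2, q.2)))
        (h0 _ _) (hd q.1 q.2) ht, ← integral_mul_const]
      refine integral_congr_ae (ae_of_all _ fun s => ?_)
      simp only [hΦ]
      ring
    have iP : Integrable (Function.uncurry fun (q : E × E) (s : ℝ) => Φ s (q.1 + s • q.2) q.2)
        (nu.prod (volume.restrict (Ioc 0 t))) := by
      have h1 : Integrable (fun q : E × E => g q.2) nu := by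
        simpa [nu] using Integrable.mul_prod (integrable_const (μ := volume.restrict DD) (1 : ℝ)) ig
      have h2 := h1.mul_prod (integrable_const (μ := volume.restrict (Ioc 0 t)) (1 : ℝ))
      refine h2.mono' (mΦ.comp (by fun_prop : Measurable fun z : (E × E) × ℝ =>
        (z.2, z.1.1 + z.2 • z.1.2, z.1.2))).aestronglyMeasurable ?_
      have h3 : ∀ᵐ z ∂(nu.prod (volume.restrict (Ioc 0 t))), z.2 ∈ Ioc 0 t :=
        Measure.quasiMeasurePreserving_snd.ae (ae_restrict_mem measurableSet_Ioc)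
      filter_upwards [h3] with z hz
      rw [mul_one]
      exact bΦ _ (sub _ hz) _ _
    rw [e1, integral_integral_swap iP]
    have iN' : IntegrableOn N (Ioc 0 t) :=
      ((cN.mono (Icc_subset_Icc_right ht.2)).integrableOn_Icc).mono_set Ioc_subset_Icc_self
    have e2 : C * (∫ s in Ioc 0 t, N s) + C / R * ((volume : Measure E).real DD * t)
        = ∫ s in Ioc 0 t, (C * N s + C / R * (volume : Measure E).real DD) := by
      rw [integral_add (iN'.const_mul C) (integrable_const _), integral_const_mul]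
      simp [ht.1]
      ring_nf
    rw [e2]
    refine setIntegral_mono_on iP.integral_prod_right
      ((iN'.const_mul C).add (integrable_const _)) measurableSet_Ioc fun s hs => ?_
    have hs' := sub s hs
    rw [shear (Ψ := Φ s) (mΦ' s) ig (bΦ s hs') (fun n x => by simp only [hΦ]; rw [ph, pr]) s]
    have i1 : Integrable (fun q : E × E => Φ s q.1 q.2) nu :=
      integrable_nu (mΦ' s) ig fun q => bΦ s hs' _ _
    have i2 := iN s hs'
    simp only [hN]
    unfold nu at i1 i2 ⊢
    rw [integral_prod _ i1, integral_prod _ i2, ← integral_const_mul]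
    have e3 : C / R * (volume : Measure E).real DD = ∫ _x in DD, C / R := by
      simp [mul_comm]
    rw [e3, ← integral_add (i2.integral_prod_left.const_mul C) (integrable_const _)]
    exact integral_mono i1.integral_prod_left
      ((i2.integral_prod_left.const_mul C).add (integrable_const _)) fun x => hv s hs' x R hR
  have step2 : ∀ t ∈ Icc 0 t0, N t ≤ C * ∫ s in Ioc 0 t, N s := by
    intro t ht
    have l1 : Tendsto (fun n : ℕ => ∫ q, |h t q.1 q.2| * (wt q.2 * chi ((n : ℝ) + 1) q.2) ∂nu)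
        atTop (𝓝 (∫ q, |h t q.1 q.2| * (wt q.2 * 1) ∂nu)) := by
      refine tendsto_integral_of_dominated_convergence (fun q : E × E => maj K q.2)
        (fun n => ((mh' t).abs.mul (by fun_prop)).aestronglyMeasurable) ?_
        (fun n => ae_of_all _ fun q => le_maj'' (hK t ht q.1) _ q.2)
        (ae_of_all _ fun q => ((tendsto_chi q.2).const_mul _).const_mul _)
      simpa [nu] using Integrable.mul_prod (integrable_const (μ := volume.restrict DD) (1 : ℝ))
        (integrable_maj K)
    have l2 : Tendsto (fun n : ℕ => C * (∫ s in Ioc 0 t, N s)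
        + C * (1 / ((n : ℝ) + 1)) * ((volume : Measure E).real DD * t)) atTop
        (𝓝 (C * (∫ s in Ioc 0 t, N s) + C * 0 * ((volume : Measure E).real DD * t))) :=
      ((tendsto_one_div_add_atTop_nhds_zero_nat.const_mul C).mul_const _).const_add _
    simp only [mul_one, mul_zero, zero_mul, add_zero] at l1 l2
    refine le_of_tendsto_of_tendsto' l1 l2 fun n => ?_
    rw [mul_one_div]
    exact step t ht _ (by linarith [Nat.cast_nonneg (α := ℝ) n])
  intro t ht
  have h00 : (0 : ℝ) ≤ t0 := ht.1.trans ht.2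
  -- Gronwall
  have NZ : N t = 0 := by
    set N' : ℝ → ℝ := fun s => N (projIcc 0 t0 h00 s) with hN'
    have cN' : Continuous N' :=
      cN.comp_continuous (continuous_subtype_val.comp continuous_projIcc) fun s =>
        (projIcc 0 t0 h00 s).2
    have eN : ∀ s ∈ Icc 0 t0, N' s = N s := fun s hs => by
      simp only [hN', projIcc_of_mem h00 hs]
    have eY : ∀ s ∈ Icc 0 t0, ∫ τ in (0 : ℝ)..s, N' τ = ∫ τ in Ioc 0 s, N τ := fun s hs => by
      rw [intervalIntegral.integral_of_le hs.1]
      exact setIntegral_congr_fun measurableSet_Ioc fun τ hτ => eN τ ⟨hτ.1.le, hτ.2.trans hs.2⟩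
    have dY : ∀ s, HasDerivAt (fun s => ∫ τ in (0 : ℝ)..s, N' τ) (N' s) s := fun s =>
      (cN'.integral_hasStrictDerivAt 0 s).hasDerivAt
    have hY := eq_zero_of_abs_deriv_le_mul_abs_self_of_eq_zero_right (K := C) (a := 0) (b := t0)
      (f := fun s => ∫ τ in (0 : ℝ)..s, N' τ) (f' := N')
      (fun s _ => (dY s).continuousAt.continuousWithinAt)
      (fun s _ => (dY s).hasDerivWithinAt) (by simp) (fun s hs => by
        have hs' : s ∈ Icc 0 t0 := Ico_subset_Icc_self hs
        rw [eN s hs', eY s hs', Real.norm_eq_abs, abs_of_nonneg (N0 s), Real.norm_eq_abs]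
        exact (step2 s hs').trans (mul_le_mul_of_nonneg_left (le_abs_self _) hC)) t ht
    have h2 := step2 t ht
    rw [← eY t ht, hY, mul_zero] at h2
    exact le_antisymm h2 (N0 t)
  -- from the integral to every point
  set G : E → ℝ := fun x => ∫ v, |h t x v| * wt v with hG
  have cx : ∀ x, Continuous fun v => |h t x v| * wt v := fun x =>
    ((hh.comp (by fun_prop : Continuous fun v : E => (t, x, v))).abs).mul continuous_wt
  have cG : Continuous G :=
    continuous_of_dominated (bound := maj K) (fun x => (cx x).aestronglyMeasurable)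
      (fun x => ae_of_all _ fun v => le_maj' (hK t ht x) v) (integrable_maj K)
      (ae_of_all _ fun v =>
        ((hh.comp (by fun_prop : Continuous fun x : E => (t, x, v))).abs).mul continuous_const)
  have i2 := iN t ht
  simp only [hN] at NZ
  unfold nu at i2 NZ
  rw [integral_prod _ i2, integral_eq_zero_iff_of_nonneg
    (fun x => integral_nonneg fun v => mul_nonneg (abs_nonneg _) (wt_pos' _).le)
    i2.integral_prod_left] at NZ
  have pG : ∀ n x, G (x + Stmt.lat n) = G x := fun n x => by simp only [hG, ph]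
  have G0 : G =ᵐ[volume] 0 := by
    refine fund.measure_zero_of_invariant _ (fun g => ?_) ?_
    · ext x
      rw [Set.mem_vadd_set_iff_neg_vadd_mem]
      simp only [mem_compl_iff, mem_setOf_eq, Pi.zero_apply, per_vadd pG]
    · have hm : MeasurableSet {x : E | G x = (0 : E → ℝ) x}ᶜ :=
        (measurableSet_eq_fun cG.measurable measurable_const).compl
      rw [← Measure.restrict_apply hm]
      exact NZ
  have G1 : G = 0 := (cG.ae_eq_iff_eq volume continuous_zero).1 G0
  intro x v
  have h1 : ∫ v, |h t x v| * wt v = 0 := congrFun G1 x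
  rw [integral_eq_zero_iff_of_nonneg (fun v => mul_nonneg (abs_nonneg _) (wt_pos' _).le)
    ((integrable_maj K).mono' (cx x).aestronglyMeasurable
      (ae_of_all _ fun v => le_maj' (hK t ht x) v))] at h1
  have h2 := congrFun (((cx x).ae_eq_iff_eq volume continuous_zero).1 h1) v
  simpa [(wt_pos' v).ne'] using h2

end Pool.Agent.BoltzD.Uq
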