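import Mathlib
import Pool.Agent.BoltzD.Uq.Basic

/-! The Povzner inequality. -/

set_option autoImplicit false

open MeasureTheory Set Filter Topology
open scoped ENNReal RealInnerProductSpace

noncomputable section

namespace Pool.Agent.BoltzD.Uq

open Coll C3

lemma pow_add_le {a b x : ℝ} (ha : 1 ≤ a) (hb : 1 ≤ b) (h0 : 0 ≤ x) (hx : x ≤ a) :
    (x + b) ^ 15 ≤ x ^ 15 + 15 * 2 ^ 14 * (a ^ 14 * b ^ 15) := by
  have h := abs_pow_sub_pow_le (x + b) x 15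
  rw [add_sub_cancel_left, abs_of_nonneg (show 0 ≤ b by linarith),
    abs_of_nonneg (show 0 ≤ x + b by linarith), abs_of_nonneg h0,
    max_eq_left (show x ≤ x + b by linarith)] at h
  have h1 : (x + b) ^ 14 ≤ (2 * (a * b)) ^ 14 := by
    gcongr
    nlinarith [mul_nonneg (sub_nonneg.2 ha) (sub_nonneg.2 hb)]
  have h2 : b * 15 * (x + b) ^ 14 ≤ b * 15 * (2 * (a * b)) ^ 14 := by gcongr
  have h3 : b * 15 * (2 * (a * b)) ^ 14 = 15 * 2 ^ 14 * (a ^ 14 * b ^ 15) := by ring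
  have h4 := le_abs_self ((x + b) ^ 15 - x ^ 15)
  norm_num at h
  linarith

lemma near_le {a b X t : ℝ} (ha : 1 ≤ a) (hb : 1 ≤ b) (h0 : 0 ≤ a - X) (ht : |t| ≤ 1)
    (hX : |X| ≤ 2 * b * |t|) :
    2 * |(a - X) ^ 15 - a ^ 15| ≤ 60 * 3 ^ 14 * (a ^ 14 * b ^ 15) * |t| := by
  have h := abs_pow_sub_pow_le (a - X) a 15
  rw [sub_sub_cancel_left, abs_neg, abs_of_nonneg h0, abs_of_nonneg (show 0 ≤ a by linarith)] at h
  have hab := mul_nonneg (sub_nonneg.2 ha) (sub_nonneg.2 hb)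
  have h5 : 2 * b * |t| ≤ 2 * b := mul_le_of_le_one_right (by linarith) ht
  have h1 : max (a - X) a ^ 14 ≤ (3 * (a * b)) ^ 14 := by
    refine pow_le_pow_left₀ (le_max_of_le_left h0) (max_le ?_ ?_) _
    · nlinarith [neg_abs_le X]
    · nlinarith
  have h2 : |X| * 15 * max (a - X) a ^ 14 ≤ 2 * b * |t| * 15 * (3 * (a * b)) ^ 14 := by
    have := le_max_of_le_left (c := a) h0
    gcongr
  have h3 : 2 * (2 * b * |t| * 15 * (3 * (a * b)) ^ 14) = 60 * 3 ^ 14 * (a ^ 14 * b ^ 15) * |t| := by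
    ring
  norm_num at h
  linarith

lemma far_le {a b X : ℝ} (ha : 1 ≤ a) (hb : 1 ≤ b) (h0 : 0 ≤ a - X) (h1 : 0 ≤ b + X) :
    (a - X) ^ 15 + (b + X) ^ 15 + b ^ 15 + 2 * a ^ 13 * (max X 0 * (a - X))
      ≤ a ^ 15 + 60 * 3 ^ 14 * (a ^ 14 * b ^ 15) := by
  have h2 : b ^ 15 ≤ a ^ 14 * b ^ 15 := le_mul_of_one_le_left (by positivity) (one_le_pow₀ ha)
  have h2' : 0 ≤ b ^ 15 := by positivity
  rcases le_total X 0 with h | h
  · have h3 := pow_add_le ha hb (by linarith) le_rfl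
    have h4 : (a - X) ^ 15 ≤ (a + b) ^ 15 := by gcongr; linarith
    have h5 : (b + X) ^ 15 ≤ b ^ 15 := by gcongr; linarith
    rw [max_eq_right h, zero_mul, mul_zero]
    linarith
  · have h3 := pow_add_le ha hb h (by linarith)
    have h4 : (a - X) ^ 15 ≤ a ^ 13 * (a - X) ^ 2 := by
      rw [show 15 = 13 + 2 from rfl, pow_add]; gcongr; linarith
    have h5 : X ^ 15 ≤ a ^ 13 * X ^ 2 := by
      rw [show 15 = 13 + 2 from rfl, pow_add]; gcongr; linarith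
    have h6 : a ^ 13 * (a - X) ^ 2 + a ^ 13 * X ^ 2 + 2 * a ^ 13 * (X * (a - X)) = a ^ 15 := by ring
    rw [max_eq_left h, add_comm b X]
    linarith

lemma gain_le {a r s X t y : ℝ} (hs : 0 ≤ s) (hr : 64 * (1 + s ^ 2) ≤ r) (h1 : r / 4 ≤ t)
    (h2 : t ≤ r / 2) (hy : |y| ≤ s) (hX : X = t ^ 2 + 2 * t * y) (h3 : (r - s) ^ 2 ≤ a)
    (h4 : a ≤ 1 + (r + s) ^ 2) : a ^ 15 / 128 ≤ 2 * a ^ 13 * (max X 0 * (a - X)) := by
  have k1 : 128 * s ≤ r := by nlinarith [sq_nonneg (s - 1)]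
  have k2 : 64 ≤ r := by nlinarith [sq_nonneg s]
  obtain ⟨k3, k4⟩ := abs_le.1 hy
  have k5 : r ^ 2 / 32 ≤ X := by
    have : r / 4 * (r / 8) ≤ t * (t + 2 * y) :=
      mul_le_mul h1 (by linarith) (by linarith) (by linarith)
    nlinarith
  have k6 : X ≤ r ^ 2 / 3 := by
    have : t * (t + 2 * y) ≤ r / 2 * (r * 2 / 3) := by
      refine mul_le_mul h2 (by linarith) (by linarith) (by linarith)
    nlinarith
  have k7 : r ^ 2 * 5 / 6 ≤ a := by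
    have : (r * 127 / 128) ^ 2 ≤ (r - s) ^ 2 := by gcongr; linarith
    nlinarith
  have k8 : a ≤ 2 * r ^ 2 := by
    have : (r + s) ^ 2 ≤ (r * 129 / 128) ^ 2 := by gcongr; linarith
    nlinarith
  have k0 : 0 ≤ a := by nlinarith
  have k9 : a / 64 * (a / 4) ≤ max X 0 * (a - X) :=
    mul_le_mul (le_max_of_le_left (by linarith)) (by linarith) (by positivity) (le_max_right _ _)
  calc a ^ 15 / 128 = 2 * a ^ 13 * (a / 64 * (a / 4)) := by ring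
    _ ≤ _ := by gcongr

lemma pt_real {a b X t k G : ℝ} (ha : 1 ≤ a) (hb : 1 ≤ b) (h0 : 0 ≤ a - X) (h1 : 0 ≤ b + X)
    (hk : 0 ≤ k) (h2 : |t| ≤ 1 → |X| ≤ 2 * b * |t| ∧ G = 0)
    (h3 : G ≤ k * (2 * a ^ 13 * (max X 0 * (a - X)))) :
    (if |t| ≤ 1 then k else 0) * (2 * |(a - X) ^ 15 - a ^ 15|)
        + (if 1 < |t| then k else 0) * ((a - X) ^ 15 + (b + X) ^ 15 + b ^ 15) + G
      ≤ (if 1 < |t| then k else 0) * a ^ 15
        + k * min 1 |t| * (60 * 3 ^ 14 * (a ^ 14 * b ^ 15)) := by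
  by_cases h : |t| ≤ 1
  · have := mul_le_mul_of_nonneg_left (near_le ha hb h0 h (h2 h).1) hk
    rw [if_pos h, if_neg (not_lt.2 h), min_eq_right h, (h2 h).2]
    linarith
  · have := mul_le_mul_of_nonneg_left (far_le ha hb h0 h1) hk
    rw [if_neg h, if_pos (not_le.1 h), min_eq_left (not_le.1 h).le]
    linarith

variable [Dim]

lemma ker_ge (v w : E) (o : S2) (h : 0 < rho (v, w, o)) :
    2 * ‖v - w‖ ^ 28 ≤ ker3 (v, w, o) := by
  have h1 : |rho (v, w, o)| ≤ ‖v - w‖ := abs_inner_le _ _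
  have h2 : 0 < |rho (v, w, o)| := abs_pos.2 h.ne'
  have h3 : 0 < ‖v - w‖ := h2.trans_le h1
  have h4 : ‖v - w‖ ^ (-(3 / 2) : ℝ) ≤ |rho (v, w, o)| ^ (-(3 / 2) : ℝ) :=
    Real.rpow_le_rpow_of_nonpos h2 h1 (by norm_num)
  calc 2 * ‖v - w‖ ^ 28 = 2 * ‖v - w‖ ^ (59 / 2 : ℝ) * ‖v - w‖ ^ (-(3 / 2) : ℝ) := by
        rw [mul_assoc, ← Real.rpow_add h3, ← Real.rpow_natCast]; norm_num
    _ ≤ 2 * ‖v - w‖ ^ (59 / 2 : ℝ) * |rho (v, w, o)| ^ (-(3 / 2) : ℝ) := by gcongr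
    _ = _ := rfl

/-- the pointwise form -/
lemma pov_pt (v w : E) (o : S2) {G : ℝ} (hG : G = 0 ∨ 64 * (1 + ‖w‖ ^ 2) ≤ ‖v - w‖ ∧
      rho (v, w, o) ∈ Icc (‖v - w‖ / 4) (‖v - w‖ / 2) ∧ G = ‖v - w‖ ^ 28 * wt v / 64) :
    kn (v, w, o) * (2 * |wt (pv v w o) - wt v|)
        + kf (v, w, o) * (wt (pv v w o) + wt (pw v w o) + wt w) + G
      ≤ kf (v, w, o) * wt v + kx (v, w, o) * (60 * 3 ^ 14 * ((1 + ‖v‖ ^ 2) ^ 14 * wt w)) := by
  set t := rho (v, w, o) with ht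
  set y := ⟪w, (o : E)⟫ with hy
  have hy1 : |y| ≤ ‖w‖ := abs_inner_le _ _
  have e2 : 1 + ‖pw v w o‖ ^ 2 = 1 + ‖w‖ ^ 2 + (t ^ 2 + 2 * t * y) := by
    have : pw v w o = w + t • (o : E) := rfl
    rw [this, norm_add_sq_real, inner_smul_right, norm_smul, norm_coe]
    simp
    ring
  have e1 : 1 + ‖pv v w o‖ ^ 2 = 1 + ‖v‖ ^ 2 - (t ^ 2 + 2 * t * y) := by
    linarith [energy v w o]
  have ha : 1 ≤ 1 + ‖v‖ ^ 2 := by nlinarith [sq_nonneg ‖v‖]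
  have hb : 1 ≤ 1 + ‖w‖ ^ 2 := by nlinarith [sq_nonneg ‖w‖]
  have p1 : 0 ≤ 1 + ‖v‖ ^ 2 - (t ^ 2 + 2 * t * y) := by rw [← e1]; positivity
  have p2 : 0 ≤ 1 + ‖w‖ ^ 2 + (t ^ 2 + 2 * t * y) := by rw [← e2]; positivity
  have hk := ker3_nonneg (v, w, o)
  have key := pt_real (t := t) (G := G) ha hb p1 p2 hk (fun h => ⟨?_, hG.resolve_right fun k => by
    nlinarith [k.1, k.2.1.1, le_abs_self t]⟩) ?_
  · unfold kn kf kx wt
    rw [e1, e2, ← ht]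
    exact key
  · rw [show t ^ 2 + 2 * t * y = (t + 2 * y) * t by ring, abs_mul]
    gcongr
    have := abs_add_le t (2 * y)
    rw [abs_mul, abs_two] at this
    nlinarith [sq_nonneg (‖w‖ - 1), sq_nonneg ‖w‖]
  · rcases hG with k | ⟨k1, k2, k3⟩
    · rw [k]
      exact mul_nonneg hk (mul_nonneg (by positivity) (mul_nonneg (le_max_right _ _) p1))
    · have k4 : ‖v - w‖ - ‖w‖ ≤ ‖v‖ := by linarith [norm_sub_le v w]
      have k5 : ‖v‖ ≤ ‖v - w‖ + ‖w‖ := by linarith [norm_sub_norm_le v w]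
      have k6 : 0 ≤ ‖v - w‖ - ‖w‖ := by nlinarith [sq_nonneg (‖w‖ - 1)]
      have k7 := gain_le (a := 1 + ‖v‖ ^ 2) (norm_nonneg w) k1 k2.1 k2.2 hy1 rfl
        ((pow_le_pow_left₀ k6 k4 2).trans (by linarith))
        (add_le_add le_rfl (pow_le_pow_left₀ (norm_nonneg v) k5 2))
      have k8 := ker_ge v w o (by linarith [k2.1])
      calc G = 2 * ‖v - w‖ ^ 28 * (wt v / 128) := by rw [k3]; ring
        _ ≤ _ := mul_le_mul k8 k7 (div_nonneg (wt_pos' v).le (by norm_num)) hk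

/-- the integrated form -/
lemma pov_int (v w : E) {φ : ℝ → ℝ} (hφ : Measurable φ) (h0 : ∀ t, 0 ≤ φ t)
    (hG : ∀ t, φ t = 0 ∨ 64 * (1 + ‖w‖ ^ 2) ≤ ‖v - w‖ ∧
      t ∈ Icc (‖v - w‖ / 4) (‖v - w‖ / 2) ∧ φ t = ‖v - w‖ ^ 28 * wt v / 64) :
    ∫⁻ o, ENNReal.ofReal (kn (v, w, o) * (2 * |wt (pv v w o) - wt v|)
        + kf (v, w, o) * (wt (pv v w o) + wt (pw v w o) + wt w)) ∂sph
        + ∫⁻ o, ENNReal.ofReal (φ ⟪v - w, (o : E)⟫) ∂sph
      ≤ ∫⁻ o, ENNReal.ofReal (kf (v, w, o) * wt v) ∂sph + ENNReal.ofReal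
        (cA * ‖v - w‖ ^ (57 / 2 : ℝ) * (60 * 3 ^ 14 * ((1 + ‖v‖ ^ 2) ^ 14 * wt w))) := by
  have hw := wt_pos' w
  have hc := cA_pos
  rw [← lintegral_add_right _ (by fun_prop), ENNReal.ofReal_mul (by positivity)]
  refine le_trans ?_ (add_le_add le_rfl (mul_le_mul_left (lint_kx_sph v w) _))
  rw [← lintegral_mul_const _ (by fun_prop), ← lintegral_add_left (by fun_prop)]
  refine lintegral_mono fun o => ?_
  have := kn_nonneg (v, w, o)
  have := kf_nonneg (v, w, o)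
  have := kx_nonneg (v, w, o)
  have := wt_pos' v
  have := wt_pos' (pv v w o)
  have := wt_pos' (pw v w o)
  simp only
  rw [← ENNReal.ofReal_add (by positivity) (h0 _), ← ENNReal.ofReal_mul (by positivity),
    ← ENNReal.ofReal_add (by positivity) (by positivity)]
  exact ENNReal.ofReal_le_ofReal (pov_pt v w o (hG _))

theorem pov : PovStmt := by
  have hc := cA_pos
  have hS := cS_pos
  obtain ⟨c, hc0, hcc⟩ : ∃ c : ℝ, 0 < c ∧ c = (1 / 2) ^ dd * cS / 256 := ⟨_, by positivity, rfl⟩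
  obtain ⟨L, hL, hL'⟩ : ∃ L : ℝ, 64 ≤ L ∧ 2 * (cA * (60 * 3 ^ 14)) ≤ c * L :=
    ⟨max 64 (2 * (cA * (60 * 3 ^ 14)) / c), le_max_left _ _, by
      rw [← div_le_iff₀' hc0]; exact le_max_right _ _⟩
  refine ⟨cA * (60 * 3 ^ 14) * (1 + L) ^ 29, 900, by positivity, fun v w => ?_⟩
  have ha : 1 ≤ 1 + ‖v‖ ^ 2 := by nlinarith [sq_nonneg ‖v‖]
  have hb : 1 ≤ 1 + ‖w‖ ^ 2 := by nlinarith [sq_nonneg ‖w‖]
  have hw := one_le_wt' w
  have hv := wt_pos' v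
  have hn := norm_nonneg (v - w)
  rcases le_total (L * wt w) ‖v - w‖ with h | h
  · have h1 : 64 * (1 + ‖w‖ ^ 2) ≤ ‖v - w‖ :=
      le_trans (mul_le_mul hL (le_self_pow₀ hb (by norm_num)) (by linarith) (by linarith)) h
    have h2 := pov_int v w (φ := (Icc (‖v - w‖ / 4) (‖v - w‖ / 2)).indicator
      fun _ => ‖v - w‖ ^ 28 * wt v / 64) (measurable_const.indicator measurableSet_Icc)
      (fun t => indicator_nonneg (fun _ _ => by positivity) t) fun t => by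
        by_cases k : t ∈ Icc (‖v - w‖ / 4) (‖v - w‖ / 2)
        · exact Or.inr ⟨h1, k, indicator_of_mem k _⟩
        · exact Or.inl (indicator_of_notMem k _)
    have h3 : 0 < ‖v - w‖ := by linarith
    have h4 := le_arch (v - w) (norm_pos_iff.1 h3) (fun t => ENNReal.ofReal
      ((Icc (‖v - w‖ / 4) (‖v - w‖ / 2)).indicator (fun _ => ‖v - w‖ ^ 28 * wt v / 64) t))
      (measurable_const.indicator measurableSet_Icc).ennreal_ofReal fun t ht => by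
        rw [indicator_of_notMem fun k => by nlinarith [k.1, k.2], ENNReal.ofReal_zero]
    have h4' : ∀ t, ENNReal.ofReal ((Icc (‖v - w‖ / 4) (‖v - w‖ / 2)).indicator
        (fun _ => ‖v - w‖ ^ 28 * wt v / 64) t) = (Icc (‖v - w‖ / 4) (‖v - w‖ / 2)).indicator
        (fun _ => ENNReal.ofReal (‖v - w‖ ^ 28 * wt v / 64)) t := fun t => by
      unfold indicator
      split_ifs <;> simp
    simp only [h4'] at h2 h4
    rw [lintegral_indicator measurableSet_Icc, setLIntegral_const, Real.volume_Icc,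
      ← ENNReal.ofReal_mul (by positivity), ← ENNReal.ofReal_mul (by positivity)] at h4
    refine le_trans ?_ le_self_add
    refine ENNReal.le_of_add_le_add_right ENNReal.ofReal_ne_top
      (((add_le_add le_rfl h4).trans h2).trans (add_le_add le_rfl (ENNReal.ofReal_le_ofReal ?_)))
    have h5 : ‖v - w‖ ^ (57 / 2 : ℝ) ≤ ‖v - w‖ ^ 28 * ‖v - w‖ := by
      rw [← pow_succ, ← Real.rpow_natCast]
      exact Real.rpow_le_rpow_of_exponent_le (by linarith) (by norm_num)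
    have h6 : ‖v - w‖ ^ 2 / 2 ≤ 1 + ‖v‖ ^ 2 := by
      have k1 : ‖v - w‖ * 3 / 4 ≤ ‖v‖ := by nlinarith [norm_sub_le v w, sq_nonneg (‖w‖ - 1)]
      have k2 : (‖v - w‖ * 3 / 4) ^ 2 ≤ ‖v‖ ^ 2 := by gcongr
      nlinarith
    have h7 : cA * (60 * 3 ^ 14) * wt w * ‖v - w‖ ≤ c * (1 + ‖v‖ ^ 2) :=
      calc _ ≤ c * L / 2 * wt w * ‖v - w‖ := by gcongr; linarith
        _ = c * (L * wt w * ‖v - w‖ / 2) := by ring
        _ ≤ c * (‖v - w‖ * ‖v - w‖ / 2) := by gcongr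
        _ ≤ _ := by rw [← sq]; gcongr
    calc _ ≤ cA * (‖v - w‖ ^ 28 * ‖v - w‖) * (60 * 3 ^ 14 * ((1 + ‖v‖ ^ 2) ^ 14 * wt w)) := by
          gcongr
      _ = ‖v - w‖ ^ 28 * (1 + ‖v‖ ^ 2) ^ 14 * (cA * (60 * 3 ^ 14) * wt w * ‖v - w‖) := by ring
      _ ≤ ‖v - w‖ ^ 28 * (1 + ‖v‖ ^ 2) ^ 14 * (c * (1 + ‖v‖ ^ 2)) := by gcongr
      _ = _ := by rw [hcc, wt]; field_simp; ring
  · have h2 := pov_int v w (φ := fun _ => 0) measurable_const (fun _ => le_rfl) fun _ => Or.inl rfl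
    refine (le_self_add.trans h2).trans (add_le_add le_rfl (ENNReal.ofReal_le_ofReal ?_))
    have h5 : ‖v - w‖ ^ (57 / 2 : ℝ) ≤ ((1 + L) * wt w) ^ 29 := by
      rw [← Real.rpow_natCast]
      exact (Real.rpow_le_rpow hn (by nlinarith) (by norm_num)).trans
        (Real.rpow_le_rpow_of_exponent_le (by nlinarith) (by norm_num))
    have h6 : (1 + ‖v‖ ^ 2) ^ 14 ≤ wt v := pow_le_pow_right₀ ha (by norm_num)
    have h7 : wt w ^ 30 ≤ (1 + ‖w‖) ^ 900 := by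
      rw [show 900 = 30 * 30 from rfl, pow_mul]
      exact pow_le_pow_left₀ (by linarith) (wt_le_pow w) _
    calc _ ≤ cA * ((1 + L) * wt w) ^ 29 * (60 * 3 ^ 14 * (wt v * wt w)) := by gcongr
      _ = cA * (60 * 3 ^ 14) * (1 + L) ^ 29 * wt w ^ 30 * wt v := by
          rw [mul_pow, pow_succ (wt w) 29]; generalize (1 + L) ^ 29 = A; generalize wt w ^ 29 = B; ring
      _ ≤ _ := by gcongr

end Pool.Agent.BoltzD.Uq
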